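import Pool.Agent.H34WH.W0

set_option autoImplicit false

namespace Pool.Agent.H34WH

open MeasureTheory Set Filter Topology Metric
open scoped ContDiff

theorem pf_1d_conts (p : ℝ) : Continuous fun r : ℝ => (1 + r ^ 2) ^ p :=
  Continuous.rpow_const (by fun_prop) (fun r => Or.inl (by positivity))

theorem pf_1d_contV (n : ℕ) (α : ℝ) : Continuous (V1 n α) :=
  (pf_1d_conts (α - 1)).mul (continuous_pow (n - 1))

theorem pf_1d_contW (n : ℕ) (α : ℝ) : Continuous (W1 n α) :=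
  (pf_1d_conts α).mul (continuous_pow (n - 1))

theorem pf_1d_Vpos (n : ℕ) (α : ℝ) {r : ℝ} (hr : 0 < r) : 0 < V1 n α r := by
  unfold V1
  have : 0 < (1 + r ^ 2) ^ (α - 1) := Real.rpow_pos_of_pos (by positivity) _
  positivity

theorem pf_1d_Vnn (n : ℕ) (α : ℝ) {r : ℝ} (hr : 0 ≤ r) : 0 ≤ V1 n α r := by
  unfold V1
  have : 0 < (1 + r ^ 2) ^ (α - 1) := Real.rpow_pos_of_pos (by positivity) _
  positivity

theorem pf_1d_WV (n : ℕ) (α : ℝ) (r : ℝ) : W1 n α r = (1 + r ^ 2) * V1 n α r := by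
  unfold W1 V1
  have h : (0 : ℝ) < 1 + r ^ 2 := by positivity
  rw [Real.rpow_sub_one h.ne']
  field_simp

theorem pf_1d_Vle (n : ℕ) {α : ℝ} (hα : α < 1) {r : ℝ} (hr : 0 ≤ r) :
    V1 n α r ≤ r ^ (n - 1) := by
  unfold V1
  have h : (1 + r ^ 2) ^ (α - 1) ≤ 1 :=
    Real.rpow_le_one_of_one_le_of_nonpos (by nlinarith [sq_nonneg r]) (by linarith)
  calc (1 + r ^ 2) ^ (α - 1) * r ^ (n - 1) ≤ 1 * r ^ (n - 1) :=
        mul_le_mul_of_nonneg_right h (by positivity)
    _ = r ^ (n - 1) := one_mul _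

theorem pf_1d_sq_rpow {r : ℝ} (hr : 0 < r) (p : ℝ) : (r ^ 2) ^ p = r ^ (2 * p) := by
  rw [← Real.rpow_natCast r 2, ← Real.rpow_mul hr.le]
  norm_num

theorem pf_1d_pow_rpow {n : ℕ} (hn : 1 ≤ n) {r : ℝ} (hr : 0 < r) (p : ℝ) :
    r ^ (2 * p) * r ^ (n - 1) = r ^ (n + 2 * (p + 1) - 3) := by
  rw [← Real.rpow_natCast r (n - 1), ← Real.rpow_add hr, Nat.cast_sub hn]
  congr 1
  push_cast
  ring

theorem pf_1d_Vle2 {n : ℕ} (hn : 1 ≤ n) {α : ℝ} (hα : α < 1) {r : ℝ} (hr : 0 < r) :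
    V1 n α r ≤ r ^ (n + 2 * α - 3) := by
  unfold V1
  have h : (1 + r ^ 2) ^ (α - 1) ≤ (r ^ 2) ^ (α - 1) :=
    Real.rpow_le_rpow_of_nonpos (by positivity) (by linarith) (by linarith)
  calc (1 + r ^ 2) ^ (α - 1) * r ^ (n - 1) ≤ (r ^ 2) ^ (α - 1) * r ^ (n - 1) :=
        mul_le_mul_of_nonneg_right h (by positivity)
    _ = r ^ (n + 2 * α - 3) := by
        rw [pf_1d_sq_rpow hr, pf_1d_pow_rpow hn hr]
        congr 1
        ring

theorem pf_1d_Vge {n : ℕ} {α : ℝ} (hα : α < 1) {r : ℝ} (hr : 0 < r) (hr1 : r ≤ 1) :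
    2 ^ (α - 1) * r ^ (n - 1) ≤ V1 n α r := by
  unfold V1
  have h : (2 : ℝ) ^ (α - 1) ≤ (1 + r ^ 2) ^ (α - 1) :=
    Real.rpow_le_rpow_of_nonpos (by positivity) (by nlinarith) (by linarith)
  exact mul_le_mul_of_nonneg_right h (by positivity)

theorem pf_1d_Vge2 {n : ℕ} (hn : 1 ≤ n) {α : ℝ} (hα : α < 1) {r : ℝ} (hr1 : 1 ≤ r) :
    2 ^ (α - 1) * r ^ (n + 2 * α - 3) ≤ V1 n α r := by
  have hr : 0 < r := by linarith
  unfold V1
  have h : (2 * r ^ 2) ^ (α - 1) ≤ (1 + r ^ 2) ^ (α - 1) :=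
    Real.rpow_le_rpow_of_nonpos (by positivity) (by nlinarith) (by linarith)
  have h2 : (2 * r ^ 2) ^ (α - 1) * r ^ (n - 1) = 2 ^ (α - 1) * r ^ (n + 2 * α - 3) := by
    rw [Real.mul_rpow (by norm_num) (by positivity), pf_1d_sq_rpow hr, mul_assoc,
      pf_1d_pow_rpow hn hr]
    congr 2
    ring
  rw [← h2]
  exact mul_le_mul_of_nonneg_right h (by positivity)

theorem pf_1d_intV {n : ℕ} (hn : 1 ≤ n) {α : ℝ} (hα : α < 1) (hna : (n : ℝ) + 2 * α - 2 < 0) :
    IntegrableOn (V1 n α) (Ioi 0) := by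
  rw [← Ioc_union_Ioi_eq_Ioi (zero_le_one' ℝ)]
  refine IntegrableOn.union ?_ ?_
  · exact ((pf_1d_contV n α).integrableOn_Icc (a := 0) (b := 1)).mono_set Ioc_subset_Icc_self
  · refine Integrable.mono' (integrableOn_Ioi_rpow_of_lt (a := n + 2 * α - 3) (by linarith)
      one_pos) (pf_1d_contV n α).aestronglyMeasurable.restrict ?_
    refine (ae_restrict_iff' measurableSet_Ioi).2 (Eventually.of_forall fun r hr => ?_)
    have hr0 : (0 : ℝ) < r := lt_trans one_pos hr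
    rw [Real.norm_of_nonneg (pf_1d_Vnn n α hr0.le)]
    exact pf_1d_Vle2 hn hα hr0

theorem pf_1d_tail {n : ℕ} (hn : 1 ≤ n) {α : ℝ} (hα : α < 1) (hna : (n : ℝ) + 2 * α - 2 < 0)
    {r : ℝ} (hr : 0 < r) :
    ∫ t in Ioi r, V1 n α t ≤ r ^ (n + 2 * α - 2) / (-(n + 2 * α - 2)) := by
  have h1 : ∫ t in Ioi r, V1 n α t ≤ ∫ t in Ioi r, t ^ (n + 2 * α - 3) := by
    refine setIntegral_mono_on ((pf_1d_intV hn hα hna).mono_set (Ioi_subset_Ioi hr.le))
      (integrableOn_Ioi_rpow_of_lt (by linarith) hr) measurableSet_Ioi fun t ht => ?_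
    exact pf_1d_Vle2 hn hα (lt_trans hr ht)
  refine h1.trans (le_of_eq ?_)
  rw [integral_Ioi_rpow_of_lt (by linarith) hr]
  have h2 : (n : ℝ) + 2 * α - 3 + 1 = n + 2 * α - 2 := by ring
  rw [h2, neg_div, div_neg]

/-- the logarithmic derivative of the ground state -/
noncomputable def pf_1d_p (n : ℕ) (θ r : ℝ) : ℝ := n / r - 2 * θ * r / (1 + r ^ 2)

noncomputable def pf_1d_q (n : ℕ) (α θ r : ℝ) : ℝ := pf_1d_p n θ r / V1 n α r

/-- the constant `K (s)` -/
noncomputable def pf_1d_K (n : ℕ) (α θ s : ℝ) : ℝ :=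
  -2 * (n - 2 * θ) * (1 - α - θ) + 4 * θ * (α + θ) / s

theorem pf_1d_derivV {n : ℕ} (hn : 1 ≤ n) (α : ℝ) {r : ℝ} (hr : 0 < r) :
    HasDerivAt (V1 n α) (V1 n α r * ((n - 1) / r + 2 * (α - 1) * r / (1 + r ^ 2))) r := by
  have hs : (0 : ℝ) < 1 + r ^ 2 := by positivity
  have h1 : HasDerivAt (fun r : ℝ => 1 + r ^ 2) (2 * r) r := by
    have := (hasDerivAt_pow 2 r).const_add 1
    simpa using this
  have h2 : HasDerivAt (fun r : ℝ => (1 + r ^ 2) ^ (α - 1))
      (2 * r * (α - 1) * (1 + r ^ 2) ^ (α - 1 - 1)) r := h1.rpow_const (Or.inl hs.ne')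
  have h3 : HasDerivAt (fun r : ℝ => r ^ (n - 1)) (((n - 1 : ℕ) : ℝ) * r ^ (n - 1 - 1)) r :=
    hasDerivAt_pow (n - 1) r
  have h4 := h2.mul h3
  refine h4.congr_deriv ?_
  have h5 : ((n - 1 : ℕ) : ℝ) * r ^ (n - 1 - 1) = (n - 1) / r * r ^ (n - 1) := by
    rcases Nat.eq_or_lt_of_le hn with h | h
    · subst h
      simp
    · have h6 : r ^ (n - 1) = r ^ (n - 1 - 1) * r := by
        rw [← pow_succ]
        congr 1
        omega
      rw [h6, Nat.cast_sub hn]
      field_simp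
      push_cast
      ring
  rw [h5, Real.rpow_sub_one hs.ne']
  unfold V1
  field_simp
  ring

theorem pf_1d_derivq {n : ℕ} (hn : 1 ≤ n) (α θ : ℝ) {r : ℝ} (hr : 0 < r) :
    HasDerivAt (pf_1d_q n α θ)
      (-(pf_1d_K n α θ (1 + r ^ 2) / W1 n α r + pf_1d_q n α θ r ^ 2 * V1 n α r)) r := by
  have hs : (0 : ℝ) < 1 + r ^ 2 := by positivity
  have hV := pf_1d_Vpos n α hr
  have h1 : HasDerivAt (fun r : ℝ => 1 + r ^ 2) (2 * r) r := by
    have := (hasDerivAt_pow 2 r).const_add 1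
    simpa using this
  have h2 : HasDerivAt (fun r : ℝ => (n : ℝ) / r) (-(n : ℝ) / r ^ 2) r := by
    have := (hasDerivAt_inv hr.ne').const_mul (n : ℝ)
    refine (this.congr_deriv ?_)
    field_simp
  have h3 : HasDerivAt (fun r : ℝ => 2 * θ * r / (1 + r ^ 2))
      ((2 * θ * (1 + r ^ 2) - 2 * θ * r * (2 * r)) / (1 + r ^ 2) ^ 2) r := by
    have h4 : HasDerivAt (fun r : ℝ => 2 * θ * r) (2 * θ) r := by
      simpa using (hasDerivAt_id r).const_mul (2 * θ)
    exact h4.div h1 hs.ne'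
  have h4 := ((h2.sub h3).div (pf_1d_derivV hn α hr) hV.ne')
  refine h4.congr_deriv ?_
  rw [pf_1d_WV]
  unfold pf_1d_q pf_1d_p pf_1d_K
  simp only [Pi.sub_apply]
  have hr' := hr.ne'
  have hs' := hs.ne'
  have hV' := hV.ne'
  generalize V1 n α r = V at *
  field_simp
  ring

theorem pf_1d_exists_theta {n : ℕ} (hn : 2 ≤ n) {α : ℝ} (hα : α < -((n : ℝ) - 2) / 2) :
    0 < Cst n α ∧ ∃ θ : ℝ, ∀ s : ℝ, 1 ≤ s → Cst n α ≤ pf_1d_K n α θ s := by
  have hn' : (2 : ℝ) ≤ n := by exact_mod_cast hn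
  unfold Cst
  split_ifs with h1 h2 h3
  · refine ⟨by linarith, -α, fun s hs => ?_⟩
    unfold pf_1d_K
    have : 4 * -α * (α + -α) / s = 0 := by simp
    rw [this]
    nlinarith
  · refine ⟨by linarith, -α, fun s hs => ?_⟩
    unfold pf_1d_K
    have : 4 * -α * (α + -α) / s = 0 := by simp
    rw [this]
    nlinarith
  · refine ⟨?_, (n / 2 + 1 - α) / 2, fun s hs => ?_⟩
    · have : ((n : ℝ) + 2 * α - 2) < 0 := by linarith
      have h4 := sq_pos_of_neg this
      positivity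
    · unfold pf_1d_K
      have h5 : 0 ≤ 4 * (((n : ℝ) / 2 + 1 - α) / 2) * (α + ((n : ℝ) / 2 + 1 - α) / 2) / s := by
        have h6 : 0 ≤ ((n : ℝ) / 2 + 1 - α) / 2 := by linarith
        have h7 : 0 ≤ α + ((n : ℝ) / 2 + 1 - α) / 2 := by
          push Not at h2
          linarith
        positivity
      nlinarith
  · exfalso
    push Not at h3
    linarith

/-- the pointwise inequality -/
theorem pf_1d_alg (C G g g' q K V W : ℝ) (hC : 0 < C) (hV : 0 < V) (hW : 0 < W) (hK : C ≤ K) :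
    -2 * C * (V * g * g + G * g') + C * (2 * G * (V * g) * q + G ^ 2 * -(K / W + q ^ 2 * V)) ≤
      W * g' ^ 2 - C * (V * g ^ 2) := by
  have h1 : 0 ≤ (W * g' + C * G) ^ 2 / W := by positivity
  have h2 : 0 ≤ C * V * (g - G * q) ^ 2 := by positivity
  have h3 : 0 ≤ C * G ^ 2 * (K - C) / W := by
    have : 0 ≤ K - C := by linarith
    positivity
  have h4 : W * g' ^ 2 - C * (V * g ^ 2) - (-2 * C * (V * g * g + G * g') +
      C * (2 * G * (V * g) * q + G ^ 2 * -(K / W + q ^ 2 * V))) =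
      (W * g' + C * G) ^ 2 / W + C * V * (g - G * q) ^ 2 + C * G ^ 2 * (K - C) / W := by
    field_simp
    ring
  linarith

theorem pf_1d_pabs (n : ℕ) (θ : ℝ) {r : ℝ} (hr : 0 < r) :
    |pf_1d_p n θ r| ≤ (n + 2 * |θ|) / r := by
  unfold pf_1d_p
  have h1 : |2 * θ * r / (1 + r ^ 2)| ≤ 2 * |θ| / r := by
    rw [abs_div, abs_mul, abs_mul, abs_of_pos hr, abs_of_pos (by positivity : (0 : ℝ) < 1 + r ^ 2),
      abs_of_pos (by norm_num : (0 : ℝ) < 2), div_le_div_iff₀ (by positivity) hr]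
    have := abs_nonneg θ
    nlinarith [sq_nonneg r]
  have h2 : |(n : ℝ) / r| = n / r := abs_of_nonneg (by positivity)
  calc |(n : ℝ) / r - 2 * θ * r / (1 + r ^ 2)| ≤ |(n : ℝ) / r| + |2 * θ * r / (1 + r ^ 2)| :=
        abs_sub _ _
    _ ≤ n / r + 2 * |θ| / r := by rw [h2]; linarith
    _ = (n + 2 * |θ|) / r := by ring

/-- bound for the boundary terms -/
theorem pf_1d_bdry (n : ℕ) (α θ : ℝ) {r G c1 c2 P : ℝ} (hr : 0 < r) (hP : 0 < P) (hc2 : 0 < c2)
    (hG : |G| ≤ c1 * P) (hV : c2 * P ≤ r * V1 n α r) :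
    |G ^ 2 * pf_1d_q n α θ r| ≤ c1 ^ 2 * (n + 2 * |θ|) / c2 * P := by
  have hVp := pf_1d_Vpos n α hr
  have h1 : |pf_1d_q n α θ r| ≤ (n + 2 * |θ|) / (r * V1 n α r) := by
    unfold pf_1d_q
    rw [abs_div, abs_of_pos hVp, ← div_div]
    exact div_le_div_of_nonneg_right (pf_1d_pabs n θ hr) hVp.le
  have h2 : (n + 2 * |θ|) / (r * V1 n α r) ≤ (n + 2 * |θ|) / (c2 * P) :=
    div_le_div_of_nonneg_left (by positivity) (by positivity) hV
  have h3 : G ^ 2 ≤ (c1 * P) ^ 2 := by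
    rw [← sq_abs]
    exact pow_le_pow_left₀ (abs_nonneg _) hG 2
  rw [abs_mul, abs_of_nonneg (sq_nonneg G)]
  calc G ^ 2 * |pf_1d_q n α θ r| ≤ (c1 * P) ^ 2 * ((n + 2 * |θ|) / (c2 * P)) :=
        mul_le_mul h3 (h1.trans h2) (abs_nonneg _) (by positivity)
    _ = c1 ^ 2 * (n + 2 * |θ|) / c2 * P := by
        field_simp

theorem pf_1d : S_1d := by
  intro n α hn hα g hg hgc
  have hn1 : 1 ≤ n := by omega
  have hnR : (2 : ℝ) ≤ n := by exact_mod_cast hn
  have hα1 : α < 1 := by linarith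
  have hna : (n : ℝ) + 2 * α - 2 < 0 := by linarith
  obtain ⟨hC, θ, hθ⟩ := pf_1d_exists_theta hn hα
  set C := Cst n α with hCdef
  have hcV := pf_1d_contV n α
  have hcW := pf_1d_contW n α
  have hcg : Continuous g := hg.continuous
  have hcg' : Continuous (deriv g) := hg.continuous_deriv le_rfl
  have hiV : IntegrableOn (V1 n α) (Ioi 0) := pf_1d_intV hn1 hα1 hna
  have hI : 0 < ∫ r in Ioi (0 : ℝ), V1 n α r := by
    rw [setIntegral_pos_iff_support_of_nonneg_ae ?_ hiV]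
    · have h1 : Ioi (0 : ℝ) ⊆ Function.support (V1 n α) ∩ Ioi 0 :=
        fun r hr => ⟨(pf_1d_Vpos n α hr).ne', hr⟩
      refine lt_of_lt_of_le ?_ (measure_mono h1)
      rw [Real.volume_Ioi]
      exact ENNReal.zero_lt_top
    · exact (ae_restrict_iff' measurableSet_Ioi).2 (Eventually.of_forall fun r hr =>
        (pf_1d_Vpos n α hr).le)
  set I := ∫ r in Ioi (0 : ℝ), V1 n α r with hIdef
  have hiVg : Integrable fun r => V1 n α r * g r :=
    (hcV.mul hcg).integrable_of_hasCompactSupport hgc.mul_left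
  have hiVg2 : Integrable fun r => V1 n α r * g r ^ 2 := by
    refine (hcV.mul (hcg.pow 2)).integrable_of_hasCompactSupport (HasCompactSupport.mul_left ?_)
    refine hgc.mono' ?_
    intro x hx
    refine subset_tsupport g ?_
    intro h0
    apply hx
    simp [h0]
  have hiWg : Integrable fun r => W1 n α r * deriv g r ^ 2 := by
    refine (hcW.mul (hcg'.pow 2)).integrable_of_hasCompactSupport (HasCompactSupport.mul_left ?_)
    refine hgc.deriv.mono' ?_
    intro x hx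
    refine subset_tsupport (deriv g) ?_
    intro h0
    apply hx
    simp [h0]
  set J := ∫ r in Ioi (0 : ℝ), V1 n α r * g r with hJdef
  set b := J / I with hb
  -- the centred function
  have hiV0 : IntegrableOn (fun r => V1 n α r * (g r - b)) (Ioi 0) := by
    have h1 : IntegrableOn (fun r => V1 n α r * g r - b * V1 n α r) (Ioi 0) :=
      hiVg.integrableOn.sub (hiV.const_mul b)
    refine h1.congr_fun (fun r _ => ?_) measurableSet_Ioi
    ring
  have htot : ∫ r in Ioi (0 : ℝ), V1 n α r * (g r - b) = 0 := by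
    have h1 : ∫ r in Ioi (0 : ℝ), V1 n α r * (g r - b) =
        ∫ r in Ioi (0 : ℝ), (V1 n α r * g r - b * V1 n α r) := by
      congr 1
      funext r
      ring
    rw [h1, integral_sub hiVg.integrableOn (hiV.const_mul b), integral_const_mul, ← hIdef, ← hJdef,
      hb]
    field_simp
    ring
  have hiV02 : IntegrableOn (fun r => V1 n α r * (g r - b) ^ 2) (Ioi 0) := by
    have h1 : IntegrableOn (fun r => V1 n α r * g r ^ 2 - 2 * b * (V1 n α r * g r) +
        b ^ 2 * V1 n α r) (Ioi 0) :=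
      (hiVg2.integrableOn.sub (hiVg.integrableOn.const_mul (2 * b))).add (hiV.const_mul (b ^ 2))
    refine h1.congr_fun (fun r _ => ?_) measurableSet_Ioi
    ring
  have hA : ∫ r in Ioi (0 : ℝ), V1 n α r * (g r - b) ^ 2 =
      (∫ r in Ioi (0 : ℝ), V1 n α r * g r ^ 2) - J ^ 2 / I := by
    have h1 : ∫ r in Ioi (0 : ℝ), V1 n α r * (g r - b) ^ 2 =
        ∫ r in Ioi (0 : ℝ), (V1 n α r * g r ^ 2 - 2 * b * (V1 n α r * g r) +
        b ^ 2 * V1 n α r) := by
      congr 1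
      funext r
      ring
    have h2 : IntegrableOn (fun r => V1 n α r * g r ^ 2 - 2 * b * (V1 n α r * g r)) (Ioi 0) :=
      hiVg2.integrableOn.sub (hiVg.integrableOn.const_mul (2 * b))
    rw [h1, integral_add h2 (hiV.const_mul (b ^ 2)), integral_sub hiVg2.integrableOn
      (hiVg.integrableOn.const_mul (2 * b)), integral_const_mul, integral_const_mul, ← hIdef,
      ← hJdef, hb]
    field_simp
    ring
  obtain ⟨M0, hM0⟩ := hgc.exists_bound_of_continuous hcg
  obtain ⟨M, hM, hM'⟩ : ∃ M : ℝ, 0 ≤ M ∧ ∀ r, |g r - b| ≤ M := by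
    refine ⟨|M0| + |b|, by positivity, fun r => ?_⟩
    calc |g r - b| ≤ |g r| + |b| := abs_sub _ _
      _ ≤ |M0| + |b| := by
        have := (hM0 r).trans (le_abs_self M0)
        rw [Real.norm_eq_abs] at this
        linarith
  -- the primitive
  let G : ℝ → ℝ := fun r => ∫ t in (0 : ℝ)..r, V1 n α t * (g t - b)
  have hcV0 : Continuous fun r => V1 n α r * (g r - b) := hcV.mul (hcg.sub continuous_const)
  have hGd : ∀ r, HasDerivAt G (V1 n α r * (g r - b)) r := fun r =>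
    (hcV0.integral_hasStrictDerivAt 0 r).hasDerivAt
  have hGc : Continuous G := continuous_iff_continuousAt.2 fun r => (hGd r).continuousAt
  have hG0 : G 0 = 0 := intervalIntegral.integral_same
  have hG1 : ∀ r, 0 < r → |G r| ≤ M * r ^ n := by
    intro r hr
    have h1 : ‖∫ t in (0 : ℝ)..r, V1 n α t * (g t - b)‖ ≤ (r ^ (n - 1) * M) * |r - 0| := by
      refine intervalIntegral.norm_integral_le_of_norm_le_const fun t ht => ?_
      rw [uIoc_of_le hr.le] at ht
      rw [norm_mul, Real.norm_of_nonneg (pf_1d_Vnn n α ht.1.le), Real.norm_eq_abs]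
      refine mul_le_mul ((pf_1d_Vle n hα1 ht.1.le).trans
        (pow_le_pow_left₀ ht.1.le ht.2 _)) (hM' t) (abs_nonneg _) (by positivity)
    rw [Real.norm_eq_abs] at h1
    refine h1.trans (le_of_eq ?_)
    rw [sub_zero, abs_of_pos hr]
    have h2 : r ^ n = r ^ (n - 1) * r := by
      rw [← pow_succ]
      congr 1
      omega
    rw [h2]
    ring
  have hG2 : ∀ r, 0 < r → |G r| ≤ M / (-(n + 2 * α - 2)) * r ^ ((n : ℝ) + 2 * α - 2) := by
    intro r hr
    have h1 : (∫ t in Ioc 0 r, V1 n α t * (g t - b)) + ∫ t in Ioi r, V1 n α t * (g t - b) = 0 := by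
      rw [← setIntegral_union (Ioc_disjoint_Ioi le_rfl) measurableSet_Ioi
        (hiV0.mono_set Ioc_subset_Ioi_self) (hiV0.mono_set (Ioi_subset_Ioi hr.le)),
        Ioc_union_Ioi_eq_Ioi hr.le, htot]
    have h2 : G r = -∫ t in Ioi r, V1 n α t * (g t - b) := by
      change ∫ t in (0 : ℝ)..r, V1 n α t * (g t - b) = _
      rw [intervalIntegral.integral_of_le hr.le]
      linarith
    have h3 : ‖∫ t in Ioi r, V1 n α t * (g t - b)‖ ≤ ∫ t in Ioi r, M * V1 n α t := by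
      refine norm_integral_le_of_norm_le ((hiV.mono_set (Ioi_subset_Ioi hr.le)).const_mul M) ?_
      refine (ae_restrict_iff' measurableSet_Ioi).2 (Eventually.of_forall fun t ht => ?_)
      have ht0 : (0 : ℝ) ≤ t := (hr.trans ht).le
      rw [norm_mul, Real.norm_of_nonneg (pf_1d_Vnn n α ht0), Real.norm_eq_abs, mul_comm]
      exact mul_le_mul_of_nonneg_right (hM' t) (pf_1d_Vnn n α ht0)
    rw [h2, abs_neg]
    rw [Real.norm_eq_abs, integral_const_mul] at h3
    refine h3.trans ((mul_le_mul_of_nonneg_left (pf_1d_tail hn1 hα1 hna hr) hM).trans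
      (le_of_eq ?_))
    ring
  -- the boundary terms
  let Θ : ℝ → ℝ := fun r => G r ^ 2 * pf_1d_q n α θ r
  have h2pos : (0 : ℝ) < 2 ^ (α - 1) := Real.rpow_pos_of_pos (by norm_num) _
  obtain ⟨c0, hc0, hΘ0⟩ : ∃ c : ℝ, 0 ≤ c ∧ ∀ r, 0 < r → r ≤ 1 → |Θ r| ≤ c * r ^ n := by
    refine ⟨M ^ 2 * (n + 2 * |θ|) / 2 ^ (α - 1), by positivity, fun r hr hr1 => ?_⟩
    refine pf_1d_bdry n α θ hr (by positivity) h2pos (hG1 r hr) ?_
    have h2 : r ^ n = r * r ^ (n - 1) := by
      rw [← pow_succ']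
      congr 1
      omega
    rw [h2]
    have := mul_le_mul_of_nonneg_left (pf_1d_Vge (n := n) hα1 hr hr1) hr.le
    linarith
  obtain ⟨c1, hc1, hΘ1⟩ : ∃ c : ℝ, 0 ≤ c ∧ ∀ r, 1 ≤ r →
      |Θ r| ≤ c * r ^ ((n : ℝ) + 2 * α - 2) := by
    refine ⟨(M / (-(n + 2 * α - 2))) ^ 2 * (n + 2 * |θ|) / 2 ^ (α - 1), by positivity,
      fun r hr1 => ?_⟩
    have hr : 0 < r := by linarith
    refine pf_1d_bdry n α θ hr (by positivity) h2pos (hG2 r hr) ?_
    have h2 : r ^ ((n : ℝ) + 2 * α - 2) = r * r ^ ((n : ℝ) + 2 * α - 3) := by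
      have h3 : (n : ℝ) + 2 * α - 3 = n + 2 * α - 2 - 1 := by ring
      rw [h3, Real.rpow_sub_one hr.ne']
      field_simp
    rw [h2]
    have := mul_le_mul_of_nonneg_left (pf_1d_Vge2 hn1 hα1 hr1) hr.le
    linarith
  have hΘz : Θ 0 = 0 := by
    change G 0 ^ 2 * _ = 0
    rw [hG0]
    ring
  let Ψ : ℝ → ℝ := fun r => -2 * C * (G r * (g r - b)) + C * Θ r
  have hΨ0 : Ψ 0 = 0 := by
    change -2 * C * (G 0 * (g 0 - b)) + C * Θ 0 = 0
    rw [hΘz, hG0]
    ring
  let F : ℝ → ℝ := fun r => W1 n α r * deriv g r ^ 2 - C * (V1 n α r * (g r - b) ^ 2)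
  have hFi : IntegrableOn F (Ioi 0) := hiWg.integrableOn.sub (hiV02.const_mul C)
  have hFc : Continuous F :=
    (hcW.mul (hcg'.pow 2)).sub (continuous_const.mul (hcV.mul ((hcg.sub continuous_const).pow 2)))
  have hgd : ∀ r, HasDerivAt (fun r => g r - b) (deriv g r) r := fun r =>
    ((hg.differentiable one_ne_zero r).hasDerivAt).sub_const b
  have hΨd : ∀ r, 0 < r → HasDerivAt Ψ (-2 * C * (V1 n α r * (g r - b) * (g r - b) +
      G r * deriv g r) + C * (2 * G r * (V1 n α r * (g r - b)) * pf_1d_q n α θ r +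
      G r ^ 2 * -(pf_1d_K n α θ (1 + r ^ 2) / W1 n α r + pf_1d_q n α θ r ^ 2 * V1 n α r))) r := by
    intro r hr
    have h1 := ((hGd r).mul (hgd r)).const_mul (-2 * C)
    have h2 := ((hGd r).pow 2).mul (pf_1d_derivq hn1 α θ hr)
    have h3 := h1.add (h2.const_mul C)
    refine h3.congr_deriv ?_
    simp only [Nat.cast_ofNat, Nat.add_one_sub_one, pow_one, Pi.pow_apply]
  have hΨc : ∀ T, 0 ≤ T → ContinuousOn Ψ (Icc 0 T) := by
    intro T hT r hr
    rcases hr.1.eq_or_lt with h0 | h0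
    · subst h0
      have h1 : ContinuousWithinAt Θ (Icc 0 T) 0 := by
        unfold ContinuousWithinAt
        rw [hΘz]
        refine squeeze_zero_norm' (a := fun r => c0 * r ^ n) ?_ ?_
        · have h2 : ∀ᶠ r : ℝ in 𝓝[Icc 0 T] 0, r < 1 :=
            mem_nhdsWithin_of_mem_nhds (Iio_mem_nhds one_pos)
          filter_upwards [h2, self_mem_nhdsWithin] with r hr1 hr2
          rcases hr2.1.eq_or_lt with h3 | h3
          · subst h3
            rw [hΘz, norm_zero]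
            positivity
          · exact hΘ0 r h3 hr1.le
        · have h3 : Continuous fun r : ℝ => c0 * r ^ n := by fun_prop
          have h4 := h3.tendsto 0
          have h5 : c0 * (0 : ℝ) ^ n = 0 := by
            rw [zero_pow (by omega), mul_zero]
          rw [h5] at h4
          exact h4.mono_left nhdsWithin_le_nhds
      have h2 : ContinuousWithinAt (fun r => -2 * C * (G r * (g r - b))) (Icc 0 T) 0 :=
        (continuous_const.mul (hGc.mul (hcg.sub continuous_const))).continuousWithinAt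
      exact h2.add (continuousWithinAt_const.mul h1)
    · exact (hΨd r h0).continuousAt.continuousWithinAt
  have hineq : ∀ T, 0 ≤ T → Ψ T ≤ ∫ r in (0 : ℝ)..T, F r := by
    intro T hT
    have h1 := intervalIntegral.sub_le_integral_of_hasDeriv_right_of_le hT (hΨc T hT)
      (fun r hr => (hΨd r hr.1).hasDerivWithinAt) hFc.integrableOn_Icc (φ := F) (fun r hr => by
        have hr0 : 0 < r := hr.1
        refine pf_1d_alg C (G r) (g r - b) (deriv g r) (pf_1d_q n α θ r)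
          (pf_1d_K n α θ (1 + r ^ 2)) (V1 n α r) (W1 n α r) hC (pf_1d_Vpos n α hr0) ?_
          (hθ _ (by nlinarith [sq_nonneg r]))
        rw [pf_1d_WV]
        have := pf_1d_Vpos n α hr0
        positivity)
    rw [hΨ0, sub_zero] at h1
    exact h1
  have hlimF : Tendsto (fun T : ℝ => ∫ r in (0 : ℝ)..T, F r) atTop
      (𝓝 (∫ r in Ioi (0 : ℝ), F r)) := intervalIntegral_tendsto_integral_Ioi 0 hFi tendsto_id
  have hpow : Tendsto (fun r : ℝ => r ^ ((n : ℝ) + 2 * α - 2)) atTop (𝓝 0) := by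
    have h1 := tendsto_rpow_neg_atTop (y := -((n : ℝ) + 2 * α - 2)) (by linarith)
    rwa [neg_neg] at h1
  have hlimΨ : Tendsto Ψ atTop (𝓝 0) := by
    have h1 : Tendsto Θ atTop (𝓝 0) := by
      refine squeeze_zero_norm' (a := fun r => c1 * r ^ ((n : ℝ) + 2 * α - 2)) ?_ ?_
      · filter_upwards [eventually_ge_atTop 1] with r hr
        exact hΘ1 r hr
      · have := hpow.const_mul c1
        rwa [mul_zero] at this
    have h2 : Tendsto (fun r => G r * (g r - b)) atTop (𝓝 0) := by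
      refine squeeze_zero_norm' (a := fun r => M / (-(n + 2 * α - 2)) *
        r ^ ((n : ℝ) + 2 * α - 2) * M) ?_ ?_
      · filter_upwards [eventually_gt_atTop 0] with r hr
        rw [norm_mul, Real.norm_eq_abs, Real.norm_eq_abs]
        exact mul_le_mul (hG2 r hr) (hM' r) (abs_nonneg _) ((abs_nonneg _).trans (hG2 r hr))
      · have := (hpow.const_mul (M / (-(n + 2 * α - 2)))).mul_const M
        rwa [mul_zero, zero_mul] at this
    have h3 := (h2.const_mul (-2 * C)).add (h1.const_mul C)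
    rwa [mul_zero, mul_zero, add_zero] at h3
  have hfin : 0 ≤ ∫ r in Ioi (0 : ℝ), F r := by
    refine le_of_tendsto_of_tendsto hlimΨ hlimF ?_
    filter_upwards [eventually_ge_atTop 0] with T hT
    exact hineq T hT
  have hF2 : ∫ r in Ioi (0 : ℝ), F r = (∫ r in Ioi (0 : ℝ), W1 n α r * deriv g r ^ 2) -
      C * ∫ r in Ioi (0 : ℝ), V1 n α r * (g r - b) ^ 2 := by
    change ∫ r in Ioi (0 : ℝ), (W1 n α r * deriv g r ^ 2 - C * (V1 n α r * (g r - b) ^ 2)) = _
    rw [integral_sub hiWg.integrableOn (hiV02.const_mul C), integral_const_mul]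
  rw [hF2, hA] at hfin
  linarith

end Pool.Agent.H34WH
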