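import Pool.Agent.H34WH.W0

set_option autoImplicit false

namespace Pool.Agent.H34WH

open MeasureTheory Set Filter Topology Metric
open scoped ContDiff

theorem pf_low2_Cst (n : ℕ) (α : ℝ) (hn : 2 ≤ n) (hα : α < -((n : ℝ) - 2) / 2) :
    Cst n α ≤ -2 * α := by
  have hn' : (2 : ℝ) ≤ n := by exact_mod_cast hn
  unfold Cst
  split_ifs with h1 h2 h3
  · exact le_rfl
  · push Not at h1
    linarith
  · push Not at h1 h2
    have y0 : 0 < -((n : ℝ) + 2 * α - 2) := by linarith
    have y4 : -((n : ℝ) + 2 * α - 2) < 4 := by linarith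
    nlinarith [mul_pos y0 (sub_pos.mpr y4)]
  · push Not at h3
    linarith

theorem pf_low2_Rf_invol {n : ℕ} (a : E n) (ha : ‖a‖ = 1) (x : E n) : Rf a (Rf a x) = x := by
  unfold Rf
  have h : inner ℝ a (x - (2 * inner ℝ a x) • a) = - inner ℝ a x := by
    rw [inner_sub_right, inner_smul_right, real_inner_self_eq_norm_sq, ha]
    ring
  rw [h]
  module

theorem pf_low2_Rf_contDiff {n : ℕ} (a : E n) (k : WithTop ℕ∞) : ContDiff ℝ k (Rf a) := by
  unfold Rf
  exact contDiff_id.sub ((contDiff_const.mul (contDiff_const.inner ℝ contDiff_id)).smul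
    contDiff_const)

/-- the reflection as a homeomorphism -/
noncomputable def pf_low2_homeo {n : ℕ} (a : E n) (ha : ‖a‖ = 1) : E n ≃ₜ E n where
  toFun := Rf a
  invFun := Rf a
  left_inv := pf_low2_Rf_invol a ha
  right_inv := pf_low2_Rf_invol a ha
  continuous_toFun := (pf_low2_Rf_contDiff a 1).continuous
  continuous_invFun := (pf_low2_Rf_contDiff a 1).continuous

theorem pf_low2 (h1 : S_red) (h2 : S_avg) (h3 : S_nr) : S_low2 := by
  intro n α hn hα u hu hcs hint
  have hn' : (2 : ℝ) ≤ n := by exact_mod_cast hn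
  have hα0 : α < 0 := by linarith
  have hC := pf_low2_Cst n α hn hα
  obtain ⟨K, hK⟩ := h3 n α hn hα
  have key : ∀ δ : ℝ, 0 < δ → -(K * δ ^ 2) ≤ en n α u - Cst n α * ms n α u := by
    intro δ hδ
    obtain ⟨v, ⟨v1, v2, v3, v4⟩, hv⟩ := h2 n u
      (fun v => ContDiff ℝ 1 v ∧ HasCompactSupport v ∧ ∫ x, wt n (α - 1) x * v x = 0 ∧
        en n α v - Cst n α * ms n α v ≤ en n α u - Cst n α * ms n α u)
      hu hcs ⟨hu, hcs, hint, le_rfl⟩
      (by
        rintro v ⟨v1, v2, v3, v4⟩ a ha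
        obtain ⟨r1, r2⟩ := h1 n α (Cst n α) hα0 hC a ha v v1 v2
        have c1 : ContDiff ℝ 1 (fun x => v (Rf a x)) := v1.comp (pf_low2_Rf_contDiff a 1)
        have s1 : HasCompactSupport (fun x => v (Rf a x)) :=
          v2.comp_homeomorph (pf_low2_homeo a ha)
        refine ⟨(v1.add c1).div_const 2, ?_, r2.trans v3, r1.trans v4⟩
        have e := (v2.add s1).mul_right (f' := fun _ => (1 / 2 : ℝ))
        have e' : (fun x => (v x + v (Rf a x)) / 2) =
            (v + fun x => v (Rf a x)) * (fun _ => (1 / 2 : ℝ)) := by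
          funext x
          simp only [Pi.mul_apply, Pi.add_apply]
          ring
        rw [e']
        exact e)
      δ hδ
    have := hK v δ v1 v2 hδ.le v3 hv
    linarith
  by_contra hcon
  push Not at hcon
  set ε := Cst n α * ms n α u - en n α u with hε
  have hε0 : 0 < ε := by rw [hε]; linarith
  have hK1 : 0 < |K| + 1 := by positivity
  set δ := min 1 (ε / 2 / (|K| + 1)) with hδ
  have hδ0 : 0 < δ := lt_min one_pos (by positivity)
  have hδ1 : δ ≤ 1 := min_le_left _ _
  have hδ2 : δ ≤ ε / 2 / (|K| + 1) := min_le_right _ _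
  have := key δ hδ0
  have e1 : δ ^ 2 ≤ δ := by nlinarith
  have e2 : K * δ ^ 2 ≤ |K| * δ ^ 2 := mul_le_mul_of_nonneg_right (le_abs_self K) (sq_nonneg _)
  have e3 : |K| * δ ^ 2 ≤ (|K| + 1) * δ := by
    nlinarith [abs_nonneg K, mul_le_mul_of_nonneg_left e1 (abs_nonneg K)]
  have e4 : (|K| + 1) * δ ≤ ε / 2 := by
    rw [le_div_iff₀ hK1] at hδ2
    linarith
  linarith

end Pool.Agent.H34WH
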