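import Pool.Agent.H34WH.W0

set_option autoImplicit false

namespace Pool.Agent.H34WH

open MeasureTheory Set Filter Topology Metric
open scoped ContDiff

theorem pf_nr_V1_cont (n : ℕ) (α : ℝ) : Continuous (V1 n α) := by
  unfold V1
  apply Continuous.mul
  · apply Continuous.rpow_const
    · fun_prop
    · intro x; left; positivity
  · fun_prop

theorem pf_nr_W1_cont (n : ℕ) (α : ℝ) : Continuous (W1 n α) := by
  unfold W1
  apply Continuous.mul
  · apply Continuous.rpow_const
    · fun_prop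
    · intro x; left; positivity
  · fun_prop

theorem pf_nr_V1_nonneg (n : ℕ) (α : ℝ) {r : ℝ} (hr : 0 ≤ r) : 0 ≤ V1 n α r := by
  unfold V1; positivity

theorem pf_nr_W1_nonneg (n : ℕ) (α : ℝ) {r : ℝ} (hr : 0 ≤ r) : 0 ≤ W1 n α r := by
  unfold W1; positivity

theorem pf_nr_V1_int (n : ℕ) (α : ℝ) (hn : 2 ≤ n) (hα : α < -((n : ℝ) - 2) / 2) :
    IntegrableOn (V1 n α) (Ioi (0 : ℝ)) := by
  have hn' : (2 : ℝ) ≤ n := by exact_mod_cast hn
  have hα1 : α - 1 ≤ 0 := by linarith
  rw [← Ioc_union_Ioi_eq_Ioi (zero_le_one (α := ℝ))]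
  apply IntegrableOn.union
  · exact ((pf_nr_V1_cont n α).continuousOn.integrableOn_Icc).mono_set Ioc_subset_Icc_self
  · have h1 : IntegrableOn (fun r : ℝ => r ^ (2 * (α - 1) + ((n : ℝ) - 1))) (Ioi (1 : ℝ)) :=
      integrableOn_Ioi_rpow_of_lt (by linarith) one_pos
    refine Integrable.mono' h1 (pf_nr_V1_cont n α).aestronglyMeasurable ?_
    filter_upwards [ae_restrict_mem measurableSet_Ioi] with r hr
    have hr1 : (1 : ℝ) < r := hr
    have hr0 : (0 : ℝ) < r := by linarith
    rw [Real.norm_of_nonneg (pf_nr_V1_nonneg n α hr0.le)]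
    unfold V1
    have e1 : (1 + r ^ 2) ^ (α - 1) ≤ (r ^ 2) ^ (α - 1) :=
      Real.rpow_le_rpow_of_nonpos (by positivity) (by linarith) hα1
    have e2 : (r ^ 2 : ℝ) ^ (α - 1) = r ^ (2 * (α - 1)) := by
      rw [← Real.rpow_natCast, ← Real.rpow_mul hr0.le]; norm_num
    have e3 : r ^ (n - 1) = r ^ ((n : ℝ) - 1) := by
      rw [← Real.rpow_natCast]
      congr 1
      have : 1 ≤ n := by omega
      push_cast [this]
      ring
    calc (1 + r ^ 2) ^ (α - 1) * r ^ (n - 1) ≤ r ^ (2 * (α - 1)) * r ^ ((n : ℝ) - 1) := by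
          rw [e3, ← e2]
          apply mul_le_mul_of_nonneg_right e1 (by positivity)
      _ = r ^ (2 * (α - 1) + ((n : ℝ) - 1)) := by rw [Real.rpow_add hr0]

theorem pf_nr_Cst_nonneg (n : ℕ) (α : ℝ) (hn : 2 ≤ n) (hα : α < -((n : ℝ) - 2) / 2) :
    0 ≤ Cst n α := by
  have hn' : (2 : ℝ) ≤ n := by exact_mod_cast hn
  unfold Cst
  split_ifs with h1 h2 h3
  · linarith
  · linarith
  · positivity
  · exfalso; linarith

theorem pf_nr_wt (n : ℕ) (p r : ℝ) (z : sphere (0 : E n) 1) :
    wt n p (r • (z : E n)) = (1 + r ^ 2) ^ p := by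
  have hz : ‖(z : E n)‖ = 1 := by simp
  unfold wt
  rw [norm_smul, hz, mul_one, Real.norm_eq_abs, sq_abs]

theorem pf_nr_emb (n : ℕ) (z : sphere (0 : E n) 1) :
    IsClosedEmbedding (fun r : ℝ => r • (z : E n)) := by
  have hz : ‖(z : E n)‖ = 1 := by simp
  apply isClosedEmbedding_smul_left
  intro h
  rw [h] at hz
  simp at hz

theorem pf_nr_sph (n : ℕ) {f : sphere (0 : E n) 1 → ℝ} (hf : Continuous f) :
    Integrable f ((volume : Measure (E n)).toSphere) :=
  hf.integrable_of_hasCompactSupport (HasCompactSupport.of_compactSpace f)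

theorem pf_nr_wt_cont (n : ℕ) (p : ℝ) : Continuous (wt n p) := by
  unfold wt
  apply Continuous.rpow_const
  · fun_prop
  · intro x; left; positivity

theorem pf_nr (h1 : S_pol) (h2 : S_1d) : S_nr := by
  intro n α hn hα
  have hn1 : 1 ≤ n := by omega
  set C := Cst n α with hC
  have hC0 : 0 ≤ C := pf_nr_Cst_nonneg n α hn hα
  set v1 := ∫ r in Ioi (0 : ℝ), V1 n α r with hv1
  have hv10 : 0 ≤ v1 := by
    apply setIntegral_nonneg measurableSet_Ioi
    intro r hr
    exact pf_nr_V1_nonneg n α (le_of_lt hr)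
  have hVint := pf_nr_V1_int n α hn hα
  set μ := (volume : Measure (E n)).toSphere with hμ
  set sig := μ.real univ with hsig
  have hsig0 : 0 < sig := by
    rw [hsig, hμ, Measure.toSphere_real_apply_univ]
    have : 0 < Module.finrank ℝ (E n) := by
      simp [finrank_euclideanSpace]; omega
    have h3 : 0 < (volume : Measure (E n)).real (ball 0 1) := by
      rw [measureReal_def, ENNReal.toReal_pos_iff]
      exact ⟨measure_ball_pos _ _ one_pos, measure_ball_lt_top⟩
    positivity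
  refine ⟨C * sig * v1, ?_⟩
  intro v δ hv hcs hδ hint hd
  -- regularity
  have hvc : Continuous v := hv.continuous
  have hfd : Continuous (fun x => fderiv ℝ v x) := hv.continuous_fderiv (by norm_num)
  have c1 : Continuous (fun x => wt n α x * ‖fderiv ℝ v x‖ ^ 2) :=
    (pf_nr_wt_cont n α).mul (hfd.norm.pow 2)
  have s1 : HasCompactSupport (fun x => wt n α x * ‖fderiv ℝ v x‖ ^ 2) := by
    apply HasCompactSupport.mul_left
    have := (hcs.fderiv (𝕜 := ℝ)).comp_left (g := fun y : E n →L[ℝ] ℝ => ‖y‖ ^ 2) (by simp)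
    exact this
  have c2 : Continuous (fun x => wt n (α - 1) x * v x ^ 2) :=
    (pf_nr_wt_cont n (α - 1)).mul (hvc.pow 2)
  have s2 : HasCompactSupport (fun x => wt n (α - 1) x * v x ^ 2) := by
    apply HasCompactSupport.mul_left
    exact hcs.comp_left (g := fun y : ℝ => y ^ 2) (by simp)
  have c3 : Continuous (fun x => wt n (α - 1) x * v x) := (pf_nr_wt_cont n (α - 1)).mul hvc
  have s3 : HasCompactSupport (fun x => wt n (α - 1) x * v x) := HasCompactSupport.mul_left hcs
  obtain ⟨p1c, p1⟩ := h1 n _ hn1 c1 s1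
  obtain ⟨p2c, p2⟩ := h1 n _ hn1 c2 s2
  obtain ⟨p3c, p3⟩ := h1 n _ hn1 c3 s3
  set Φ1 : sphere (0 : E n) 1 → ℝ := fun z => ∫ r in Ioi (0 : ℝ), r ^ (n - 1) *
    (wt n α (r • (z : E n)) * ‖fderiv ℝ v (r • (z : E n))‖ ^ 2) with hΦ1
  set Φ2 : sphere (0 : E n) 1 → ℝ := fun z => ∫ r in Ioi (0 : ℝ), r ^ (n - 1) *
    (wt n (α - 1) (r • (z : E n)) * v (r • (z : E n)) ^ 2) with hΦ2
  set Φ3 : sphere (0 : E n) 1 → ℝ := fun z => ∫ r in Ioi (0 : ℝ), r ^ (n - 1) *
    (wt n (α - 1) (r • (z : E n)) * v (r • (z : E n))) with hΦ3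
  have q2 : ∀ z : sphere (0 : E n) 1, Φ2 z = ∫ r in Ioi (0 : ℝ), V1 n α r * v (r • (z : E n)) ^ 2 := by
    intro z
    simp only [hΦ2, pf_nr_wt, V1]
    congr 1
    ext r
    ring
  have q3 : ∀ z : sphere (0 : E n) 1, Φ3 z = ∫ r in Ioi (0 : ℝ), V1 n α r * v (r • (z : E n)) := by
    intro z
    simp only [hΦ3, pf_nr_wt, V1]
    congr 1
    ext r
    ring
  have q1 : ∀ z : sphere (0 : E n) 1, Φ1 z = ∫ r in Ioi (0 : ℝ), W1 n α r *
      ‖fderiv ℝ v (r • (z : E n))‖ ^ 2 := by
    intro z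
    simp only [hΦ1, pf_nr_wt, W1]
    congr 1
    ext r
    ring
  -- the one-dimensional functions
  have gC : ∀ z : sphere (0 : E n) 1, ContDiff ℝ 1 (fun r : ℝ => v (r • (z : E n))) := by
    intro z
    exact hv.comp (contDiff_id.smul contDiff_const)
  have gS : ∀ z : sphere (0 : E n) 1, HasCompactSupport (fun r : ℝ => v (r • (z : E n))) := by
    intro z
    exact hcs.comp_isClosedEmbedding (pf_nr_emb n z)
  have gD : ∀ (z : sphere (0 : E n) 1) (r : ℝ), deriv (fun r : ℝ => v (r • (z : E n))) r =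
      fderiv ℝ v (r • (z : E n)) (z : E n) := by
    intro z r
    have e1 : HasDerivAt (fun r : ℝ => r • (z : E n)) ((1 : ℝ) • (z : E n)) r :=
      (hasDerivAt_id r).smul_const _
    have e2 : HasFDerivAt v (fderiv ℝ v (r • (z : E n))) (r • (z : E n)) :=
      (hv.differentiable (by norm_num) _).hasFDerivAt
    have := e2.comp_hasDerivAt r e1
    rw [one_smul] at this
    exact this.deriv
  have key : ∀ z : sphere (0 : E n) 1, C * (Φ2 z - Φ3 z ^ 2 / v1) ≤ Φ1 z := by
    intro z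
    have hz : ‖(z : E n)‖ = 1 := by simp
    have := h2 n α hn hα _ (gC z) (gS z)
    rw [← q2 z, ← q3 z] at this
    refine this.trans ?_
    rw [q1 z]
    have cd : Continuous (deriv (fun r : ℝ => v (r • (z : E n)))) :=
      (gC z).continuous_deriv (by norm_num)
    have i1 : Integrable (fun r => W1 n α r * deriv (fun r : ℝ => v (r • (z : E n))) r ^ 2) := by
      apply Continuous.integrable_of_hasCompactSupport
      · exact (pf_nr_W1_cont n α).mul (cd.pow 2)
      · apply HasCompactSupport.mul_left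
        exact (gS z).deriv.comp_left (g := fun y : ℝ => y ^ 2) (by simp)
    have i2 : Integrable (fun r => W1 n α r * ‖fderiv ℝ v (r • (z : E n))‖ ^ 2) := by
      apply Continuous.integrable_of_hasCompactSupport
      · refine (pf_nr_W1_cont n α).mul (Continuous.pow (Continuous.norm ?_) 2)
        exact hfd.comp (by fun_prop)
      · apply HasCompactSupport.mul_left
        have h5 : HasCompactSupport (fun x => ‖fderiv ℝ v x‖ ^ 2) :=
          (hcs.fderiv (𝕜 := ℝ)).comp_left (g := fun y : E n →L[ℝ] ℝ => ‖y‖ ^ 2) (by simp)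
        exact h5.comp_isClosedEmbedding (pf_nr_emb n z)
    apply setIntegral_mono_on i1.integrableOn i2.integrableOn measurableSet_Ioi
    intro r hr
    apply mul_le_mul_of_nonneg_left _ (pf_nr_W1_nonneg n α (le_of_lt hr))
    rw [gD z r]
    have h6 : |fderiv ℝ v (r • (z : E n)) (z : E n)| ≤ ‖fderiv ℝ v (r • (z : E n))‖ := by
      have := (fderiv ℝ v (r • (z : E n))).le_opNorm (z : E n)
      rw [hz, mul_one] at this
      exact this
    rw [← sq_abs]
    exact pow_le_pow_left₀ (abs_nonneg _) h6 2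
  -- the means
  have hdiff : ∀ z z' : sphere (0 : E n) 1, |Φ3 z - Φ3 z'| ≤ δ * v1 := by
    intro z z'
    have ii : ∀ z : sphere (0 : E n) 1, Integrable (fun r => V1 n α r * v (r • (z : E n))) := by
      intro z
      apply Continuous.integrable_of_hasCompactSupport
      · exact (pf_nr_V1_cont n α).mul (gC z).continuous
      · exact HasCompactSupport.mul_left (gS z)
    rw [q3 z, q3 z', ← integral_sub (ii z).integrableOn (ii z').integrableOn, hv1,
      ← integral_const_mul, ← Real.norm_eq_abs]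
    apply norm_integral_le_of_norm_le (hVint.const_mul δ)
    filter_upwards [ae_restrict_mem measurableSet_Ioi] with r hr
    have hr0 : (0 : ℝ) < r := hr
    have hzz : ‖r • (z : E n)‖ = ‖r • (z' : E n)‖ := by
      have hz : ‖(z : E n)‖ = 1 := by simp
      have hz' : ‖(z' : E n)‖ = 1 := by simp
      rw [norm_smul, norm_smul, hz, hz']
    rw [← mul_sub, norm_mul, Real.norm_of_nonneg (pf_nr_V1_nonneg n α hr0.le), mul_comm δ]
    exact mul_le_mul_of_nonneg_left (hd _ _ hzz) (pf_nr_V1_nonneg n α hr0.le)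
  have hmean : ∫ z, Φ3 z ∂μ = 0 := by rw [← p3]; exact hint
  have hbd : ∀ z, |Φ3 z| ≤ δ * v1 := by
    intro z
    have e1 : ∫ z', (Φ3 z - Φ3 z') ∂μ = sig * Φ3 z := by
      rw [integral_sub (integrable_const _) (pf_nr_sph n p3c), hmean, sub_zero, integral_const,
        smul_eq_mul]
    have e2 : ‖∫ z', (Φ3 z - Φ3 z') ∂μ‖ ≤ (δ * v1) * sig := by
      apply norm_integral_le_of_norm_le_const
      filter_upwards with z'
      exact hdiff z z'
    rw [e1, norm_mul, Real.norm_of_nonneg hsig0.le, mul_comm (δ * v1)] at e2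
    exact le_of_mul_le_mul_left e2 hsig0
  have cΨ : Continuous (fun z : sphere (0 : E n) 1 => Φ3 z ^ 2 / v1) := (p3c.pow 2).div_const _
  have hsq : ∫ z, Φ3 z ^ 2 / v1 ∂μ ≤ sig * (δ ^ 2 * v1) := by
    have e1 : ∫ z, Φ3 z ^ 2 / v1 ∂μ ≤ ∫ _z : sphere (0 : E n) 1, δ ^ 2 * v1 ∂μ := by
      apply integral_mono (pf_nr_sph n cΨ) (integrable_const _)
      intro z
      simp only
      apply div_le_of_le_mul₀ hv10 (by positivity)
      have := hbd z
      rw [← sq_abs]
      calc |Φ3 z| ^ 2 ≤ (δ * v1) ^ 2 := pow_le_pow_left₀ (abs_nonneg _) this 2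
        _ = δ ^ 2 * v1 * v1 := by ring
    refine e1.trans ?_
    rw [integral_const, smul_eq_mul]
  have hfin : C * (ms n α v - ∫ z, Φ3 z ^ 2 / v1 ∂μ) ≤ en n α v := by
    have e1 : en n α v = ∫ z, Φ1 z ∂μ := p1
    have e2 : ms n α v = ∫ z, Φ2 z ∂μ := p2
    rw [e1, e2, ← integral_sub (pf_nr_sph n p2c) (pf_nr_sph n cΨ),
      ← integral_const_mul]
    apply integral_mono _ (pf_nr_sph n p1c)
    · exact key
    · exact pf_nr_sph n (continuous_const.mul (p2c.sub cΨ))
  have h7 := mul_le_mul_of_nonneg_left hsq hC0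
  nlinarith [h7, hfin]

end Pool.Agent.H34WH
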