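import Pool.Agent.H34WH.W0

set_option autoImplicit false

namespace Pool.Agent.H34WH

open MeasureTheory Set Filter Topology Metric
open scoped ContDiff

/- PLAIN PROOF.
Let t(x) = inner a x, s = 1+|x|^2, w = s^alpha, v = s^(alpha-1). For eps > 0 let F(x) = w(x) t/(t^2+eps^2) (smooth function). Pointwise
w |grad u|^2 >= 2 u (fderiv u x a) F - u^2 F^2 / w (from |fderiv u x a| <= norm(fderiv u x), since norm a = 1, and a square). Integrate and
integrate by parts in the direction a (integral_mul_fderiv_eq_neg_fderiv_mul_of_integrable; everything has compact support):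
integral 2 u (fderiv u x a) F = - integral u^2 (fderiv F x a), and fderiv F x a = 2 alpha t s^(alpha-1) * t/(t^2+eps^2) + w (eps^2 - t^2)/(t^2+eps^2)^2,
F^2/w = w t^2/(t^2+eps^2)^2. Hence en u >= -2 alpha integral v u^2 t^2/(t^2+eps^2) - integral w u^2 eps^2/(t^2+eps^2)^2.
Let eps -> 0 (eps = 1/(k+1)): the first integral tends to integral v u^2 (dominated convergence by v u^2; the points with t = 0 have u = 0 so
even pointwise convergence everywhere); the second tends to 0: u vanishes on t = 0 and is C^1 with compact support, so |u x| <= L |t| with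
L = sup norm(fderiv u) (compare x with x - t a, mean value inequality), thus w u^2 eps^2/(t^2+eps^2)^2 <= L^2 w t^2 eps^2/(t^2+eps^2)^2 <= L^2 w / 4
on the support of u, and it tends to 0 pointwise (for t = 0 it is 0 since u = 0). Dominated convergence.
-/

theorem pf_odd_p (ε : ℝ) (hε : 0 < ε) (τ : ℝ) :
    HasDerivAt (fun τ : ℝ => τ / (τ ^ 2 + ε ^ 2)) ((ε ^ 2 - τ ^ 2) / (τ ^ 2 + ε ^ 2) ^ 2) τ := by
  have h0 : τ ^ 2 + ε ^ 2 ≠ 0 := by positivity
  have h1 : HasDerivAt (fun τ : ℝ => τ ^ 2 + ε ^ 2) (2 * τ) τ := by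
    have h2 := (hasDerivAt_pow 2 τ).add_const (ε ^ 2)
    refine h2.congr_deriv ?_
    norm_num
  have h3 := (hasDerivAt_id τ).div h1 h0
  refine h3.congr_deriv ?_
  simp only [id]
  congr 1
  ring

theorem pf_odd_F {n : ℕ} (α : ℝ) (a : E n) (ha : ‖a‖ = 1) (ε : ℝ) (hε : 0 < ε) (x : E n) :
    ∃ L : E n →L[ℝ] ℝ,
      HasFDerivAt (fun x : E n => wt n α x * (inner ℝ a x / (inner ℝ a x ^ 2 + ε ^ 2))) L x ∧
      L a = 2 * α * (wt n (α - 1) x * inner ℝ a x) * (inner ℝ a x / (inner ℝ a x ^ 2 + ε ^ 2)) +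
        wt n α x * ((ε ^ 2 - inner ℝ a x ^ 2) / (inner ℝ a x ^ 2 + ε ^ 2) ^ 2) := by
  have ht : HasFDerivAt (fun x : E n => inner ℝ a x) (innerSL ℝ a) x := (innerSL ℝ a).hasFDerivAt
  have hφ := (pf_odd_p ε hε (inner ℝ a x)).comp_hasFDerivAt x ht
  have hs : HasFDerivAt (fun x : E n => 1 + ‖x‖ ^ 2) (2 • (innerSL ℝ x)) x :=
    (hasStrictFDerivAt_norm_sq x).hasFDerivAt.const_add 1
  have hs0 : (1 + ‖x‖ ^ 2) ≠ 0 := by positivity
  have hw := (Real.hasDerivAt_rpow_const (p := α) (Or.inl hs0)).comp_hasFDerivAt x hs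
  refine ⟨_, hw.mul hφ, ?_⟩
  have e1 : (innerSL ℝ a) a = 1 := by
    rw [innerSL_apply_apply, real_inner_self_eq_norm_sq, ha]
    norm_num
  have e2 : (innerSL ℝ x) a = inner ℝ a x := by
    rw [innerSL_apply_apply, real_inner_comm]
  simp only [_root_.add_apply, _root_.smul_apply, e1, e2, smul_eq_mul,
    nsmul_eq_mul, Function.comp, wt]
  push_cast
  ring

theorem pf_odd_wc {n : ℕ} (p : ℝ) : Continuous (wt n p) := by
  unfold wt
  refine Continuous.rpow_const (by fun_prop) fun x => Or.inl ?_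
  positivity

theorem pf_odd_wpos {n : ℕ} (p : ℝ) (x : E n) : 0 < wt n p x := by
  unfold wt
  positivity

theorem pf_odd_split {n : ℕ} (c : ℝ) (f1 f2 f3 f4 f5 : E n → ℝ) (i1 : Integrable f1)
    (i2 : Integrable f2) (i3 : Integrable f3) (i4 : Integrable f4) (i5 : Integrable f5) :
    ∫ x, (f1 x + c * f2 x + f3 x - (f4 x + f5 x)) =
      (∫ x, f1 x) + c * (∫ x, f2 x) + (∫ x, f3 x) - ((∫ x, f4 x) + ∫ x, f5 x) := by
  have h2 : Integrable fun x => c * f2 x := i2.const_mul c
  have h12 : Integrable fun x => f1 x + c * f2 x := i1.add h2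
  have h123 : Integrable fun x => f1 x + c * f2 x + f3 x := h12.add i3
  have h45 : Integrable fun x => f4 x + f5 x := i4.add i5
  rw [integral_sub h123 h45, integral_add h12 i3, integral_add i1 h2, integral_const_mul,
    integral_add i4 i5]

theorem pf_odd_key {n : ℕ} (α : ℝ) (a : E n) (ha : ‖a‖ = 1) (u : E n → ℝ)
    (hu : ContDiff ℝ 1 u) (hc : HasCompactSupport u) (ε : ℝ) (hε : 0 < ε) :
    -2 * α * (∫ x, wt n (α - 1) x * u x ^ 2 * (inner ℝ a x ^ 2 / (inner ℝ a x ^ 2 + ε ^ 2))) -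
      (∫ x, wt n α x * u x ^ 2 * (ε ^ 2 / (inner ℝ a x ^ 2 + ε ^ 2) ^ 2)) ≤ en n α u := by
  have hw := pf_odd_wc (n := n) α
  have hv := pf_odd_wc (n := n) (α - 1)
  have hden : ∀ x : E n, inner ℝ a x ^ 2 + ε ^ 2 ≠ 0 := fun x => by positivity
  have hden2 : ∀ x : E n, (inner ℝ a x ^ 2 + ε ^ 2) ^ 2 ≠ 0 := fun x => by positivity
  have ht : Continuous fun x : E n => (inner ℝ a x : ℝ) := by fun_prop
  have hφ : Continuous fun x : E n => (inner ℝ a x : ℝ) / (inner ℝ a x ^ 2 + ε ^ 2) :=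
    ht.div (by fun_prop) hden
  have huc := hu.continuous
  have hdc : Continuous fun x => fderiv ℝ u x a :=
    (hu.continuous_fderiv one_ne_zero).clm_apply continuous_const
  have hfd : Continuous fun x => ‖fderiv ℝ u x‖ := (hu.continuous_fderiv one_ne_zero).norm
  -- supports
  have hsu : ∀ g : E n → ℝ, Continuous g → Integrable fun x => g x * u x := fun g hg =>
    (hg.mul huc).integrable_of_hasCompactSupport hc.mul_left
  have hsu2 : ∀ g : E n → ℝ, Continuous g → Integrable fun x => g x * u x ^ 2 := fun g hg => by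
    have h1 := hsu (fun x => g x * u x) (hg.mul huc)
    refine h1.congr (Filter.Eventually.of_forall fun x => ?_)
    show g x * u x * u x = g x * u x ^ 2
    ring
  -- F
  obtain ⟨F, hF⟩ : ∃ F : E n → ℝ, F = fun x => wt n α x * (inner ℝ a x / (inner ℝ a x ^ 2 + ε ^ 2)) :=
    ⟨_, rfl⟩
  have hFc : Continuous F := by rw [hF]; exact hw.mul hφ
  have hFd : ∀ x, DifferentiableAt ℝ F x := by
    intro x
    obtain ⟨L, hL, -⟩ := pf_odd_F α a ha ε hε x
    rw [hF]
    exact hL.differentiableAt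
  have hFa : ∀ x, fderiv ℝ F x a = 2 * α * (wt n (α - 1) x * inner ℝ a x) *
      (inner ℝ a x / (inner ℝ a x ^ 2 + ε ^ 2)) +
        wt n α x * ((ε ^ 2 - inner ℝ a x ^ 2) / (inner ℝ a x ^ 2 + ε ^ 2) ^ 2) := by
    intro x
    obtain ⟨L, hL, hLa⟩ := pf_odd_F α a ha ε hε x
    rw [hF, hL.fderiv, hLa]
  have hFac : Continuous fun x => fderiv ℝ F x a := by
    simp only [hFa]
    refine ((continuous_const.mul (hv.mul ht)).mul hφ).add (hw.mul ?_)
    exact Continuous.div (by fun_prop) (by fun_prop) hden2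
  have hGd : ∀ x, HasFDerivAt (fun x => u x ^ 2) ((2 * u x) • fderiv ℝ u x) x := by
    intro x
    have h1 := (hu.differentiable one_ne_zero x).hasFDerivAt
    have h2 := (hasDerivAt_pow 2 (u x)).comp_hasFDerivAt x h1
    refine h2.congr_fderiv ?_
    congr 1
    norm_num
  have hGa : ∀ x, fderiv ℝ (fun x => u x ^ 2) x a = 2 * u x * fderiv ℝ u x a := by
    intro x
    rw [(hGd x).fderiv, _root_.smul_apply, smul_eq_mul]
  have hibp := integral_mul_fderiv_eq_neg_fderiv_mul_of_integrable (μ := volume) (f := F)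
    (g := fun x => u x ^ 2) (v := a) (hsu2 _ hFac)
    (by
      have h1 := hsu (fun x => F x * (2 * fderiv ℝ u x a)) (hFc.mul (continuous_const.mul hdc))
      refine h1.congr (Filter.Eventually.of_forall fun x => ?_)
      show F x * (2 * fderiv ℝ u x a) * u x = F x * fderiv ℝ (fun x => u x ^ 2) x a
      rw [hGa]
      ring)
    (hsu2 _ hFc) (fun x _ => hFd x) (fun x _ => (hGd x).differentiableAt)
  -- the four integrals
  have i1 : Integrable fun x => wt n α x * ‖fderiv ℝ u x‖ ^ 2 := by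
    refine (hw.mul (hfd.pow 2)).integrable_of_hasCompactSupport ?_
    have h1 : HasCompactSupport (fun x => ‖fderiv ℝ u x‖ ^ 2) := by
      have h2 := (hc.fderiv ℝ).norm
      exact h2.comp_left (g := fun y : ℝ => y ^ 2) (by norm_num)
    exact h1.mul_left
  have i2 : Integrable fun x => wt n (α - 1) x * u x ^ 2 *
      (inner ℝ a x ^ 2 / (inner ℝ a x ^ 2 + ε ^ 2)) := by
    have h1 := hsu2 (fun x => wt n (α - 1) x * (inner ℝ a x ^ 2 / (inner ℝ a x ^ 2 + ε ^ 2)))
      (hv.mul (Continuous.div (by fun_prop) (by fun_prop) hden))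
    refine h1.congr (Filter.Eventually.of_forall fun x => ?_)
    show wt n (α - 1) x * (inner ℝ a x ^ 2 / (inner ℝ a x ^ 2 + ε ^ 2)) * u x ^ 2 = _
    ring
  have i3 : Integrable fun x => wt n α x * u x ^ 2 *
      (ε ^ 2 / (inner ℝ a x ^ 2 + ε ^ 2) ^ 2) := by
    have h1 := hsu2 (fun x => wt n α x * (ε ^ 2 / (inner ℝ a x ^ 2 + ε ^ 2) ^ 2))
      (hw.mul (Continuous.div (by fun_prop) (by fun_prop) hden2))
    refine h1.congr (Filter.Eventually.of_forall fun x => ?_)
    show wt n α x * (ε ^ 2 / (inner ℝ a x ^ 2 + ε ^ 2) ^ 2) * u x ^ 2 = _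
    ring
  have i4 : Integrable fun x => F x * fderiv ℝ (fun x => u x ^ 2) x a := by
    have h1 := hsu (fun x => F x * (2 * fderiv ℝ u x a)) (hFc.mul (continuous_const.mul hdc))
    refine h1.congr (Filter.Eventually.of_forall fun x => ?_)
    show F x * (2 * fderiv ℝ u x a) * u x = F x * fderiv ℝ (fun x => u x ^ 2) x a
    rw [hGa]
    ring
  have i5 : Integrable fun x => fderiv ℝ F x a * u x ^ 2 := hsu2 _ hFac
  have hsum : 0 ≤ ∫ x, (wt n α x * ‖fderiv ℝ u x‖ ^ 2 +
      2 * α * (wt n (α - 1) x * u x ^ 2 * (inner ℝ a x ^ 2 / (inner ℝ a x ^ 2 + ε ^ 2))) +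
      wt n α x * u x ^ 2 * (ε ^ 2 / (inner ℝ a x ^ 2 + ε ^ 2) ^ 2) -
      (F x * fderiv ℝ (fun x => u x ^ 2) x a + fderiv ℝ F x a * u x ^ 2)) := by
    refine integral_nonneg fun x => ?_
    show 0 ≤ wt n α x * ‖fderiv ℝ u x‖ ^ 2 +
      2 * α * (wt n (α - 1) x * u x ^ 2 * (inner ℝ a x ^ 2 / (inner ℝ a x ^ 2 + ε ^ 2))) +
      wt n α x * u x ^ 2 * (ε ^ 2 / (inner ℝ a x ^ 2 + ε ^ 2) ^ 2) -
      (F x * fderiv ℝ (fun x => u x ^ 2) x a + fderiv ℝ F x a * u x ^ 2)
    have hd : (fderiv ℝ u x a) ^ 2 ≤ ‖fderiv ℝ u x‖ ^ 2 := by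
      have h1 := (fderiv ℝ u x).le_opNorm a
      rw [ha, mul_one, Real.norm_eq_abs] at h1
      rw [← sq_abs (fderiv ℝ u x a)]
      exact pow_le_pow_left₀ (abs_nonneg _) h1 2
    have hwp := pf_odd_wpos (n := n) α x
    have hmul := mul_le_mul_of_nonneg_left hd hwp.le
    rw [hGa, hFa, hF]
    have hD := hden x
    have hident : wt n α x * (fderiv ℝ u x a) ^ 2 +
        2 * α * (wt n (α - 1) x * u x ^ 2 * (inner ℝ a x ^ 2 / (inner ℝ a x ^ 2 + ε ^ 2))) +
        wt n α x * u x ^ 2 * (ε ^ 2 / (inner ℝ a x ^ 2 + ε ^ 2) ^ 2) -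
        (wt n α x * (inner ℝ a x / (inner ℝ a x ^ 2 + ε ^ 2)) * (2 * u x * fderiv ℝ u x a) +
          (2 * α * (wt n (α - 1) x * inner ℝ a x) * (inner ℝ a x / (inner ℝ a x ^ 2 + ε ^ 2)) +
            wt n α x * ((ε ^ 2 - inner ℝ a x ^ 2) / (inner ℝ a x ^ 2 + ε ^ 2) ^ 2)) * u x ^ 2) =
        wt n α x * (fderiv ℝ u x a - inner ℝ a x / (inner ℝ a x ^ 2 + ε ^ 2) * u x) ^ 2 := by
      field_simp
      ring
    have hsq : 0 ≤ wt n α x *
        (fderiv ℝ u x a - inner ℝ a x / (inner ℝ a x ^ 2 + ε ^ 2) * u x) ^ 2 := by positivity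
    show 0 ≤ wt n α x * ‖fderiv ℝ u x‖ ^ 2 +
        2 * α * (wt n (α - 1) x * u x ^ 2 * (inner ℝ a x ^ 2 / (inner ℝ a x ^ 2 + ε ^ 2))) +
        wt n α x * u x ^ 2 * (ε ^ 2 / (inner ℝ a x ^ 2 + ε ^ 2) ^ 2) -
        (wt n α x * (inner ℝ a x / (inner ℝ a x ^ 2 + ε ^ 2)) * (2 * u x * fderiv ℝ u x a) +
          (2 * α * (wt n (α - 1) x * inner ℝ a x) * (inner ℝ a x / (inner ℝ a x ^ 2 + ε ^ 2)) +
            wt n α x * ((ε ^ 2 - inner ℝ a x ^ 2) / (inner ℝ a x ^ 2 + ε ^ 2) ^ 2)) * u x ^ 2)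
    linarith
  rw [pf_odd_split (2 * α) _ _ _ _ _ i1 i2 i3 i4 i5, hibp] at hsum
  unfold en
  linarith

theorem pf_odd : S_odd := by
  intro n α hα a ha u hu hc h0
  have hw := pf_odd_wc (n := n) α
  have hv := pf_odd_wc (n := n) (α - 1)
  have huc := hu.continuous
  have ht : Continuous fun x : E n => (inner ℝ a x : ℝ) := by fun_prop
  obtain ⟨C, hC⟩ := hu.lipschitzWith_of_hasCompactSupport hc one_ne_zero
  have hlip : ∀ x, |u x| ≤ C * |inner ℝ a x| := by
    intro x
    have h1 : u (x - (inner ℝ a x : ℝ) • a) = 0 := by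
      apply h0
      rw [inner_sub_right, inner_smul_right, real_inner_self_eq_norm_sq, ha]
      ring
    have h2 := hC.dist_le_mul x (x - (inner ℝ a x : ℝ) • a)
    rw [h1, Real.dist_eq, sub_zero, dist_eq_norm, sub_sub_cancel, norm_smul, ha, mul_one,
      Real.norm_eq_abs] at h2
    exact h2
  have hε : ∀ k : ℕ, (0 : ℝ) < 1 / ((k : ℝ) + 1) := fun k => by positivity
  have hlimε : Tendsto (fun k : ℕ => (1 : ℝ) / ((k : ℝ) + 1)) atTop (𝓝 0) :=
    tendsto_one_div_add_atTop_nhds_zero_nat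
  have hA : Tendsto (fun k : ℕ => ∫ x, wt n (α - 1) x * u x ^ 2 *
      (inner ℝ a x ^ 2 / (inner ℝ a x ^ 2 + (1 / ((k : ℝ) + 1)) ^ 2))) atTop
      (𝓝 (∫ x, wt n (α - 1) x * u x ^ 2)) := by
    refine tendsto_integral_of_dominated_convergence (fun x => wt n (α - 1) x * u x ^ 2) ?_ ?_ ?_ ?_
    · intro k
      have h1 := hε k
      refine Continuous.aestronglyMeasurable ?_
      refine (hv.mul (huc.pow 2)).mul (Continuous.div (by fun_prop) (by fun_prop) fun x => ?_)
      positivity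
    · refine (hv.mul (huc.pow 2)).integrable_of_hasCompactSupport ?_
      have h2 : HasCompactSupport (fun x => u x ^ 2) := by
        exact hc.comp_left (g := fun y : ℝ => y ^ 2) (by norm_num)
      exact h2.mul_left
    · intro k
      refine Filter.Eventually.of_forall fun x => ?_
      have h1 := hε k
      have h2 := pf_odd_wpos (n := n) (α - 1) x
      rw [Real.norm_eq_abs, abs_of_nonneg (by positivity)]
      refine mul_le_of_le_one_right (by positivity) ?_
      rw [div_le_one (by positivity)]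
      have := sq_nonneg (1 / ((k : ℝ) + 1))
      linarith
    · refine Filter.Eventually.of_forall fun x => ?_
      by_cases hx : (inner ℝ a x : ℝ) = 0
      · rw [h0 x hx]
        simp
      · have h1 : Tendsto (fun k : ℕ => wt n (α - 1) x * u x ^ 2 *
            (inner ℝ a x ^ 2 / (inner ℝ a x ^ 2 + (1 / ((k : ℝ) + 1)) ^ 2))) atTop
            (𝓝 (wt n (α - 1) x * u x ^ 2 * (inner ℝ a x ^ 2 / (inner ℝ a x ^ 2 + 0 ^ 2)))) := by
          refine tendsto_const_nhds.mul (tendsto_const_nhds.div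
            (tendsto_const_nhds.add (hlimε.pow 2)) ?_)
          positivity
        have h2 : inner ℝ a x ^ 2 / (inner ℝ a x ^ 2 + 0 ^ 2) = (1 : ℝ) := by
          rw [zero_pow two_ne_zero, add_zero, div_self (by positivity)]
        rw [h2, mul_one] at h1
        exact h1
  have hB : Tendsto (fun k : ℕ => ∫ x, wt n α x * u x ^ 2 *
      ((1 / ((k : ℝ) + 1)) ^ 2 / (inner ℝ a x ^ 2 + (1 / ((k : ℝ) + 1)) ^ 2) ^ 2)) atTop
      (𝓝 (∫ x : E n, (0 : ℝ))) := by
    refine tendsto_integral_of_dominated_convergence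
      (Set.indicator (tsupport u) (fun x => wt n α x * (C : ℝ) ^ 2)) ?_ ?_ ?_ ?_
    · intro k
      have h1 := hε k
      refine Continuous.aestronglyMeasurable ?_
      refine (hw.mul (huc.pow 2)).mul (Continuous.div (by fun_prop) (by fun_prop) fun x => ?_)
      positivity
    · rw [integrable_indicator_iff (isClosed_tsupport u).measurableSet]
      exact (hw.mul continuous_const).continuousOn.integrableOn_compact hc
    · intro k
      refine Filter.Eventually.of_forall fun x => ?_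
      have h1 := hε k
      have h2 := pf_odd_wpos (n := n) α x
      by_cases hx : x ∈ tsupport u
      · rw [Set.indicator_of_mem hx, Real.norm_eq_abs, abs_of_nonneg (by positivity), mul_assoc]
        refine mul_le_mul_of_nonneg_left ?_ h2.le
        obtain ⟨ε, hεk⟩ : ∃ ε : ℝ, ε = 1 / ((k : ℝ) + 1) := ⟨_, rfl⟩
        obtain ⟨τ, hτ⟩ : ∃ τ : ℝ, τ = inner ℝ a x := ⟨_, rfl⟩
        have h3 := hlip x
        rw [← hεk] at h1 ⊢
        rw [← hτ] at h3 ⊢
        have h4 : u x ^ 2 ≤ (C : ℝ) ^ 2 * τ ^ 2 := by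
          rw [← sq_abs (u x), ← sq_abs τ, ← mul_pow]
          exact pow_le_pow_left₀ (abs_nonneg _) h3 2
        have h5 : (0 : ℝ) ≤ ε ^ 2 / (τ ^ 2 + ε ^ 2) ^ 2 := by positivity
        refine (mul_le_mul_of_nonneg_right h4 h5).trans ?_
        rw [mul_assoc]
        refine mul_le_of_le_one_right (by positivity) ?_
        rw [← mul_div_assoc, div_le_one (by positivity)]
        nlinarith [sq_nonneg (τ ^ 2), sq_nonneg (ε ^ 2), mul_nonneg (sq_nonneg τ) (sq_nonneg ε)]
      · rw [Set.indicator_of_notMem hx, image_eq_zero_of_notMem_tsupport hx]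
        simp
    · refine Filter.Eventually.of_forall fun x => ?_
      by_cases hx : (inner ℝ a x : ℝ) = 0
      · rw [h0 x hx]
        simp
      · have h1 : Tendsto (fun k : ℕ => wt n α x * u x ^ 2 *
            ((1 / ((k : ℝ) + 1)) ^ 2 / (inner ℝ a x ^ 2 + (1 / ((k : ℝ) + 1)) ^ 2) ^ 2)) atTop
            (𝓝 (wt n α x * u x ^ 2 * (0 ^ 2 / (inner ℝ a x ^ 2 + 0 ^ 2) ^ 2))) := by
          refine tendsto_const_nhds.mul ((hlimε.pow 2).div
            ((tendsto_const_nhds.add (hlimε.pow 2)).pow 2) ?_)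
          positivity
        have h2 : (0 : ℝ) ^ 2 / (inner ℝ a x ^ 2 + 0 ^ 2) ^ 2 = 0 := by
          rw [zero_pow two_ne_zero, zero_div]
        rw [h2, mul_zero] at h1
        exact h1
  have hlim := (hA.const_mul (-2 * α)).sub hB
  have hle := le_of_tendsto' hlim (fun k => pf_odd_key α a ha u hu hc _ (hε k))
  rw [integral_zero, sub_zero] at hle
  exact hle

end Pool.Agent.H34WH
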