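import Pool.Agent.H34WH.W0

set_option autoImplicit false

namespace Pool.Agent.H34WH

open MeasureTheory Set Filter Topology Metric
open scoped ContDiff

theorem pf_pol_cont (n : ℕ) (f : E n → ℝ) (hf : Continuous f) (hcs : HasCompactSupport f) :
    Continuous (fun z : sphere (0 : E n) 1 =>
      ∫ r in Ioi (0 : ℝ), r ^ (n - 1) * f (r • (z : E n))) := by
  obtain ⟨M, hM⟩ := hf.bounded_above_of_compact_support hcs
  obtain ⟨R, hR⟩ := (show IsCompact (tsupport f) from hcs).isBounded.subset_closedBall 0
  have hM0 : 0 ≤ M := (norm_nonneg _).trans (hM 0)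
  refine continuous_of_dominated (μ := volume.restrict (Ioi (0 : ℝ)))
    (F := fun (z : sphere (0 : E n) 1) (r : ℝ) => r ^ (n - 1) * f (r • (z : E n)))
    (bound := (Ioc (0 : ℝ) R).indicator (fun _ => M * R ^ (n - 1))) ?_ ?_ ?_ ?_
  · intro z
    refine Continuous.aestronglyMeasurable ?_
    exact (continuous_id.pow _).mul (hf.comp (continuous_id.smul continuous_const))
  · intro z
    filter_upwards [ae_restrict_mem measurableSet_Ioi] with r hr
    have hr0 : (0 : ℝ) < r := hr
    by_cases hrR : r ≤ R
    · rw [indicator_of_mem (show r ∈ Ioc (0 : ℝ) R from ⟨hr0, hrR⟩), norm_mul]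
      have h1 : ‖r ^ (n - 1)‖ ≤ R ^ (n - 1) := by
        rw [norm_pow, Real.norm_eq_abs, abs_of_pos hr0]
        exact pow_le_pow_left₀ hr0.le hrR _
      calc ‖r ^ (n - 1)‖ * ‖f (r • (z : E n))‖ ≤ R ^ (n - 1) * M := by
            apply mul_le_mul h1 (hM _) (norm_nonneg _)
            exact (norm_nonneg _).trans h1
        _ = M * R ^ (n - 1) := mul_comm _ _
    · rw [indicator_of_notMem (fun h : r ∈ Ioc (0 : ℝ) R => hrR h.2)]
      have hz : ‖(z : E n)‖ = 1 := by simp
      have h0 : f (r • (z : E n)) = 0 := by
        by_contra hne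
        have h1 : r • (z : E n) ∈ closedBall (0 : E n) R :=
          hR (subset_tsupport _ (Function.mem_support.2 hne))
        rw [mem_closedBall_zero_iff, norm_smul, hz, mul_one, Real.norm_eq_abs,
          abs_of_pos hr0] at h1
        exact hrR h1
      rw [h0, mul_zero, norm_zero]
  · rw [integrable_indicator_iff measurableSet_Ioc]
    refine integrableOn_const (hs := ?_) (hC := enorm_ne_top)
    refine ((Measure.restrict_le_self _).trans_lt ?_).ne
    simp
  · filter_upwards with r
    have h1 : Continuous fun z : sphere (0 : E n) 1 => r • (z : E n) :=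
      continuous_subtype_val.const_smul r
    exact continuous_const.mul (hf.comp h1)

theorem pf_pol : S_pol := by
  intro n f hn hf hcs
  refine ⟨pf_pol_cont n f hf hcs, ?_⟩
  have hfin : Module.finrank ℝ (E n) = n := finrank_euclideanSpace_fin
  have hnt : Nontrivial (E n) := by
    apply Module.nontrivial_of_finrank_pos (R := ℝ)
    rw [hfin]; omega
  have hint : Integrable f := hf.integrable_of_hasCompactSupport hcs
  set g : sphere (0 : E n) 1 × Ioi (0 : ℝ) → ℝ := fun y => f ((y.2 : ℝ) • (y.1 : E n)) with hg
  have hcomp : ∀ x : ({(0 : E n)}ᶜ : Set (E n)), g (homeomorphUnitSphereProd (E n) x) = f x := by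
    intro x
    have hx : ‖(x : E n)‖ ≠ 0 := norm_ne_zero_iff.2 x.2
    simp only [hg, homeomorphUnitSphereProd_apply_snd_coe, homeomorphUnitSphereProd_apply_fst_coe]
    rw [smul_smul, mul_inv_cancel₀ hx, one_smul]
  have hmp := (volume : Measure (E n)).measurePreserving_homeomorphUnitSphereProd
  rw [hfin] at hmp
  have hemb : MeasurableEmbedding (homeomorphUnitSphereProd (E n)) :=
    Homeomorph.measurableEmbedding _
  have hgint : Integrable g ((volume : Measure (E n)).toSphere.prod
      (Measure.volumeIoiPow (n - 1))) := by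
    rw [← hmp.integrable_comp_emb hemb]
    have h1 : (g ∘ homeomorphUnitSphereProd (E n)) = fun x : ({(0 : E n)}ᶜ : Set (E n)) => f (x : E n) := by
      funext x
      exact hcomp x
    rw [h1]
    have h2 : IntegrableOn f ({(0 : E n)}ᶜ : Set (E n)) := hint.integrableOn
    rw [integrableOn_iff_comap_subtypeVal (measurableSet_singleton _).compl] at h2
    exact h2
  have hstep1 : ∫ x, f x = ∫ y, g y ∂((volume : Measure (E n)).toSphere.prod
      (Measure.volumeIoiPow (n - 1))) := by
    rw [← hmp.integral_comp hemb g]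
    have h1 : ∫ x, f x = ∫ x : ({(0 : E n)}ᶜ : Set (E n)), f x.1
        ∂((volume : Measure (E n)).comap (↑)) := by
      rw [integral_subtype_comap (measurableSet_singleton _).compl f, restrict_compl_singleton]
    rw [h1]
    exact integral_congr_ae (Eventually.of_forall fun x => (hcomp x).symm)
  rw [hstep1, integral_prod g hgint]
  refine integral_congr_ae (Eventually.of_forall fun z => ?_)
  change ∫ r : Ioi (0 : ℝ), f ((r : ℝ) • (z : E n)) ∂(Measure.volumeIoiPow (n - 1)) = _
  simp only [Measure.volumeIoiPow, ENNReal.ofReal]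
  rw [integral_withDensity_eq_integral_smul,
    integral_subtype_comap measurableSet_Ioi
      fun a : ℝ => Real.toNNReal (a ^ (n - 1)) • f (a • (z : E n)),
    setIntegral_congr_fun measurableSet_Ioi fun x hx => ?_]
  · rw [NNReal.smul_def, Real.coe_toNNReal _ (pow_nonneg hx.out.le _), smul_eq_mul]
  · exact (measurable_subtype_coe.pow_const _).real_toNNReal

end Pool.Agent.H34WH
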