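import Pool.Agent.H34WH.W0

set_option autoImplicit false

namespace Pool.Agent.H34WH

open MeasureTheory Set Filter Topology Metric
open scoped ContDiff

theorem pf_top_ms_pos (n : ℕ) (α : ℝ) (u : E n → ℝ) (hu : Continuous u) (hc : HasCompactSupport u)
    (hne : u ≠ 0) : 0 < ms n α u := by
  obtain ⟨x, hx⟩ := Function.ne_iff.1 hne
  have hw : Continuous (wt n (α - 1)) := by
    unfold wt
    refine Continuous.rpow_const (by fun_prop) (fun x => Or.inl ?_)
    positivity
  have hwpos : ∀ x, 0 < wt n (α - 1) x := by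
    intro x
    unfold wt
    exact Real.rpow_pos_of_pos (by positivity) _
  unfold ms
  refine Continuous.integral_pos_of_hasCompactSupport_nonneg_nonzero (x := x) ?_ ?_ ?_ ?_
  · exact hw.mul (hu.pow 2)
  · have h1 : HasCompactSupport (fun x => u x ^ 2) :=
      hc.comp_left (g := fun t : ℝ => t ^ 2) (by norm_num)
    exact h1.mul_left
  · intro y
    exact mul_nonneg (hwpos y).le (sq_nonneg _)
  · exact (mul_pos (hwpos x) (by
      have : u x ≠ 0 := by simpa using hx
      positivity)).ne'

theorem pf_top_up (h3 : S_u1) (h4 : S_u2) (h5 : S_u3) (h6 : S_u4) (h7 : S_u5)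
    (n : ℕ) (α : ℝ) (hn : 2 ≤ n) (c : ℝ) (hc : Cst n α < c) :
    ∃ u, Adm n α u ∧ en n α u < c * ms n α u := by
  have hn' : (2 : ℝ) ≤ n := by exact_mod_cast hn
  unfold Cst at hc
  split_ifs at hc with c1 c2 c3
  · exact h7 n α hn c1 c hc
  · rcases lt_or_eq_of_le c2 with h | h
    · exact h6 n α hn h c hc
    · refine h5 n α hn (by rw [h]; linarith) h.ge c ?_
      rw [h] at hc ⊢
      nlinarith
  · push Not at c2
    rcases lt_or_ge α (-((n : ℝ) - 2) / 2) with h | h
    · exact h5 n α hn h c2.le c hc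
    · exact h4 n α hn h c hc
  · push Not at c3
    exact h3 n α hn c3 c hc

theorem pf_top (h1 : S_low1) (h2 : S_low2) (h3 : S_u1) (h4 : S_u2) (h5 : S_u3) (h6 : S_u4) (h7 : S_u5) : S_top := by
  intro n α hn
  constructor
  · rintro c ⟨u, hu, rfl⟩
    obtain ⟨hs, hcs, hne, hort⟩ := hu
    have hs1 : ContDiff ℝ 1 u := hs.of_le (by exact_mod_cast le_top)
    have hpos := pf_top_ms_pos n α u hs1.continuous hcs hne
    rw [le_div_iff₀ hpos]
    rcases lt_trichotomy α (-((n : ℝ) - 2) / 2) with h | h | h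
    · exact h2 n α hn h u hs1 hcs (hort h)
    · have hn' : (2 : ℝ) ≤ n := by exact_mod_cast hn
      have e1 : Cst n α = 0 := by
        unfold Cst
        rw [if_neg (by linarith), if_neg (by linarith), if_pos (by linarith), h]
        ring
      rw [e1, zero_mul]
      unfold en
      refine integral_nonneg fun x => mul_nonneg ?_ (sq_nonneg _)
      unfold wt
      positivity
    · exact h1 n α hn h u hs1 hcs
  · intro b hb
    by_contra hlt
    push Not at hlt
    obtain ⟨c, hc1, hc2⟩ := exists_between hlt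
    obtain ⟨u, hu, hlt2⟩ := pf_top_up h3 h4 h5 h6 h7 n α hn c hc1
    have hpos := pf_top_ms_pos n α u hu.1.continuous hu.2.1 hu.2.2.1
    have h := hb ⟨u, hu, rfl⟩
    have h' : en n α u / ms n α u < c := by
      rw [div_lt_iff₀ hpos]
      exact hlt2
    linarith

end Pool.Agent.H34WH
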