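import Pool.Agent.H34WH.W0

set_option autoImplicit false

namespace Pool.Agent.H34WH

open MeasureTheory Set Filter Topology Metric
open scoped ContDiff

/- PLAIN PROOF.
b0 = (n+2 alpha-2)/4 < 0 and b0 >= -1. For b in (b0,0) let f = s^(-b) - kap, s = 1+norm x^2, kap = Ip(alpha-1-b)/Ip(alpha-1). Then integral v f = 0, f is smooth, en f <= 4 b^2 Ip(alpha-1-2b)
(norm(fderiv f x) = 2|b| s^(-b-1) norm x, norm x^2 <= s), ms f = Ip(alpha-1-2b) - Ip(alpha-1-b)^2/Ip(alpha-1). All exponents are < -n/2: alpha-1-2b < -n/2 iff b > b0; alpha-1-b < alpha-1-b0 =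
(2 alpha-n-2)/4 < -n/2; alpha - 1 < -n/2. As s >= 1, Ip is monotone in the exponent: Ip(alpha-1-b) <= B0 := Ip((2 alpha-n-2)/4). And A(b) := Ip(alpha-1-2b) -> infinity as b decreases to b0: with
p = alpha-1-2b = -n/2 - e, e = 2(b-b0) in (0,1], S_Ip gives Ip(p) = 2p Ip(p-1)/(n+2p) = (n+2e) Ip(p-1)/(2e) >= n Ip(-n/2-2)/(2e). Hence en f / ms f <= 4 b^2 A/(A - B0^2/Ip(alpha-1)) -> 4 b0^2 =
(n+2 alpha-2)^2/4 < c. So for b close to b0: en f < c ms f and ms f > 0. Apply S_cut.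
-/

theorem pf_u3_one_le {n : ℕ} (x : E n) : (1 : ℝ) ≤ 1 + ‖x‖ ^ 2 := by
  have := sq_nonneg ‖x‖
  linarith

theorem pf_u3_pos {n : ℕ} (x : E n) : (0 : ℝ) < 1 + ‖x‖ ^ 2 := by
  have := pf_u3_one_le x
  linarith

theorem pf_u3_wt_pos (n : ℕ) (p : ℝ) (x : E n) : 0 < wt n p x :=
  Real.rpow_pos_of_pos (pf_u3_pos x) _

theorem pf_u3_wt_mul (n : ℕ) (p q : ℝ) (x : E n) : wt n p x * wt n q x = wt n (p + q) x := by
  unfold wt
  rw [← Real.rpow_add (pf_u3_pos x)]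

theorem pf_u3_wt_mono (n : ℕ) {p q : ℝ} (h : p ≤ q) (x : E n) : wt n p x ≤ wt n q x := by
  unfold wt
  exact Real.rpow_le_rpow_of_exponent_le (pf_u3_one_le x) h

theorem pf_u3_wt_contDiff (n : ℕ) (p : ℝ) : ContDiff ℝ ∞ (wt n p) := by
  unfold wt
  have h1 : ContDiff ℝ ∞ (fun x : E n => 1 + ‖x‖ ^ 2) := contDiff_const.add (contDiff_norm_sq ℝ)
  exact h1.rpow_const_of_ne (fun x => (pf_u3_pos x).ne')

theorem pf_u3_wt_cont (n : ℕ) (p : ℝ) : Continuous (wt n p) := (pf_u3_wt_contDiff n p).continuous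

theorem pf_u3_fderiv (n : ℕ) (p k : ℝ) (x : E n) :
    HasFDerivAt (fun x : E n => wt n p x - k) ((p * wt n (p - 1) x) • (2 • innerSL ℝ x)) x := by
  have h0 : HasFDerivAt (fun x : E n => ‖x‖ ^ 2) (2 • innerSL ℝ x) x :=
    (hasStrictFDerivAt_norm_sq x).hasFDerivAt
  have h1 : HasFDerivAt (fun x : E n => 1 + ‖x‖ ^ 2) (2 • innerSL ℝ x) x := h0.const_add 1
  have h2 := h1.rpow_const (p := p) (Or.inl (pf_u3_pos x).ne')
  exact h2.sub_const k

theorem pf_u3_norm_fderiv (n : ℕ) (p k : ℝ) (x : E n) :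
    ‖fderiv ℝ (fun x : E n => wt n p x - k) x‖ ^ 2 =
      4 * p ^ 2 * wt n (2 * p - 2) x * ‖x‖ ^ 2 := by
  rw [(pf_u3_fderiv n p k x).fderiv]
  have h1 : ‖(p * wt n (p - 1) x) • ((2 : ℕ) • innerSL ℝ x)‖ =
      |p * wt n (p - 1) x| * (2 * ‖x‖) := by
    rw [norm_smul, Real.norm_eq_abs]
    congr 1
    rw [← Nat.cast_smul_eq_nsmul ℝ 2 (innerSL ℝ x), norm_smul, innerSL_apply_norm]
    norm_num
  rw [h1, mul_pow, sq_abs]
  have h2 : wt n (p - 1) x ^ 2 = wt n (2 * p - 2) x := by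
    rw [sq, pf_u3_wt_mul]
    congr 1
    ring
  rw [mul_pow, h2]
  ring

theorem pf_u3_Ip_mono (h1 : S_Ip) {n : ℕ} (hn : 1 ≤ n) {p q : ℝ} (hpq : p ≤ q)
    (hq : q < -(n : ℝ) / 2) : Ip n p ≤ Ip n q := by
  unfold Ip
  exact integral_mono (h1 n p hn (lt_of_le_of_lt hpq hq)).1 (h1 n q hn hq).1
    (fun x => pf_u3_wt_mono n hpq x)


theorem pf_u3 (h1 : S_Ip) (h2 : S_cut) : S_u3 := by
  intro n α hn hα hα2 c hc
  have hn1 : 1 ≤ n := by omega
  have hnR : (2 : ℝ) ≤ (n : ℝ) := by exact_mod_cast hn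
  obtain ⟨b0, hb0⟩ : ∃ b0 : ℝ, b0 = ((n : ℝ) + 2 * α - 2) / 4 := ⟨_, rfl⟩
  have hb0neg : b0 < 0 := by rw [hb0]; linarith
  have hc' : 4 * b0 ^ 2 < c := by
    have : 4 * b0 ^ 2 = ((n : ℝ) + 2 * α - 2) ^ 2 / 4 := by rw [hb0]; ring
    linarith
  have hc0 : 0 < c := lt_of_le_of_lt (by positivity) hc'
  -- exponents
  have hv : α - 1 < -(n : ℝ) / 2 := by linarith
  have hB : α - 1 - b0 < -(n : ℝ) / 2 := by rw [hb0]; linarith
  obtain ⟨iV, V, -⟩ := h1 n (α - 1) hn1 hv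
  have pB := (h1 n (α - 1 - b0) hn1 hB).2.1
  obtain ⟨-, pC, -⟩ := h1 n (-(n : ℝ) / 2 - 2) hn1 (by linarith)
  set Vv := Ip n (α - 1) with hVv
  set B0 := Ip n (α - 1 - b0) with hB0
  set C0 := Ip n (-(n : ℝ) / 2 - 2) with hC0
  obtain ⟨D, hD⟩ : ∃ D : ℝ, D = B0 ^ 2 / Vv := ⟨_, rfl⟩
  have hD0 : 0 ≤ D := by rw [hD]; positivity
  obtain ⟨M, hM⟩ : ∃ M : ℝ, M = c * D / (c - 4 * b0 ^ 2) := ⟨_, rfl⟩
  have hcc : 0 < c - 4 * b0 ^ 2 := by linarith
  have hM0 : 0 ≤ M := by rw [hM]; positivity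
  have hMe : M * (c - 4 * b0 ^ 2) = c * D := by rw [hM]; field_simp
  -- choice of e
  obtain ⟨e, he⟩ : ∃ e : ℝ, e = min 1 (min (-b0) ((n : ℝ) * C0 / (2 * (M + 1)))) := ⟨_, rfl⟩
  have hnC : 0 < (n : ℝ) * C0 := by positivity
  have he0 : 0 < e := by
    rw [he]
    exact lt_min one_pos (lt_min (by linarith) (by positivity))
  have he1 : e ≤ 1 := by rw [he]; exact min_le_left _ _
  have he2 : e ≤ -b0 := by
    rw [he]; exact le_trans (min_le_right _ _) (min_le_left _ _)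
  have he3 : e ≤ (n : ℝ) * C0 / (2 * (M + 1)) := by
    rw [he]; exact le_trans (min_le_right _ _) (min_le_right _ _)
  have he4 : 2 * e * (M + 1) ≤ (n : ℝ) * C0 := by
    rw [le_div_iff₀ (by positivity)] at he3
    linarith
  obtain ⟨b, hb⟩ : ∃ b : ℝ, b = b0 + e / 2 := ⟨_, rfl⟩
  have hbneg : b < 0 := by rw [hb]; linarith
  have hbb0 : b0 < b := by rw [hb]; linarith
  have hbsq : b ^ 2 ≤ b0 ^ 2 := by nlinarith
  -- integrals
  have hA' : α - 1 - 2 * b < -(n : ℝ) / 2 := by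
    have : α - 1 - 2 * b0 = -(n : ℝ) / 2 := by rw [hb0]; ring
    linarith
  have hBb' : α - 1 - b < -(n : ℝ) / 2 := by linarith
  obtain ⟨iA, pA, eA⟩ := h1 n (α - 1 - 2 * b) hn1 hA'
  obtain ⟨iBb, pBb, -⟩ := h1 n (α - 1 - b) hn1 hBb'
  have hBle : Ip n (α - 1 - b) ≤ B0 := pf_u3_Ip_mono h1 hn1 (by linarith) hB
  have hAlow : M + 1 ≤ Ip n (α - 1 - 2 * b) := by
    have e1 : α - 1 - 2 * b = -(n : ℝ) / 2 - e := by rw [hb, hb0]; ring
    have hmono : C0 ≤ Ip n (α - 1 - 2 * b - 1) :=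
      pf_u3_Ip_mono h1 hn1 (by rw [e1]; linarith) (by linarith)
    have e2 : 2 * e * Ip n (α - 1 - 2 * b) = (n + 2 * e) * Ip n (α - 1 - 2 * b - 1) := by
      have : (n + 2 * (α - 1 - 2 * b)) = -(2 * e) := by rw [e1]; ring
      rw [this] at eA
      have : 2 * (α - 1 - 2 * b) = -(n + 2 * e) := by rw [e1]; ring
      rw [this] at eA
      linarith
    have e3 : (n : ℝ) * C0 ≤ (n + 2 * e) * Ip n (α - 1 - 2 * b - 1) := by
      apply mul_le_mul (by linarith) hmono pC.le (by linarith)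
    have e4 : 2 * e * (M + 1) ≤ 2 * e * Ip n (α - 1 - 2 * b) := by linarith
    exact le_of_mul_le_mul_left e4 (by linarith)
  set A := Ip n (α - 1 - 2 * b) with hA
  set Bb := Ip n (α - 1 - b) with hBb
  obtain ⟨k, hk⟩ : ∃ k : ℝ, k = Bb / Vv := ⟨_, rfl⟩
  have hkV : k * Vv = Bb := by rw [hk]; field_simp
  -- the function
  obtain ⟨f, hf⟩ : ∃ f : E n → ℝ, f = fun x => wt n (-b) x - k := ⟨_, rfl⟩
  have hfs : ContDiff ℝ ∞ f := by
    rw [hf]
    exact (pf_u3_wt_contDiff n (-b)).sub contDiff_const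
  have hfc : Continuous f := hfs.continuous
  -- the energy
  have hen_le : ∀ x, wt n α x * ‖fderiv ℝ f x‖ ^ 2 ≤ 4 * b ^ 2 * wt n (α - 1 - 2 * b) x := by
    intro x
    rw [hf, pf_u3_norm_fderiv]
    have e1 : wt n α x * wt n (2 * -b - 2) x = wt n (α - 2 * b - 2) x := by
      rw [pf_u3_wt_mul]; congr 1; ring
    have e2 : wt n (α - 2 * b - 2) x * (1 + ‖x‖ ^ 2) = wt n (α - 1 - 2 * b) x := by
      have : (1 + ‖x‖ ^ 2) = wt n 1 x := by unfold wt; rw [Real.rpow_one]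
      rw [this, pf_u3_wt_mul]; congr 1; ring
    have e3 : wt n (α - 2 * b - 2) x * ‖x‖ ^ 2 ≤ wt n (α - 1 - 2 * b) x := by
      rw [← e2]
      exact mul_le_mul_of_nonneg_left (by linarith) (pf_u3_wt_pos n _ x).le
    calc wt n α x * (4 * (-b) ^ 2 * wt n (2 * -b - 2) x * ‖x‖ ^ 2)
        = 4 * b ^ 2 * ((wt n α x * wt n (2 * -b - 2) x) * ‖x‖ ^ 2) := by ring
      _ = 4 * b ^ 2 * (wt n (α - 2 * b - 2) x * ‖x‖ ^ 2) := by rw [e1]
      _ ≤ 4 * b ^ 2 * wt n (α - 1 - 2 * b) x :=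
          mul_le_mul_of_nonneg_left e3 (by positivity)
  have hen_nn : ∀ x, 0 ≤ wt n α x * ‖fderiv ℝ f x‖ ^ 2 := fun x =>
    mul_nonneg (pf_u3_wt_pos n _ x).le (by positivity)
  have hen_cont : Continuous (fun x => wt n α x * ‖fderiv ℝ f x‖ ^ 2) := by
    have h3 : Continuous (fderiv ℝ f) := hfs.continuous_fderiv (by simp)
    exact (pf_u3_wt_cont n α).mul (h3.norm.pow 2)
  have hen_int : Integrable (fun x => wt n α x * ‖fderiv ℝ f x‖ ^ 2) := by
    refine Integrable.mono' (iA.const_mul (4 * b ^ 2)) hen_cont.aestronglyMeasurable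
      (Filter.Eventually.of_forall fun x => ?_)
    rw [Real.norm_eq_abs, abs_of_nonneg (hen_nn x)]
    exact hen_le x
  have hen : en n α f ≤ 4 * b ^ 2 * A := by
    unfold en
    calc ∫ x, wt n α x * ‖fderiv ℝ f x‖ ^ 2 ≤ ∫ x, 4 * b ^ 2 * wt n (α - 1 - 2 * b) x :=
          integral_mono hen_int (iA.const_mul _) hen_le
      _ = 4 * b ^ 2 * A := by rw [integral_const_mul]; rfl
  -- the mass
  have hms_eq : ∀ x, wt n (α - 1) x * f x ^ 2 =
      wt n (α - 1 - 2 * b) x - 2 * k * wt n (α - 1 - b) x + k ^ 2 * wt n (α - 1) x := by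
    intro x
    rw [hf]
    have e1 : wt n (α - 1) x * wt n (-b) x = wt n (α - 1 - b) x := by
      rw [pf_u3_wt_mul]; congr 1
    have e2 : wt n (α - 1 - b) x * wt n (-b) x = wt n (α - 1 - 2 * b) x := by
      rw [pf_u3_wt_mul]; congr 1; ring
    calc wt n (α - 1) x * (wt n (-b) x - k) ^ 2
        = (wt n (α - 1) x * wt n (-b) x) * wt n (-b) x - 2 * k * (wt n (α - 1) x * wt n (-b) x)
            + k ^ 2 * wt n (α - 1) x := by ring
      _ = _ := by rw [e1, e2]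
  have hms_int : Integrable (fun x => wt n (α - 1) x * f x ^ 2) := by
    have : (fun x => wt n (α - 1) x * f x ^ 2) = fun x =>
        wt n (α - 1 - 2 * b) x - 2 * k * wt n (α - 1 - b) x + k ^ 2 * wt n (α - 1) x :=
      funext hms_eq
    rw [this]
    exact (iA.sub (iBb.const_mul _)).add (iV.const_mul _)
  have hms : ms n α f = A - Bb ^ 2 / Vv := by
    unfold ms
    rw [integral_congr_ae (Filter.Eventually.of_forall hms_eq)]
    have iA' : Integrable (fun x => wt n (α - 1 - 2 * b) x) := iA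
    have iB' : Integrable (fun x => 2 * k * wt n (α - 1 - b) x) := iBb.const_mul _
    have iV' : Integrable (fun x => k ^ 2 * wt n (α - 1) x) := iV.const_mul _
    have iAB : Integrable (fun x => wt n (α - 1 - 2 * b) x - 2 * k * wt n (α - 1 - b) x) :=
      iA'.sub iB'
    rw [integral_add iAB iV', integral_sub iA' iB', integral_const_mul,
      integral_const_mul]
    change A - 2 * k * Bb + k ^ 2 * Vv = _
    rw [← hkV]
    field_simp
    ring
  -- the orthogonality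
  have hmean_eq : ∀ x, wt n (α - 1) x * f x = wt n (α - 1 - b) x - k * wt n (α - 1) x := by
    intro x
    rw [hf]
    have e1 : wt n (α - 1) x * wt n (-b) x = wt n (α - 1 - b) x := by
      rw [pf_u3_wt_mul]; congr 1
    calc wt n (α - 1) x * (wt n (-b) x - k)
        = wt n (α - 1) x * wt n (-b) x - k * wt n (α - 1) x := by ring
      _ = _ := by rw [e1]
  have hmean_int : Integrable (fun x => wt n (α - 1) x * f x) := by
    have : (fun x => wt n (α - 1) x * f x) = fun x =>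
        wt n (α - 1 - b) x - k * wt n (α - 1) x := funext hmean_eq
    rw [this]
    exact iBb.sub (iV.const_mul _)
  have hmean : ∫ x, wt n (α - 1) x * f x = 0 := by
    rw [integral_congr_ae (Filter.Eventually.of_forall hmean_eq)]
    have iB' : Integrable (fun x => wt n (α - 1 - b) x) := iBb
    have iV' : Integrable (fun x => k * wt n (α - 1) x) := iV.const_mul _
    rw [integral_sub iB' iV', integral_const_mul]
    change Bb - k * Vv = 0
    rw [hkV, sub_self]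
  -- conclusion
  have hDle : Bb ^ 2 / Vv ≤ D := by
    rw [hD]
    apply div_le_div_of_nonneg_right _ V.le
    exact pow_le_pow_left₀ pBb.le hBle 2
  have hmspos : A - D > 0 := by
    -- M >= D
    have h3 : D ≤ M := by
      have h4 : (M - D) * (c - 4 * b0 ^ 2) = D * (4 * b0 ^ 2) := by
        rw [sub_mul, hMe]; ring
      have h5 : 0 ≤ (M - D) * (c - 4 * b0 ^ 2) := by rw [h4]; positivity
      have h6 : 0 ≤ M - D := nonneg_of_mul_nonneg_left h5 hcc
      linarith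
    linarith
  have hfin : 4 * b0 ^ 2 * A < c * (A - D) := by
    have h3 : (M + 1) * (c - 4 * b0 ^ 2) ≤ A * (c - 4 * b0 ^ 2) :=
      mul_le_mul_of_nonneg_right hAlow hcc.le
    have h4 : c * D + (c - 4 * b0 ^ 2) ≤ A * (c - 4 * b0 ^ 2) := by
      calc c * D + (c - 4 * b0 ^ 2) = M * (c - 4 * b0 ^ 2) + (c - 4 * b0 ^ 2) := by rw [hMe]
        _ = (M + 1) * (c - 4 * b0 ^ 2) := by ring
        _ ≤ _ := h3
    have h5 : c * (A - D) - 4 * b0 ^ 2 * A = A * (c - 4 * b0 ^ 2) - c * D := by ring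
    have h6 : 0 < c * (A - D) - 4 * b0 ^ 2 * A := by
      rw [h5]; exact sub_pos.mpr (lt_of_lt_of_le (lt_add_of_pos_right _ hcc) h4)
    exact sub_pos.mp h6
  have hmsD : A - D ≤ ms n α f := by rw [hms]; linarith
  refine h2 n α f hn1 hfs hen_int hms_int (fun _ => ⟨hmean_int, hmean⟩) (by linarith) c ?_
  calc en n α f ≤ 4 * b ^ 2 * A := hen
    _ ≤ 4 * b0 ^ 2 * A := by
        apply mul_le_mul_of_nonneg_right _ pA.le
        linarith
    _ < c * (A - D) := hfin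
    _ ≤ c * ms n α f := mul_le_mul_of_nonneg_left hmsD hc0.le

end Pool.Agent.H34WH
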