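import Pool.Agent.H34WH.W0

set_option autoImplicit false

namespace Pool.Agent.H34WH

open MeasureTheory Set Filter Topology Metric
open scoped ContDiff

theorem pf_u4_spos (n : ℕ) (x : E n) : 0 < 1 + ‖x‖ ^ 2 := by positivity

theorem pf_u4_wt_succ (n : ℕ) (p : ℝ) (x : E n) : wt n (p + 1) x = wt n p x * (1 + ‖x‖ ^ 2) := by
  unfold wt
  rw [Real.rpow_add_one (pf_u4_spos n x).ne']

theorem pf_u4_wt_pred (n : ℕ) (p : ℝ) (x : E n) :
    wt n p x = wt n (p - 1) x * (1 + ‖x‖ ^ 2) := by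
  have h := pf_u4_wt_succ n (p - 1) x
  rwa [sub_add_cancel] at h

theorem pf_u4_fderiv (n : ℕ) (κ : ℝ) (x : E n) :
    ‖fderiv ℝ (fun x : E n => (1 + ‖x‖ ^ 2) - κ) x‖ ^ 2 = 4 * ((1 + ‖x‖ ^ 2) - 1) := by
  have h : HasFDerivAt (fun x : E n => (1 + ‖x‖ ^ 2) - κ) (2 • innerSL ℝ x) x :=
    ((hasStrictFDerivAt_norm_sq x).hasFDerivAt.const_add 1).sub_const κ
  rw [h.fderiv]
  have h2 : ‖(2 • innerSL ℝ x : E n →L[ℝ] ℝ)‖ = 2 * ‖x‖ := by
    rw [two_smul, ← two_smul ℝ, norm_smul, innerSL_apply_norm]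
    norm_num
  rw [h2]
  ring

theorem pf_u4_alg (N α I0 I1 J : ℝ) (hN : 0 < N) (hα : α < -(N + 2) / 2) (hI0 : 0 < I0)
    (hJ : 0 < J) (h1 : (N + 2 * (α + 1)) * I1 = 2 * (α + 1) * I0)
    (h2 : (N + 2 * α) * I0 = 2 * α * J) :
    0 < I1 - 2 * (I0 / J) * I0 + (I0 / J) ^ 2 * J ∧
      4 * (I1 - I0) = (-4 * α - 2 * N) * (I1 - 2 * (I0 / J) * I0 + (I0 / J) ^ 2 * J) := by
  have hA : N + 2 * α < 0 := by linarith
  have hB : N + 2 * (α + 1) < 0 := by linarith
  have hα0 : α < 0 := by linarith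
  have hI1 : I1 = 2 * (α + 1) * I0 / (N + 2 * (α + 1)) := by
    rw [eq_div_iff hB.ne]
    linarith
  have hJ' : I0 / J = 2 * α / (N + 2 * α) := by
    rw [div_eq_div_iff hJ.ne' hA.ne]
    linarith
  have h3 : (I0 / J) ^ 2 * J = (I0 / J) * I0 := by
    field_simp
  have h4 : I1 - 2 * (I0 / J) * I0 + (I0 / J) ^ 2 * J
      = 2 * N * I0 / ((N + 2 * α) * (N + 2 * (α + 1))) := by
    rw [h3, hJ', hI1]
    have := hA.ne
    have := hB.ne
    field_simp
    ring
  rw [h4]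
  constructor
  · apply div_pos
    · positivity
    · exact mul_pos_of_neg_of_neg hA hB
  · rw [hI1]
    have := hA.ne
    have := hB.ne
    field_simp
    ring

theorem pf_u4 (h1 : S_Ip) (h2 : S_cut) : S_u4 := by
  intro n α hn hα c hc
  have hn1 : 1 ≤ n := by omega
  have hN : (0 : ℝ) < n := by
    have : (0 : ℕ) < n := by omega
    exact_mod_cast this
  obtain ⟨i1, p1, e1⟩ := h1 n (α + 1) hn1 (by linarith)
  obtain ⟨i0, p0, e0⟩ := h1 n α hn1 (by linarith)
  obtain ⟨ij, pj, -⟩ := h1 n (α - 1) hn1 (by linarith)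
  rw [add_sub_cancel_right] at e1
  set κ : ℝ := Ip n α / Ip n (α - 1) with hκ
  set f : E n → ℝ := fun x => (1 + ‖x‖ ^ 2) - κ with hf
  have hfc : ContDiff ℝ ∞ f := by
    exact (contDiff_const.add (contDiff_norm_sq ℝ)).sub contDiff_const
  -- pointwise identities
  have q1 : (fun x => wt n α x * ‖fderiv ℝ f x‖ ^ 2) =
      fun x => 4 * (wt n (α + 1) x - wt n α x) := by
    funext x
    rw [hf, pf_u4_fderiv, pf_u4_wt_succ]
    ring
  have q2 : (fun x => wt n (α - 1) x * f x ^ 2) =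
      fun x => wt n (α + 1) x - 2 * κ * wt n α x + κ ^ 2 * wt n (α - 1) x := by
    funext x
    rw [pf_u4_wt_succ, pf_u4_wt_pred n α x]
    simp only [hf]
    ring
  have q3 : (fun x => wt n (α - 1) x * f x) =
      fun x => wt n α x - κ * wt n (α - 1) x := by
    funext x
    rw [pf_u4_wt_pred n α x]
    simp only [hf]
    ring
  have j1 : Integrable (fun x => wt n α x * ‖fderiv ℝ f x‖ ^ 2) := by
    rw [q1]
    exact (i1.sub i0).const_mul 4
  have j2 : Integrable (fun x => wt n (α - 1) x * f x ^ 2) := by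
    rw [q2]
    exact (i1.sub (i0.const_mul _)).add (ij.const_mul _)
  have j3 : Integrable (fun x => wt n (α - 1) x * f x) := by
    rw [q3]
    exact i0.sub (ij.const_mul _)
  have v1 : en n α f = 4 * (Ip n (α + 1) - Ip n α) := by
    unfold en
    rw [q1, integral_const_mul, integral_sub i1 i0]
    rfl
  have v2 : ms n α f = Ip n (α + 1) - 2 * κ * Ip n α + κ ^ 2 * Ip n (α - 1) := by
    unfold ms
    have k1 : Integrable (fun x => 2 * κ * wt n α x) := i0.const_mul _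
    have k2 : Integrable (fun x => κ ^ 2 * wt n (α - 1) x) := ij.const_mul _
    have k3 : Integrable (fun x => wt n (α + 1) x - 2 * κ * wt n α x) := i1.sub k1
    rw [q2, integral_add k3 k2, integral_sub i1 k1, integral_const_mul, integral_const_mul]
    rfl
  have v3 : ∫ x, wt n (α - 1) x * f x = 0 := by
    rw [q3, integral_sub i0 (ij.const_mul _), integral_const_mul]
    show Ip n α - κ * Ip n (α - 1) = 0
    rw [hκ, div_mul_cancel₀ _ pj.ne', sub_self]
  obtain ⟨a1, a2⟩ := pf_u4_alg n α (Ip n α) (Ip n (α + 1)) (Ip n (α - 1)) hN hα p0 pj e1 e0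
  have hms : 0 < ms n α f := by
    rw [v2]
    exact a1
  refine h2 n α f hn1 hfc j1 j2 (fun _ => ⟨j3, v3⟩) hms c ?_
  have hen : en n α f = (-4 * α - 2 * n) * ms n α f := by
    rw [v1, v2]
    exact a2
  rw [hen]
  exact mul_lt_mul_of_pos_right hc hms

end Pool.Agent.H34WH
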