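import Pool.Agent.H34WH.W0

set_option autoImplicit false

namespace Pool.Agent.H34WH

open MeasureTheory Set Filter Topology Metric
open scoped ContDiff

lemma pf_u5_cont (n : ℕ) (p : ℝ) : Continuous (wt n p) := by
  unfold wt
  exact (continuous_const.add (continuous_norm.pow 2)).rpow_const
    (fun x => Or.inl (ne_of_gt (by positivity : (0 : ℝ) < 1 + ‖x‖ ^ 2)))

lemma pf_u5_pos (n : ℕ) (p : ℝ) (x : E n) : 0 < wt n p x := by
  unfold wt
  positivity

lemma pf_u5_sub (n : ℕ) (p : ℝ) (x : E n) : wt n p x = wt n (p - 1) x * (1 + ‖x‖ ^ 2) := by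
  unfold wt
  have h : (0 : ℝ) < 1 + ‖x‖ ^ 2 := by positivity
  rw [Real.rpow_sub_one h.ne']
  field_simp

lemma pf_u5_coord (n : ℕ) (x : E n) (i : Fin n) : x i ^ 2 ≤ ‖x‖ ^ 2 := by
  rw [EuclideanSpace.norm_sq_eq]
  have : x i ^ 2 = ‖x i‖ ^ 2 := by rw [Real.norm_eq_abs, sq_abs]
  rw [this]
  exact Finset.single_le_sum (f := fun j => ‖x j‖ ^ 2) (fun j _ => by positivity)
    (Finset.mem_univ i)

lemma pf_u5_int2 (n : ℕ) (α : ℝ) (h : Integrable (wt n α)) (i : Fin n) :
    Integrable (fun x : E n => wt n (α - 1) x * x i ^ 2) := by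
  refine h.mono' ?_ (Eventually.of_forall fun x => ?_)
  · apply Continuous.aestronglyMeasurable
    apply (pf_u5_cont n (α - 1)).mul
    apply Continuous.pow
    exact (EuclideanSpace.proj i : E n →L[ℝ] ℝ).continuous
  · have h1 := pf_u5_coord n x i
    have h2 := pf_u5_pos n (α - 1) x
    rw [Real.norm_eq_abs, abs_of_nonneg (by positivity), pf_u5_sub n α x]
    apply mul_le_mul_of_nonneg_left _ h2.le
    linarith

lemma pf_u5_int1 (n : ℕ) (α : ℝ) (h : Integrable (wt n α)) (i : Fin n) :
    Integrable (fun x : E n => wt n (α - 1) x * x i) := by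
  refine h.mono' ?_ (Eventually.of_forall fun x => ?_)
  · apply Continuous.aestronglyMeasurable
    apply (pf_u5_cont n (α - 1)).mul
    exact (EuclideanSpace.proj i : E n →L[ℝ] ℝ).continuous
  · have h1 := pf_u5_coord n x i
    have h2 := pf_u5_pos n (α - 1) x
    rw [norm_mul, Real.norm_eq_abs, abs_of_pos h2, Real.norm_eq_abs, pf_u5_sub n α x]
    apply mul_le_mul_of_nonneg_left _ h2.le
    have h3 : |x i| ^ 2 = x i ^ 2 := sq_abs _
    nlinarith [sq_nonneg (|x i| - 1)]

lemma pf_u5_perm (n : ℕ) (α : ℝ) (i j : Fin n) :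
    ∫ x : E n, wt n (α - 1) x * x i ^ 2 = ∫ x : E n, wt n (α - 1) x * x j ^ 2 := by
  let T : E n ≃ₗᵢ[ℝ] E n := LinearIsometryEquiv.piLpCongrLeft 2 ℝ ℝ (Equiv.swap i j)
  have hT : MeasurePreserving T := T.measurePreserving
  have h1 := hT.integral_comp T.toHomeomorph.measurableEmbedding
    (fun x : E n => wt n (α - 1) x * x j ^ 2)
  rw [← h1]
  congr 1
  ext x
  have h2 : ‖T x‖ = ‖x‖ := T.norm_map x
  have h3 : (T x) j = x i := by
    change (LinearIsometryEquiv.piLpCongrLeft 2 ℝ ℝ (Equiv.swap i j) x) j = x i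
    simp [LinearIsometryEquiv.piLpCongrLeft_apply, Equiv.piCongrLeft'_apply]
  unfold wt
  rw [h2, h3]

theorem pf_u5 (h1 : S_Ip) (h2 : S_cut) : S_u5 := by
  intro n α hn hα c hc
  have hn0 : (2 : ℝ) ≤ n := by exact_mod_cast hn
  have hα' : α < -(n : ℝ) / 2 := by linarith
  obtain ⟨hI, hpos, hrec⟩ := h1 n α (by omega) hα'
  obtain ⟨hI', -, -⟩ := h1 n (α - 1) (by omega) (by linarith)
  let i0 : Fin n := ⟨0, by omega⟩
  let L : E n →L[ℝ] ℝ := EuclideanSpace.proj i0
  have hL : ∀ x : E n, L x = x i0 := fun x => rfl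
  have hfd : ∀ x : E n, fderiv ℝ (fun x : E n => L x) x = L := fun x => L.fderiv
  have hLn : ‖L‖ = 1 := by
    apply le_antisymm
    · apply L.opNorm_le_bound zero_le_one
      intro x
      rw [one_mul]
      exact PiLp.norm_apply_le x i0
    · have h3 := L.le_opNorm (EuclideanSpace.single i0 (1 : ℝ))
      rw [hL] at h3
      simpa using h3
  have hen : en n α (fun x : E n => L x) = Ip n α := by
    unfold en Ip
    congr 1
    ext x
    rw [hfd, hLn]
    ring
  have hms : (n : ℝ) * ms n α (fun x : E n => L x) = Ip n α - Ip n (α - 1) := by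
    have e1 : ∀ i : Fin n, ∫ x : E n, wt n (α - 1) x * x i ^ 2 = ms n α (fun x : E n => L x) :=
      fun i => pf_u5_perm n α i i0
    have e2 : ∑ i : Fin n, ∫ x : E n, wt n (α - 1) x * x i ^ 2 =
        n * ms n α (fun x : E n => L x) := by
      rw [Finset.sum_congr rfl (fun i _ => e1 i)]
      simp
    rw [← e2, ← integral_finsetSum _ (fun i _ => pf_u5_int2 n α hI i)]
    unfold Ip
    rw [← integral_sub hI hI']
    congr 1
    ext x
    rw [← Finset.mul_sum, pf_u5_sub n α x]
    have e3 : ∑ i : Fin n, x i ^ 2 = ‖x‖ ^ 2 := by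
      rw [EuclideanSpace.norm_sq_eq]
      apply Finset.sum_congr rfl
      intro i _
      rw [Real.norm_eq_abs, sq_abs]
    rw [e3]
    ring
  have hαneg : α < 0 := by linarith
  have hms2 : Ip n α = -2 * α * ms n α (fun x : E n => L x) := by
    have e4 : 2 * α * ((n : ℝ) * ms n α (fun x : E n => L x)) = -(n * Ip n α) := by
      rw [hms]
      linarith
    have e5 : (n : ℝ) * (Ip n α) = n * (-2 * α * ms n α (fun x : E n => L x)) := by linarith
    exact mul_left_cancel₀ (by linarith) e5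
  have hmspos : 0 < ms n α (fun x : E n => L x) := by
    rw [hms2] at hpos
    by_contra hcon
    push Not at hcon
    have : -2 * α * ms n α (fun x : E n => L x) ≤ 0 :=
      mul_nonpos_of_nonneg_of_nonpos (by linarith) hcon
    linarith
  apply h2 n α (fun x : E n => L x) (by omega) L.contDiff
  · have : (fun x : E n => wt n α x * ‖fderiv ℝ (fun x : E n => L x) x‖ ^ 2) = wt n α := by
      ext x
      rw [hfd, hLn]
      ring
    rw [this]
    exact hI
  · exact pf_u5_int2 n α hI i0
  · intro _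
    refine ⟨pf_u5_int1 n α hI i0, ?_⟩
    have h3 := integral_neg_eq_self (fun x : E n => wt n (α - 1) x * L x) volume
    have h4 : ∫ x : E n, wt n (α - 1) (-x) * L (-x) = -∫ x : E n, wt n (α - 1) x * L x := by
      rw [← integral_neg]
      congr 1
      ext x
      have : wt n (α - 1) (-x) = wt n (α - 1) x := by
        unfold wt
        rw [norm_neg]
      rw [this, map_neg]
      ring
    linarith
  · exact hmspos
  · rw [hen, hms2]
    exact mul_lt_mul_of_pos_right hc hmspos

end Pool.Agent.H34WH
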