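import Pool.Agent.H34WH.P_cut
import Pool.Agent.H34WH.P_red
import Pool.Agent.H34WH.P_low1
import Pool.Agent.H34WH.P_ibp2
import Pool.Agent.H34WH.P_Ip

set_option autoImplicit false

/-!
# The energy space: functions of class `C^1` with finite weighted energies, and cut-offs
-/

namespace Pool.Agent.H34WH

open MeasureTheory Set Filter Topology Metric
open scoped ContDiff

theorem x1_D (n : ℕ) {f η : E n → ℝ} (hf : ContDiff ℝ 1 f) (hη : ContDiff ℝ ∞ η) (κ : ℝ)
    (k : ℕ) (x : E n) :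
    fderiv ℝ (fun x => pf_cut_X n k x * f x - κ * η x) x =
      (pf_cut_X n k x • fderiv ℝ f x + f x • fderiv ℝ (pf_cut_X n k) x) - κ • fderiv ℝ η x := by
  have h1 : HasFDerivAt (pf_cut_X n k) (fderiv ℝ (pf_cut_X n k) x) x :=
    ((pf_cut_X_cd n k).differentiable (by simp) x).hasFDerivAt
  have h2 : HasFDerivAt f (fderiv ℝ f x) x := (hf.differentiable (by simp) x).hasFDerivAt
  have h3 : HasFDerivAt η (fderiv ℝ η x) x := (hη.differentiable (by simp) x).hasFDerivAt
  exact ((h1.fun_mul h2).sub (h3.const_mul κ)).fderiv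

theorem x1_cd (n : ℕ) {f η : E n → ℝ} (hf : ContDiff ℝ 1 f) (hη : ContDiff ℝ ∞ η) (κ : ℝ)
    (k : ℕ) : ContDiff ℝ 1 (fun x => pf_cut_X n k x * f x - κ * η x) :=
  (((pf_cut_X_cd n k).of_le (by exact_mod_cast le_top)).mul hf).sub
    (contDiff_const.mul (hη.of_le (by exact_mod_cast le_top)))

theorem x1_key (n : ℕ) (α : ℝ) {f η : E n → ℝ} (hf : ContDiff ℝ 1 f)
    (hE : Integrable (fun x => wt n α x * ‖fderiv ℝ f x‖ ^ 2))
    (hM : Integrable (fun x => wt n (α - 1) x * f x ^ 2))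
    (hη : ContDiff ℝ ∞ η) (hηc : HasCompactSupport η) (κ : ℕ → ℝ)
    (hκ : Tendsto κ atTop (𝓝 0)) :
    Tendsto (fun k => en n α (fun x => pf_cut_X n k x * f x - κ k * η x)) atTop
      (𝓝 (en n α f)) ∧
    Tendsto (fun k => ms n α (fun x => pf_cut_X n k x * f x - κ k * η x)) atTop
      (𝓝 (ms n α f)) := by
  obtain ⟨K, hK⟩ : ∃ K, ∀ k, ‖κ k‖ ≤ K := by
    obtain ⟨K, hK⟩ := isBounded_iff_forall_norm_le.1 (Metric.isBounded_range_of_tendsto κ hκ)
    exact ⟨K, fun k => hK _ ⟨k, rfl⟩⟩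
  have hK2 : ∀ k, κ k ^ 2 ≤ K ^ 2 := by
    intro k
    have h1 := hK k
    rw [Real.norm_eq_abs] at h1
    rw [← sq_abs]
    exact pow_le_pow_left₀ (abs_nonneg _) h1 2
  obtain ⟨M, hM0, hMM⟩ := pf_cut_Dphi n
  have hηD : Continuous (fderiv ℝ η) := hη.continuous_fderiv (by simp)
  have hηDc : HasCompactSupport (fderiv ℝ η) := hηc.fderiv ℝ
  have hI1 : Integrable (fun x => wt n α x * ‖fderiv ℝ η x‖ ^ 2) := by
    refine Continuous.integrable_of_hasCompactSupport
      ((pf_cut_wt_cont n α).mul (hηD.norm.pow 2)) ?_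
    exact (hηDc.comp_left (g := fun z => ‖z‖ ^ 2) (by simp)).mul_left
  have hI2 : Integrable (fun x => wt n (α - 1) x * η x ^ 2) := by
    refine Continuous.integrable_of_hasCompactSupport
      ((pf_cut_wt_cont n (α - 1)).mul (hη.continuous.pow 2)) ?_
    exact (hηc.comp_left (g := fun z => z ^ 2) (by simp)).mul_left
  constructor
  · unfold en
    refine tendsto_integral_of_dominated_convergence (fun x =>
      3 * (wt n α x * ‖fderiv ℝ f x‖ ^ 2 + 5 * M ^ 2 * (wt n (α - 1) x * f x ^ 2) +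
        K ^ 2 * (wt n α x * ‖fderiv ℝ η x‖ ^ 2))) ?_ ?_ ?_ ?_
    · intro k
      have h1 := (x1_cd n hf hη (κ k) k).continuous_fderiv (by simp)
      exact ((pf_cut_wt_cont n α).mul (h1.norm.pow 2)).aestronglyMeasurable
    · exact ((hE.add (hM.const_mul _)).add (hI1.const_mul _)).const_mul 3
    · intro k
      refine Eventually.of_forall fun x => ?_
      have hw := pf_cut_wt_pos n α x
      have hv := pf_cut_wt_pos n (α - 1) x
      rw [Real.norm_eq_abs, abs_of_nonneg (by positivity), x1_D n hf hη]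
      have b1 : ‖pf_cut_X n k x • fderiv ℝ f x‖ ≤ ‖fderiv ℝ f x‖ := by
        rw [norm_smul, Real.norm_eq_abs, abs_of_nonneg (pf_cut_X_nonneg n k x)]
        exact mul_le_of_le_one_left (norm_nonneg _) (pf_cut_X_le n k x)
      have b2 : ‖f x • fderiv ℝ (pf_cut_X n k) x‖ = |f x| * ‖fderiv ℝ (pf_cut_X n k) x‖ := by
        rw [norm_smul, Real.norm_eq_abs]
      have b3 : ‖κ k • fderiv ℝ η x‖ = |κ k| * ‖fderiv ℝ η x‖ := by
        rw [norm_smul, Real.norm_eq_abs]
      have b4 : ‖(pf_cut_X n k x • fderiv ℝ f x + f x • fderiv ℝ (pf_cut_X n k) x) -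
          κ k • fderiv ℝ η x‖ ≤ ‖fderiv ℝ f x‖ + |f x| * ‖fderiv ℝ (pf_cut_X n k) x‖ +
            |κ k| * ‖fderiv ℝ η x‖ := by
        refine (norm_sub_le _ _).trans ?_
        rw [b3]
        refine add_le_add ((norm_add_le _ _).trans ?_) le_rfl
        rw [b2]
        exact add_le_add b1 le_rfl
      have b5 := pow_le_pow_left₀ (norm_nonneg _) b4 2
      have b6 : (‖fderiv ℝ f x‖ + |f x| * ‖fderiv ℝ (pf_cut_X n k) x‖ +
            |κ k| * ‖fderiv ℝ η x‖) ^ 2 ≤ 3 * (‖fderiv ℝ f x‖ ^ 2 +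
            f x ^ 2 * ‖fderiv ℝ (pf_cut_X n k) x‖ ^ 2 + κ k ^ 2 * ‖fderiv ℝ η x‖ ^ 2) := by
        have e1 : f x ^ 2 * ‖fderiv ℝ (pf_cut_X n k) x‖ ^ 2 =
            (|f x| * ‖fderiv ℝ (pf_cut_X n k) x‖) ^ 2 := by rw [mul_pow, sq_abs]
        have e2 : κ k ^ 2 * ‖fderiv ℝ η x‖ ^ 2 = (|κ k| * ‖fderiv ℝ η x‖) ^ 2 := by
          rw [mul_pow, sq_abs]
        rw [e1, e2]
        nlinarith [sq_nonneg (‖fderiv ℝ f x‖ - |f x| * ‖fderiv ℝ (pf_cut_X n k) x‖),
          sq_nonneg (‖fderiv ℝ f x‖ - |κ k| * ‖fderiv ℝ η x‖),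
          sq_nonneg (|f x| * ‖fderiv ℝ (pf_cut_X n k) x‖ - |κ k| * ‖fderiv ℝ η x‖)]
      have b7 := pf_cut_DX_bd n k α x hM0 hMM
      have b8 : f x ^ 2 * (wt n α x * ‖fderiv ℝ (pf_cut_X n k) x‖ ^ 2) ≤
          f x ^ 2 * (wt n (α - 1) x * (5 * M ^ 2)) :=
        mul_le_mul_of_nonneg_left b7 (sq_nonneg _)
      have b9 : κ k ^ 2 * (wt n α x * ‖fderiv ℝ η x‖ ^ 2) ≤
          K ^ 2 * (wt n α x * ‖fderiv ℝ η x‖ ^ 2) :=
        mul_le_mul_of_nonneg_right (hK2 k) (by positivity)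
      have b10 := mul_le_mul_of_nonneg_left (b5.trans b6) hw.le
      nlinarith [b10, b8, b9]
    · refine Eventually.of_forall fun x => ?_
      refine Tendsto.const_mul _ ?_
      refine Tendsto.pow ?_ 2
      refine Tendsto.norm ?_
      have c1 := ((pf_cut_X_tendsto n x).smul_const (fderiv ℝ f x)).add
        ((pf_cut_DX_tendsto n x).const_smul (f x))
      have c2 := c1.sub (hκ.smul_const (fderiv ℝ η x))
      rw [one_smul, smul_zero, zero_smul, add_zero, sub_zero] at c2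
      refine c2.congr fun k => ?_
      rw [x1_D n hf hη]
  · unfold ms
    refine tendsto_integral_of_dominated_convergence (fun x =>
      2 * (wt n (α - 1) x * f x ^ 2 + K ^ 2 * (wt n (α - 1) x * η x ^ 2))) ?_ ?_ ?_ ?_
    · intro k
      have h1 := (x1_cd n hf hη (κ k) k).continuous
      exact ((pf_cut_wt_cont n (α - 1)).mul (h1.pow 2)).aestronglyMeasurable
    · exact (hM.add (hI2.const_mul _)).const_mul 2
    · intro k
      refine Eventually.of_forall fun x => ?_
      have hv := pf_cut_wt_pos n (α - 1) x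
      rw [Real.norm_eq_abs, abs_of_nonneg (by positivity)]
      have b0 := pf_cut_X_nonneg n k x
      have b1 := pf_cut_X_le n k x
      have b2 : pf_cut_X n k x ^ 2 ≤ 1 := by nlinarith
      have b3 : (pf_cut_X n k x * f x - κ k * η x) ^ 2 ≤
          2 * (f x ^ 2 + K ^ 2 * η x ^ 2) := by
        have b4 : pf_cut_X n k x ^ 2 * f x ^ 2 ≤ 1 * f x ^ 2 :=
          mul_le_mul_of_nonneg_right b2 (sq_nonneg _)
        have b5 : κ k ^ 2 * η x ^ 2 ≤ K ^ 2 * η x ^ 2 :=
          mul_le_mul_of_nonneg_right (hK2 k) (sq_nonneg _)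
        nlinarith [sq_nonneg (pf_cut_X n k x * f x + κ k * η x)]
      have b6 := mul_le_mul_of_nonneg_left b3 hv.le
      nlinarith [b6]
    · refine Eventually.of_forall fun x => ?_
      refine Tendsto.const_mul _ ?_
      refine Tendsto.pow ?_ 2
      have c1 := ((pf_cut_X_tendsto n x).mul_const (f x)).sub (hκ.mul_const (η x))
      rwa [one_mul, zero_mul, sub_zero] at c1

/-- the energy space: functions of class `C^1` with finite energy and finite mass -/
def FE (n : ℕ) (α : ℝ) (u : E n → ℝ) : Prop :=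
  ContDiff ℝ 1 u ∧ Integrable (fun x => wt n α x * ‖fderiv ℝ u x‖ ^ 2) ∧
    Integrable (fun x => wt n (α - 1) x * u x ^ 2)

/-- zero mean in the constrained range -/
def ZM (n : ℕ) (α : ℝ) (u : E n → ℝ) : Prop :=
  α < -((n : ℝ) - 2) / 2 → ∫ x, wt n (α - 1) x * u x = 0

theorem FE_of_cs {n : ℕ} {α : ℝ} {u : E n → ℝ} (hu : ContDiff ℝ 1 u) (hc : HasCompactSupport u) :
    FE n α u := ⟨hu, pf_red_i1 α u hu hc, pf_red_i2 (α - 1) u hu.continuous hc⟩

theorem FE_int1 {n : ℕ} {α : ℝ} {u : E n → ℝ} (h : FE n α u) (hα : α < -((n : ℝ) - 2) / 2) :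
    Integrable (fun x => wt n (α - 1) x * u x) := by
  have h1 : Integrable (wt n (α - 1)) := pf_Ip_integrable (by linarith)
  refine (h1.add h.2.2).mono' ((pf_cut_wt_cont n (α - 1)).mul h.1.continuous).aestronglyMeasurable ?_
  refine Eventually.of_forall fun x => ?_
  have hv := pf_cut_wt_pos n (α - 1) x
  rw [norm_mul, Real.norm_of_nonneg hv.le, Real.norm_eq_abs, Pi.add_apply]
  have h2 : |u x| ≤ 1 + u x ^ 2 := by
    rw [← sq_abs (u x)]
    nlinarith [sq_nonneg (|u x| - 1), abs_nonneg (u x)]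
  nlinarith [mul_le_mul_of_nonneg_left h2 hv.le]

theorem x1_approx (n : ℕ) (α : ℝ) {f : E n → ℝ} (hf : FE n α f) (hz : ZM n α f) :
    ∃ v : ℕ → E n → ℝ, (∀ k, ContDiff ℝ 1 (v k)) ∧ (∀ k, HasCompactSupport (v k)) ∧
      (∀ k, ZM n α (v k)) ∧
      Tendsto (fun k => en n α (v k)) atTop (𝓝 (en n α f)) ∧
      Tendsto (fun k => ms n α (v k)) atTop (𝓝 (ms n α f)) ∧
      (∀ x, Tendsto (fun k => v k x) atTop (𝓝 (f x))) ∧
      (∀ x, Tendsto (fun k => fderiv ℝ (v k) x) atTop (𝓝 (fderiv ℝ f x))) := by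
  have hfin : ∀ (η : E n → ℝ) (κ : ℕ → ℝ), ContDiff ℝ ∞ η → HasCompactSupport η →
      Tendsto κ atTop (𝓝 0) → (∀ k, ZM n α (fun x => pf_cut_X n k x * f x - κ k * η x)) →
    ∃ v : ℕ → E n → ℝ, (∀ k, ContDiff ℝ 1 (v k)) ∧ (∀ k, HasCompactSupport (v k)) ∧
      (∀ k, ZM n α (v k)) ∧
      Tendsto (fun k => en n α (v k)) atTop (𝓝 (en n α f)) ∧
      Tendsto (fun k => ms n α (v k)) atTop (𝓝 (ms n α f)) ∧
      (∀ x, Tendsto (fun k => v k x) atTop (𝓝 (f x))) ∧
      (∀ x, Tendsto (fun k => fderiv ℝ (v k) x) atTop (𝓝 (fderiv ℝ f x))) := by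
    intro η κ hη hηc hκ hz'
    obtain ⟨h1, h2⟩ := x1_key n α hf.1 hf.2.1 hf.2.2 hη hηc κ hκ
    refine ⟨fun k x => pf_cut_X n k x * f x - κ k * η x, fun k => x1_cd n hf.1 hη (κ k) k,
      fun k => ((pf_cut_X_cs n k).mul_right).sub (hηc.mul_left), hz', h1, h2, fun x => ?_,
      fun x => ?_⟩
    · have c1 := ((pf_cut_X_tendsto n x).mul_const (f x)).sub (hκ.mul_const (η x))
      rwa [one_mul, zero_mul, sub_zero] at c1
    · have c1 := ((pf_cut_X_tendsto n x).smul_const (fderiv ℝ f x)).add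
        ((pf_cut_DX_tendsto n x).const_smul (f x))
      have c2 := c1.sub (hκ.smul_const (fderiv ℝ η x))
      rw [one_smul, smul_zero, zero_smul, add_zero, sub_zero] at c2
      refine c2.congr fun k => ?_
      rw [x1_D n hf.1 hη]
  by_cases hα : α < -((n : ℝ) - 2) / 2
  · have hI := FE_int1 hf hα
    have h0 := hz hα
    have hvc := pf_cut_wt_cont n (α - 1)
    have hφc : Continuous (pf_cut_phi n) := ((pf_cut_phi n).contDiff (n := 0)).continuous
    have hφs : HasCompactSupport (pf_cut_phi n) := (pf_cut_phi n).hasCompactSupport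
    have hJ : 0 < ∫ x, wt n (α - 1) x * pf_cut_phi n x := by
      refine Continuous.integral_pos_of_hasCompactSupport_nonneg_nonzero (x := (0 : E n))
        (hvc.mul hφc) hφs.mul_left ?_ ?_
      · intro x
        exact mul_nonneg (pf_cut_wt_pos n _ x).le (pf_cut_phi n).nonneg
      · have h1 : (pf_cut_phi n) 0 = 1 :=
          (pf_cut_phi n).one_of_mem_closedBall (mem_closedBall_self (pf_cut_phi n).rIn_pos.le)
        rw [h1, mul_one]
        exact (pf_cut_wt_pos n _ _).ne'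
    set J : ℝ := ∫ x, wt n (α - 1) x * pf_cut_phi n x with hJdef
    have hη : ContDiff ℝ ∞ (fun x : E n => J⁻¹ * pf_cut_phi n x) :=
      contDiff_const.mul (pf_cut_phi n).contDiff
    have hηc : HasCompactSupport (fun x : E n => J⁻¹ * pf_cut_phi n x) := hφs.mul_left
    have hκ : Tendsto (fun k : ℕ => ∫ x, pf_cut_X n k x * (wt n (α - 1) x * f x)) atTop
        (𝓝 0) := by
      rw [← h0]
      refine tendsto_integral_of_dominated_convergence (fun x => ‖wt n (α - 1) x * f x‖)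
        ?_ hI.norm ?_ ?_
      · intro k
        exact ((pf_cut_X_cd n k).continuous.mul
          (hvc.mul hf.1.continuous)).aestronglyMeasurable
      · intro k
        refine Eventually.of_forall fun x => ?_
        rw [norm_mul, Real.norm_eq_abs (pf_cut_X n k x), abs_of_nonneg (pf_cut_X_nonneg n k x)]
        exact mul_le_of_le_one_left (norm_nonneg _) (pf_cut_X_le n k x)
      · refine Eventually.of_forall fun x => ?_
        have h1 := (pf_cut_X_tendsto n x).mul_const (wt n (α - 1) x * f x)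
        rwa [one_mul] at h1
    refine hfin _ _ hη hηc hκ ?_
    intro k _
    have i1 : Integrable (fun x : E n => pf_cut_X n k x * (wt n (α - 1) x * f x)) :=
      Continuous.integrable_of_hasCompactSupport
        ((pf_cut_X_cd n k).continuous.mul (hvc.mul hf.1.continuous)) (pf_cut_X_cs n k).mul_right
    have i2 : Integrable (fun x : E n => wt n (α - 1) x * pf_cut_phi n x) :=
      Continuous.integrable_of_hasCompactSupport (hvc.mul hφc) hφs.mul_left
    have e1 : (fun x : E n => wt n (α - 1) x * (pf_cut_X n k x * f x -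
        (∫ x, pf_cut_X n k x * (wt n (α - 1) x * f x)) * (J⁻¹ * pf_cut_phi n x))) =
        fun x => pf_cut_X n k x * (wt n (α - 1) x * f x) -
          ((∫ x, pf_cut_X n k x * (wt n (α - 1) x * f x)) * J⁻¹) *
            (wt n (α - 1) x * pf_cut_phi n x) := by
      funext x
      ring
    rw [e1, integral_sub i1 (i2.const_mul _), integral_const_mul, ← hJdef, mul_assoc,
      inv_mul_cancel₀ hJ.ne', mul_one, sub_self]
  · refine hfin (fun _ => (0 : ℝ)) (fun _ => 0) contDiff_const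
      HasCompactSupport.zero tendsto_const_nhds ?_
    intro k h
    exact absurd h hα

/-- Fatou: nonnegative functions with integrals tending to zero can only converge to zero. -/
theorem fatou_zero {n : ℕ} {F : ℕ → E n → ℝ} {f : E n → ℝ} (hm : ∀ k, Integrable (F k))
    (h0 : ∀ k x, 0 ≤ F k x) (hlim : ∀ x, Tendsto (fun k => F k x) atTop (𝓝 (f x)))
    (hI : Tendsto (fun k => ∫ x, F k x) atTop (𝓝 0)) : ∀ᵐ x, f x = 0 := by
  have hf0 : ∀ x, 0 ≤ f x := fun x =>
    ge_of_tendsto' (x := (atTop : Filter ℕ)) (hlim x) (fun k => h0 k x)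
  have h1 : ∫⁻ x, ENNReal.ofReal (f x) = 0 := by
    have h2 : ∀ x, liminf (fun k : ℕ => ENNReal.ofReal (F k x)) atTop = ENNReal.ofReal (f x) :=
      fun x => ((ENNReal.continuous_ofReal.tendsto _).comp (hlim x)).liminf_eq
    have h3 := lintegral_liminf_le' (μ := (volume : Measure (E n))) (u := (atTop : Filter ℕ))
      (f := fun (k : ℕ) x => ENNReal.ofReal (F k x))
      (fun k => (hm k).aestronglyMeasurable.aemeasurable.ennreal_ofReal)
    simp only [h2] at h3
    have h4 : ∀ k, ∫⁻ x, ENNReal.ofReal (F k x) = ENNReal.ofReal (∫ x, F k x) := fun k =>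
      (ofReal_integral_eq_lintegral_ofReal (hm k) (Eventually.of_forall (h0 k))).symm
    simp only [h4] at h3
    have h5 : liminf (fun k => ENNReal.ofReal (∫ x, F k x)) atTop = 0 := by
      have h6 := ((ENNReal.continuous_ofReal.tendsto _).comp hI).liminf_eq
      rw [ENNReal.ofReal_zero] at h6
      exact h6
    rw [h5] at h3
    exact le_antisymm h3 zero_le
  have hfm : AEMeasurable f :=
    aemeasurable_of_tendsto_metrizable_ae atTop
      (fun k => (hm k).aestronglyMeasurable.aemeasurable) (Eventually.of_forall hlim)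
  rw [lintegral_eq_zero_iff' hfm.ennreal_ofReal] at h1
  filter_upwards [h1] with x hx
  have : f x ≤ 0 := by simpa using hx
  exact le_antisymm this (hf0 x)

end Pool.Agent.H34WH
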