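import Pool.Agent.H34WH.X1
import Pool.Agent.H34WH.P_gs
import Pool.Agent.H34WH.P_low2
import Pool.Agent.H34WH.P_avg
import Pool.Agent.H34WH.P_nr
import Pool.Agent.H34WH.P_pol
import Pool.Agent.H34WH.P_1d
import Pool.Agent.H34WH.P_odd
import Pool.Agent.H34WH.P_ibp

set_option autoImplicit false

/-!
# The inequality on the energy space; equality without constraint
-/

namespace Pool.Agent.H34WH

open MeasureTheory Set Filter Topology Metric
open scoped ContDiff

/-- the inequality for functions of class `C^1` with compact support -/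
theorem low_cs (n : ℕ) (α : ℝ) (hn : 2 ≤ n) (u : E n → ℝ) (hu : ContDiff ℝ 1 u)
    (hc : HasCompactSupport u) (hz : ZM n α u) : Cst n α * ms n α u ≤ en n α u := by
  have hn' : (2 : ℝ) ≤ n := by exact_mod_cast hn
  rcases lt_trichotomy α (-((n : ℝ) - 2) / 2) with h | h | h
  · exact pf_low2 (pf_red pf_odd) pf_avg (pf_nr pf_pol pf_1d) n α hn h u hu hc (hz h)
  · have h1 : Cst n α = 0 := by
      unfold Cst
      rw [if_neg (by linarith), if_neg (by linarith), if_pos (by linarith), h]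
      ring
    rw [h1, zero_mul]
    unfold en
    exact integral_nonneg fun x => mul_nonneg (pf_cut_wt_pos n α x).le (sq_nonneg _)
  · exact pf_low1 (pf_gs pf_ibp) n α hn h u hu hc

/-- the inequality on the energy space -/
theorem low_FE (n : ℕ) (α : ℝ) (hn : 2 ≤ n) (u : E n → ℝ) (hu : FE n α u) (hz : ZM n α u) :
    Cst n α * ms n α u ≤ en n α u := by
  obtain ⟨v, v1, v2, v3, v4, v5, -, -⟩ := x1_approx n α hu hz
  exact le_of_tendsto_of_tendsto' (v5.const_mul (Cst n α)) v4
    (fun k => low_cs n α hn (v k) (v1 k) (v2 k) (v3 k))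

/-- the dual norm of `L + c ⟨x, ·⟩` -/
theorem dual_sq {n : ℕ} (L : E n →L[ℝ] ℝ) (c : ℝ) (x : E n) :
    ‖L + c • innerSL ℝ x‖ ^ 2 = ‖L‖ ^ 2 + 2 * c * L x + c ^ 2 * ‖x‖ ^ 2 := by
  have e : ∀ L : E n →L[ℝ] ℝ, ‖L‖ = ‖(InnerProductSpace.toDual ℝ (E n)).symm L‖ := fun L =>
    (LinearIsometryEquiv.norm_map _ _).symm
  have e2 : (InnerProductSpace.toDual ℝ (E n)).symm (innerSL ℝ x) = x := by
    rw [LinearIsometryEquiv.symm_apply_eq]
    rfl
  rw [e, e L, map_add, map_smul, e2, norm_add_sq_real, norm_smul, inner_smul_right,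
    InnerProductSpace.toDual_symm_apply, Real.norm_eq_abs, mul_pow, sq_abs]
  ring

/-- the remainder in the ground state identity -/
noncomputable def rem (n : ℕ) (α β : ℝ) (u : E n → ℝ) (x : E n) : ℝ :=
  wt n α x * ‖fderiv ℝ u x + (2 * β * u x / (1 + ‖x‖ ^ 2)) • innerSL ℝ x‖ ^ 2

/-- the ground state identity for functions of class `C^1` with compact support -/
theorem gs_id (n : ℕ) (α β : ℝ) (u : E n → ℝ) (hu : ContDiff ℝ 1 u) (hc : HasCompactSupport u) :
    Integrable (rem n α β u) ∧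
    (∫ x, wt n (α - 1) x * (2 * β * (n + 2 * (α - 1 - β)) -
      4 * β * (α - 1 - β) / (1 + ‖x‖ ^ 2)) * u x ^ 2) + ∫ x, rem n α β u x = en n α u := by
  obtain ⟨q, rfl⟩ : ∃ q : ℝ, α = q + 1 + 1 := ⟨α - 2, by ring⟩
  have hq : q + 1 + 1 - 1 = q + 1 := by ring
  rw [hq]
  have hg : ContDiff ℝ 1 (fun x => u x ^ 2) := hu.pow 2
  have hgc : HasCompactSupport (fun x => u x ^ 2) := by
    have := hc.comp_left (g := fun t : ℝ => t ^ 2) (by simp)
    exact this
  have hcont : Continuous u := hu.continuous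
  have hfc : Continuous (fderiv ℝ u) := hu.continuous_fderiv one_ne_zero
  have hwc : ∀ p, Continuous (wt n p) := fun p => (pf_gs_wt_contDiff n p).continuous
  have hdg : ∀ x, fderiv ℝ (fun x => u x ^ 2) x x = 2 * u x * fderiv ℝ u x x := by
    intro x
    have h := ((hu.differentiable one_ne_zero x).hasFDerivAt).pow 2
    have h' : HasFDerivAt (fun x => u x ^ 2) _ x := h
    rw [h'.fderiv]
    simp
  have key := pf_ibp n (fun x => u x ^ 2) (wt n (q + 1)) hg hgc (pf_gs_wt_contDiff n (q + 1))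
  simp only [hdg, pf_gs_fderiv_wt] at key
  have hcu2 : HasCompactSupport (fun x => u x ^ 2) := hgc
  have hi : ∀ f : E n → ℝ, Continuous f → Integrable (fun x => f x * u x ^ 2) := by
    intro f hf
    apply Continuous.integrable_of_hasCompactSupport (by fun_prop)
    exact hcu2.mul_left
  have hfx : Continuous (fun x : E n => fderiv ℝ u x x) := hfc.clm_apply continuous_id
  have hi1 : Integrable (fun x => wt n (q + 1) x * (2 * u x * fderiv ℝ u x x)) := by
    apply Continuous.integrable_of_hasCompactSupport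
    · exact (hwc _).mul ((continuous_const.mul hcont).mul hfx)
    · have h : HasCompactSupport (fun x => 2 * u x * fderiv ℝ u x x) := by
        apply HasCompactSupport.mul_right
        exact hc.mul_left
      exact h.mul_left
  have hi2 : Integrable (fun x => wt n q x * (u x ^ 2 * ‖x‖ ^ 2)) := by
    have := hi (fun x => wt n q x * ‖x‖ ^ 2) ((hwc _).mul (by fun_prop))
    refine this.congr (Eventually.of_forall fun x => ?_)
    simp only
    ring
  have hi3 : Integrable (fun x => wt n (q + 1 + 1) x * ‖fderiv ℝ u x‖ ^ 2) := by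
    apply Continuous.integrable_of_hasCompactSupport
    · exact (hwc _).mul ((hfc.norm).pow 2)
    · have h : HasCompactSupport (fun x => ‖fderiv ℝ u x‖ ^ 2) := by
        have := (hc.fderiv (𝕜 := ℝ)).comp_left (g := fun t : E n →L[ℝ] ℝ => ‖t‖ ^ 2) (by simp)
        exact this
      exact h.mul_left
  have hi4 : Integrable (fun x => u x ^ 2 *
      (n * wt n (q + 1) x + (q + 1) * wt n q x * (2 * ‖x‖ ^ 2))) := by
    have := hi (fun x => n * wt n (q + 1) x + (q + 1) * wt n q x * (2 * ‖x‖ ^ 2))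
      ((continuous_const.mul (hwc _)).add ((continuous_const.mul (hwc _)).mul (by fun_prop)))
    refine this.congr (Eventually.of_forall fun x => ?_)
    simp only
    ring
  have hF : ∫ x, wt n (q + 1) x * (2 * β * (n + 2 * (q + 1 - β)) -
      4 * β * (q + 1 - β) / (1 + ‖x‖ ^ 2)) * u x ^ 2 =
      ∫ x, (-2 * β * (wt n (q + 1) x * (2 * u x * fderiv ℝ u x x)) -
        4 * β ^ 2 * (wt n q x * (u x ^ 2 * ‖x‖ ^ 2))) := by
    rw [integral_sub (hi1.const_mul _) (hi2.const_mul _), integral_const_mul, integral_const_mul,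
      key]
    have e1 : -2 * β * (-∫ x, u x ^ 2 * (n * wt n (q + 1) x + (q + 1) * wt n q x * (2 * ‖x‖ ^ 2)))
        = 2 * β * ∫ x, u x ^ 2 * (n * wt n (q + 1) x + (q + 1) * wt n q x * (2 * ‖x‖ ^ 2)) := by
      ring
    rw [e1, ← integral_const_mul, ← integral_const_mul,
      ← integral_sub (hi4.const_mul _) (hi2.const_mul _)]
    apply integral_congr_ae
    refine Eventually.of_forall fun x => ?_
    simp only
    rw [pf_gs_wt_succ]
    have := (pf_gs_pos x).ne'
    field_simp
    ring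
  have hrem : ∀ x, rem n (q + 1 + 1) β u x = wt n (q + 1 + 1) x * ‖fderiv ℝ u x‖ ^ 2 -
      (-2 * β * (wt n (q + 1) x * (2 * u x * fderiv ℝ u x x)) -
        4 * β ^ 2 * (wt n q x * (u x ^ 2 * ‖x‖ ^ 2))) := by
    intro x
    unfold rem
    rw [dual_sq, pf_gs_wt_succ (q + 1), pf_gs_wt_succ q]
    have := (pf_gs_pos x).ne'
    field_simp
    ring
  have hir : Integrable (rem n (q + 1 + 1) β u) :=
    (hi3.sub ((hi1.const_mul _).sub (hi2.const_mul _))).congr
      (Eventually.of_forall fun x => (hrem x).symm)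
  refine ⟨hir, ?_⟩
  have hi12 : Integrable (fun x => -2 * β * (wt n (q + 1) x * (2 * u x * fderiv ℝ u x x)) -
        4 * β ^ 2 * (wt n q x * (u x ^ 2 * ‖x‖ ^ 2))) := (hi1.const_mul _).sub (hi2.const_mul _)
  rw [hF, ← integral_add hi12 hir]
  unfold en
  refine integral_congr_ae (Eventually.of_forall fun x => ?_)
  simp only [hrem]
  ring

theorem rem_nonneg (n : ℕ) (α β : ℝ) (u : E n → ℝ) (x : E n) : 0 ≤ rem n α β u x :=
  mul_nonneg (pf_cut_wt_pos n α x).le (sq_nonneg _)

theorem rem_tendsto (n : ℕ) (α β : ℝ) (v : ℕ → E n → ℝ) (u : E n → ℝ) (x : E n)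
    (h1 : Tendsto (fun k => v k x) atTop (𝓝 (u x)))
    (h2 : Tendsto (fun k => fderiv ℝ (v k) x) atTop (𝓝 (fderiv ℝ u x))) :
    Tendsto (fun k => rem n α β (v k) x) atTop (𝓝 (rem n α β u x)) := by
  unfold rem
  exact ((h2.add (((h1.const_mul (2 * β)).div_const _).smul_const _)).norm.pow 2).const_mul _

/-- vanishing of the remainder -/
theorem rem_zero (n : ℕ) (α β : ℝ) (u : E n → ℝ) (hu : ContDiff ℝ 1 u)
    (h : ∀ᵐ x, rem n α β u x = 0) : ∃ c : ℝ, ∀ x, u x = c * wt n (-β) x := by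
  have hc : Continuous (rem n α β u) := by
    unfold rem
    refine (pf_cut_wt_cont n α).mul ((Continuous.norm ?_).pow 2)
    have c1 : Continuous fun x : E n => 2 * β * u x / (1 + ‖x‖ ^ 2) :=
      (continuous_const.mul hu.continuous).div (by fun_prop) fun x => (pf_gs_pos x).ne'
    have c2 : Continuous fun x : E n => innerSL ℝ x := (innerSL ℝ).continuous
    exact (hu.continuous_fderiv one_ne_zero).add (c1.smul c2)
  have h0 : rem n α β u = fun _ => 0 :=
    (hc.ae_eq_iff_eq volume continuous_const).1 h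
  have h1 : ∀ x, fderiv ℝ u x = -((2 * β * u x / (1 + ‖x‖ ^ 2)) • innerSL ℝ x) := by
    intro x
    have h2 := congrFun h0 x
    unfold rem at h2
    have h3 : ‖fderiv ℝ u x + (2 * β * u x / (1 + ‖x‖ ^ 2)) • innerSL ℝ x‖ ^ 2 = 0 := by
      rcases mul_eq_zero.1 h2 with h4 | h4
      · exact absurd h4 (pf_cut_wt_pos n α x).ne'
      · exact h4
    have h5 := norm_eq_zero.1 (pow_eq_zero_iff (two_ne_zero) |>.1 h3)
    exact eq_neg_of_add_eq_zero_left h5
  -- the product with `w^β` has derivative zero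
  have h2 : ∀ x, HasFDerivAt (fun x => wt n β x * u x) (0 : E n →L[ℝ] ℝ) x := by
    intro x
    have d1 := pf_Ip_hasFDerivAt (n := n) β x
    have d2 := (hu.differentiable one_ne_zero x).hasFDerivAt
    refine (d1.mul d2).congr_fderiv ?_
    rw [h1 x]
    ext y
    have e1 : wt n β x = (1 + ‖x‖ ^ 2) ^ (β - 1) * (1 + ‖x‖ ^ 2) := by
      unfold wt
      rw [← Real.rpow_add_one (pf_gs_pos x).ne']
      congr 1
      ring
    rw [e1]
    have h3 := (pf_gs_pos x).ne'
    simp
    field_simp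
    ring
  have h3 : ∀ x y, wt n β x * u x = wt n β y * u y :=
    is_const_of_fderiv_eq_zero (𝕜 := ℝ) (f := fun x => wt n β x * u x)
      (fun x => (h2 x).differentiableAt) (fun x => (h2 x).fderiv)
  refine ⟨wt n β 0 * u 0, fun x => ?_⟩
  have h4 : wt n β x * wt n (-β) x = 1 := by
    unfold wt
    rw [← Real.rpow_add (pf_gs_pos x), add_neg_cancel, Real.rpow_zero]
  calc u x = (wt n β x * wt n (-β) x) * u x := by rw [h4, one_mul]
    _ = (wt n β x * u x) * wt n (-β) x := by ring
    _ = _ := by rw [h3 x 0]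

/-- `(1+|x|²)^(-n/2)` is not integrable -/
theorem not_int (n : ℕ) (hn : 1 ≤ n) : ¬ Integrable (wt n (-(n : ℝ) / 2)) := by
  intro hI
  have hI' : Integrable (wt n (-(n : ℝ) / 2 - 1)) := pf_Ip_integrable (by linarith)
  have hfd : (fun x => fderiv ℝ (wt n (-(n : ℝ) / 2)) x x) =
      fun x => 2 * (-(n : ℝ) / 2) * (wt n (-(n : ℝ) / 2) x - wt n (-(n : ℝ) / 2 - 1) x) := by
    funext x
    exact pf_Ip_fderiv _ x
  have hint : Integrable (fun x => fderiv ℝ (wt n (-(n : ℝ) / 2)) x x) := by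
    rw [hfd]
    exact (hI.sub hI').const_mul _
  have h2 := pf_ibp2 pf_ibp n (wt n (-(n : ℝ) / 2)) (pf_Ip_contDiff n _) hI hint
  have h3 : ∀ x : E n, (n : ℝ) * wt n (-(n : ℝ) / 2) x + fderiv ℝ (wt n (-(n : ℝ) / 2)) x x =
      n * wt n (-(n : ℝ) / 2 - 1) x := by
    intro x
    rw [pf_Ip_fderiv]
    ring
  simp only [h3] at h2
  rw [integral_const_mul] at h2
  have hpos : 0 < ∫ x, wt n (-(n : ℝ) / 2 - 1) x :=
    (pf_Ip (pf_ibp2 pf_ibp) n (-(n : ℝ) / 2 - 1) hn (by linarith)).2.1
  have hn0 : (0 : ℝ) < n := by exact_mod_cast hn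
  have := mul_pos hn0 hpos
  linarith

end Pool.Agent.H34WH
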