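import Pool.Agent.H34WH.X2

set_option autoImplicit false

/-!
# Equality without constraint
-/

namespace Pool.Agent.H34WH

open MeasureTheory Set Filter Topology Metric
open scoped ContDiff

/-- equality forces the ground state -/
theorem eq_gs (n : ℕ) (α β : ℝ) (u : E n → ℝ) (hu : FE n α u) (hz : ZM n α u)
    (heq : en n α u = Cst n α * ms n α u)
    (hβ : ∀ x : E n, Cst n α ≤ 2 * β * (n + 2 * (α - 1 - β)) -
      4 * β * (α - 1 - β) / (1 + ‖x‖ ^ 2)) : ∃ c : ℝ, ∀ x, u x = c * wt n (-β) x := by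
  obtain ⟨v, v1, v2, v3, v4, v5, v6, v7⟩ := x1_approx n α hu hz
  refine rem_zero n α β u hu.1 (fatou_zero (F := fun k => rem n α β (v k))
    (fun k => (gs_id n α β (v k) (v1 k) (v2 k)).1) (fun k x => rem_nonneg n α β (v k) x)
    (fun x => rem_tendsto n α β v u x (v6 x) (v7 x)) ?_)
  have h1 : Tendsto (fun k => en n α (v k) - Cst n α * ms n α (v k)) atTop (𝓝 0) := by
    have h2 := v4.sub (v5.const_mul (Cst n α))
    rwa [heq, sub_self] at h2
  refine squeeze_zero (fun k => integral_nonneg fun x => rem_nonneg n α β (v k) x)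
    (fun k => ?_) h1
  have h2 := (gs_id n α β (v k) (v1 k) (v2 k)).2
  have h3 : Cst n α * ms n α (v k) ≤ ∫ x, wt n (α - 1) x * (2 * β * (n + 2 * (α - 1 - β)) -
      4 * β * (α - 1 - β) / (1 + ‖x‖ ^ 2)) * v k x ^ 2 := by
    have hms : Cst n α * ms n α (v k) = ∫ x, wt n (α - 1) x * Cst n α * v k x ^ 2 := by
      unfold ms
      rw [← integral_const_mul]
      congr 1
      funext x
      ring
    rw [hms]
    refine integral_mono ?_ ?_ ?_
    · exact pf_low1_int n _ (v k) (v1 k).continuous (v2 k) (fun _ => Cst n α) continuous_const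
    · refine pf_low1_int n _ (v k) (v1 k).continuous (v2 k) _ ?_
      refine continuous_const.sub (Continuous.div continuous_const (by fun_prop) ?_)
      exact fun x => (pf_gs_pos x).ne'
    · intro x
      exact mul_le_mul_of_nonneg_right (mul_le_mul_of_nonneg_left (hβ x)
        (pf_cut_wt_pos n (α - 1) x).le) (sq_nonneg _)
  linarith

theorem wt_mul (n : ℕ) (p q : ℝ) (x : E n) : wt n p x * wt n q x = wt n (p + q) x := by
  unfold wt
  rw [← Real.rpow_add (pf_gs_pos x)]

theorem eq_free_mid (n : ℕ) (α : ℝ) (hn : 2 ≤ n) (h1 : -((n : ℝ) - 2) / 2 ≤ α)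
    (h2 : α ≤ ((n : ℝ) + 2) / 2) (u : E n → ℝ) (hu : FE n α u)
    (heq : en n α u = Cst n α * ms n α u) : u = 0 := by
  have hn' : (2 : ℝ) ≤ n := by exact_mod_cast hn
  have hC : Cst n α = ((n : ℝ) + 2 * α - 2) ^ 2 / 4 := by
    unfold Cst
    rw [if_neg (by linarith), if_neg (by linarith), if_pos h2]
  set β : ℝ := ((n : ℝ) + 2 * α - 2) / 4 with hβ
  obtain ⟨c, hc⟩ := eq_gs n α β u hu (fun h => absurd h (not_lt.2 h1)) heq (by
    intro x
    have h4 : 2 * β * (n + 2 * (α - 1 - β)) = Cst n α := by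
      rw [hC, hβ]; ring
    have h5 : 4 * β * (α - 1 - β) / (1 + ‖x‖ ^ 2) ≤ 0 := by
      refine div_nonpos_of_nonpos_of_nonneg ?_ (pf_gs_pos x).le
      have hb : 0 ≤ β := by rw [hβ]; linarith
      have hb2 : α - 1 - β ≤ 0 := by rw [hβ]; linarith
      nlinarith
    rw [h4]
    linarith)
  have h3 : ∀ x, wt n (α - 1) x * u x ^ 2 = c ^ 2 * wt n (-(n : ℝ) / 2) x := by
    intro x
    rw [hc x]
    have h4 : wt n (-(n : ℝ) / 2) x = wt n (α - 1) x * (wt n (-β) x * wt n (-β) x) := by
      rw [wt_mul, wt_mul]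
      congr 1
      rw [hβ]
      ring
    rw [h4]
    ring
  have hc0 : c = 0 := by
    by_contra hne
    apply not_int n (by omega)
    have h5 := hu.2.2
    simp only [h3] at h5
    have h6 := h5.const_mul (c ^ 2)⁻¹
    refine h6.congr (Eventually.of_forall fun x => ?_)
    have : c ^ 2 ≠ 0 := pow_ne_zero 2 hne
    simp only
    field_simp
  funext x
  rw [hc x, hc0, zero_mul]
  rfl

theorem eq_free_large (n : ℕ) (α : ℝ) (h2 : ((n : ℝ) + 2) / 2 < α) (u : E n → ℝ)
    (hu : FE n α u) (heq : en n α u = Cst n α * ms n α u) :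
    ∃ c : ℝ, ∀ x, u x = c * wt n (1 - α) x := by
  have hn' : (0 : ℝ) ≤ n := Nat.cast_nonneg n
  have hC : Cst n α = 2 * n * (α - 1) := by
    unfold Cst
    rw [if_neg (by linarith), if_neg (by linarith), if_neg (by linarith)]
  obtain ⟨c, hc⟩ := eq_gs n α (α - 1) u hu (fun h => absurd h (by linarith)) heq (by
    intro x
    rw [hC, sub_self]
    simp only [mul_zero, add_zero, zero_div, sub_zero]
    exact le_of_eq (by ring))
  refine ⟨c, fun x => ?_⟩
  rw [hc x]
  congr 2
  ring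

end Pool.Agent.H34WH
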