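import Pool.Agent.H34WH.X3

set_option autoImplicit false

/-!
# Functions vanishing on a hyperplane: the remainder and the equality case
-/

namespace Pool.Agent.H34WH

open MeasureTheory Set Filter Topology Metric
open scoped ContDiff

/-- the remainder -/
noncomputable def orem (n : ℕ) (α : ℝ) (a : E n) (φ : E n → ℝ) (u : E n → ℝ) (x : E n) : ℝ :=
  wt n α x * (‖fderiv ℝ u x‖ ^ 2 - (fderiv ℝ u x a) ^ 2) +
    wt n α x * (fderiv ℝ u x a - φ x * u x) ^ 2

theorem orem_nonneg (n : ℕ) (α : ℝ) (a : E n) (ha : ‖a‖ = 1) (φ : E n → ℝ) (u : E n → ℝ)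
    (x : E n) : 0 ≤ orem n α a φ u x := by
  have hd : (fderiv ℝ u x a) ^ 2 ≤ ‖fderiv ℝ u x‖ ^ 2 := by
    have h1 := (fderiv ℝ u x).le_opNorm a
    rw [ha, mul_one, Real.norm_eq_abs] at h1
    rw [← sq_abs (fderiv ℝ u x a)]
    exact pow_le_pow_left₀ (abs_nonneg _) h1 2
  have hw := pf_cut_wt_pos n α x
  unfold orem
  have h1 := mul_nonneg hw.le (sub_nonneg.2 hd)
  have h2 := mul_nonneg hw.le (sq_nonneg (fderiv ℝ u x a - φ x * u x))
  linarith

theorem odd_id {n : ℕ} (α : ℝ) (a : E n) (ha : ‖a‖ = 1) (u : E n → ℝ)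
    (hu : ContDiff ℝ 1 u) (hc : HasCompactSupport u) (ε : ℝ) (hε : 0 < ε) :
    Integrable (orem n α a (fun x => inner ℝ a x / (inner ℝ a x ^ 2 + ε ^ 2)) u) ∧
    ∫ x, orem n α a (fun x => inner ℝ a x / (inner ℝ a x ^ 2 + ε ^ 2)) u x =
      en n α u + 2 * α * (∫ x, wt n (α - 1) x * u x ^ 2 *
        (inner ℝ a x ^ 2 / (inner ℝ a x ^ 2 + ε ^ 2))) +
      (∫ x, wt n α x * u x ^ 2 * (ε ^ 2 / (inner ℝ a x ^ 2 + ε ^ 2) ^ 2)) := by
  have hw := pf_odd_wc (n := n) α
  have hv := pf_odd_wc (n := n) (α - 1)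
  have hden : ∀ x : E n, inner ℝ a x ^ 2 + ε ^ 2 ≠ 0 := fun x => by positivity
  have hden2 : ∀ x : E n, (inner ℝ a x ^ 2 + ε ^ 2) ^ 2 ≠ 0 := fun x => by positivity
  have ht : Continuous fun x : E n => (inner ℝ a x : ℝ) := by fun_prop
  have hφ : Continuous fun x : E n => (inner ℝ a x : ℝ) / (inner ℝ a x ^ 2 + ε ^ 2) :=
    ht.div (by fun_prop) hden
  have huc := hu.continuous
  have hdc : Continuous fun x => fderiv ℝ u x a :=
    (hu.continuous_fderiv one_ne_zero).clm_apply continuous_const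
  have hfd : Continuous fun x => ‖fderiv ℝ u x‖ := (hu.continuous_fderiv one_ne_zero).norm
  -- supports
  have hsu : ∀ g : E n → ℝ, Continuous g → Integrable fun x => g x * u x := fun g hg =>
    (hg.mul huc).integrable_of_hasCompactSupport hc.mul_left
  have hsu2 : ∀ g : E n → ℝ, Continuous g → Integrable fun x => g x * u x ^ 2 := fun g hg => by
    have h1 := hsu (fun x => g x * u x) (hg.mul huc)
    refine h1.congr (Filter.Eventually.of_forall fun x => ?_)
    show g x * u x * u x = g x * u x ^ 2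
    ring
  -- F
  obtain ⟨F, hF⟩ : ∃ F : E n → ℝ, F = fun x => wt n α x * (inner ℝ a x / (inner ℝ a x ^ 2 + ε ^ 2)) :=
    ⟨_, rfl⟩
  have hFc : Continuous F := by rw [hF]; exact hw.mul hφ
  have hFd : ∀ x, DifferentiableAt ℝ F x := by
    intro x
    obtain ⟨L, hL, -⟩ := pf_odd_F α a ha ε hε x
    rw [hF]
    exact hL.differentiableAt
  have hFa : ∀ x, fderiv ℝ F x a = 2 * α * (wt n (α - 1) x * inner ℝ a x) *
      (inner ℝ a x / (inner ℝ a x ^ 2 + ε ^ 2)) +
        wt n α x * ((ε ^ 2 - inner ℝ a x ^ 2) / (inner ℝ a x ^ 2 + ε ^ 2) ^ 2) := by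
    intro x
    obtain ⟨L, hL, hLa⟩ := pf_odd_F α a ha ε hε x
    rw [hF, hL.fderiv, hLa]
  have hFac : Continuous fun x => fderiv ℝ F x a := by
    simp only [hFa]
    refine ((continuous_const.mul (hv.mul ht)).mul hφ).add (hw.mul ?_)
    exact Continuous.div (by fun_prop) (by fun_prop) hden2
  have hGd : ∀ x, HasFDerivAt (fun x => u x ^ 2) ((2 * u x) • fderiv ℝ u x) x := by
    intro x
    have h1 := (hu.differentiable one_ne_zero x).hasFDerivAt
    have h2 := (hasDerivAt_pow 2 (u x)).comp_hasFDerivAt x h1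
    refine h2.congr_fderiv ?_
    congr 1
    norm_num
  have hGa : ∀ x, fderiv ℝ (fun x => u x ^ 2) x a = 2 * u x * fderiv ℝ u x a := by
    intro x
    rw [(hGd x).fderiv, _root_.smul_apply, smul_eq_mul]
  have hibp := integral_mul_fderiv_eq_neg_fderiv_mul_of_integrable (μ := volume) (f := F)
    (g := fun x => u x ^ 2) (v := a) (hsu2 _ hFac)
    (by
      have h1 := hsu (fun x => F x * (2 * fderiv ℝ u x a)) (hFc.mul (continuous_const.mul hdc))
      refine h1.congr (Filter.Eventually.of_forall fun x => ?_)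
      show F x * (2 * fderiv ℝ u x a) * u x = F x * fderiv ℝ (fun x => u x ^ 2) x a
      rw [hGa]
      ring)
    (hsu2 _ hFc) (fun x _ => hFd x) (fun x _ => (hGd x).differentiableAt)
  -- the four integrals
  have i1 : Integrable fun x => wt n α x * ‖fderiv ℝ u x‖ ^ 2 := by
    refine (hw.mul (hfd.pow 2)).integrable_of_hasCompactSupport ?_
    have h1 : HasCompactSupport (fun x => ‖fderiv ℝ u x‖ ^ 2) := by
      have h2 := (hc.fderiv ℝ).norm
      exact h2.comp_left (g := fun y : ℝ => y ^ 2) (by norm_num)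
    exact h1.mul_left
  have i2 : Integrable fun x => wt n (α - 1) x * u x ^ 2 *
      (inner ℝ a x ^ 2 / (inner ℝ a x ^ 2 + ε ^ 2)) := by
    have h1 := hsu2 (fun x => wt n (α - 1) x * (inner ℝ a x ^ 2 / (inner ℝ a x ^ 2 + ε ^ 2)))
      (hv.mul (Continuous.div (by fun_prop) (by fun_prop) hden))
    refine h1.congr (Filter.Eventually.of_forall fun x => ?_)
    show wt n (α - 1) x * (inner ℝ a x ^ 2 / (inner ℝ a x ^ 2 + ε ^ 2)) * u x ^ 2 = _
    ring
  have i3 : Integrable fun x => wt n α x * u x ^ 2 *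
      (ε ^ 2 / (inner ℝ a x ^ 2 + ε ^ 2) ^ 2) := by
    have h1 := hsu2 (fun x => wt n α x * (ε ^ 2 / (inner ℝ a x ^ 2 + ε ^ 2) ^ 2))
      (hw.mul (Continuous.div (by fun_prop) (by fun_prop) hden2))
    refine h1.congr (Filter.Eventually.of_forall fun x => ?_)
    show wt n α x * (ε ^ 2 / (inner ℝ a x ^ 2 + ε ^ 2) ^ 2) * u x ^ 2 = _
    ring
  have i4 : Integrable fun x => F x * fderiv ℝ (fun x => u x ^ 2) x a := by
    have h1 := hsu (fun x => F x * (2 * fderiv ℝ u x a)) (hFc.mul (continuous_const.mul hdc))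
    refine h1.congr (Filter.Eventually.of_forall fun x => ?_)
    show F x * (2 * fderiv ℝ u x a) * u x = F x * fderiv ℝ (fun x => u x ^ 2) x a
    rw [hGa]
    ring
  have i5 : Integrable fun x => fderiv ℝ F x a * u x ^ 2 := hsu2 _ hFac
  have hpt : ∀ x, orem n α a (fun x => inner ℝ a x / (inner ℝ a x ^ 2 + ε ^ 2)) u x =
      (wt n α x * ‖fderiv ℝ u x‖ ^ 2 +
      2 * α * (wt n (α - 1) x * u x ^ 2 * (inner ℝ a x ^ 2 / (inner ℝ a x ^ 2 + ε ^ 2))) +
      wt n α x * u x ^ 2 * (ε ^ 2 / (inner ℝ a x ^ 2 + ε ^ 2) ^ 2) -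
      (F x * fderiv ℝ (fun x => u x ^ 2) x a + fderiv ℝ F x a * u x ^ 2)) := by
    intro x
    rw [hGa, hFa, hF]
    have hD := hden x
    unfold orem
    field_simp
    ring
  have hi : Integrable (orem n α a (fun x => inner ℝ a x / (inner ℝ a x ^ 2 + ε ^ 2)) u) := by
    have h1 := (((i1.add (i2.const_mul (2 * α))).add i3).sub (i4.add i5))
    refine h1.congr (Filter.Eventually.of_forall fun x => ?_)
    rw [hpt x]
    rfl
  refine ⟨hi, ?_⟩
  rw [integral_congr_ae (Filter.Eventually.of_forall hpt),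
    pf_odd_split (2 * α) _ _ _ _ _ i1 i2 i3 i4 i5, hibp]
  unfold en
  ring

theorem odd_lim {n : ℕ} (α : ℝ) (a : E n) (ha : ‖a‖ = 1) (u : E n → ℝ)
    (hu : ContDiff ℝ 1 u) (hc : HasCompactSupport u) (h0 : ∀ x, inner ℝ a x = 0 → u x = 0) :
    Tendsto (fun k : ℕ => ∫ x, orem n α a
      (fun x => inner ℝ a x / (inner ℝ a x ^ 2 + (1 / ((k : ℝ) + 1)) ^ 2)) u x) atTop
      (𝓝 (en n α u + 2 * α * ms n α u)) := by
  have hw := pf_odd_wc (n := n) α
  have hv := pf_odd_wc (n := n) (α - 1)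
  have huc := hu.continuous
  have ht : Continuous fun x : E n => (inner ℝ a x : ℝ) := by fun_prop
  obtain ⟨C, hC⟩ := hu.lipschitzWith_of_hasCompactSupport hc one_ne_zero
  have hlip : ∀ x, |u x| ≤ C * |inner ℝ a x| := by
    intro x
    have h1 : u (x - (inner ℝ a x : ℝ) • a) = 0 := by
      apply h0
      rw [inner_sub_right, inner_smul_right, real_inner_self_eq_norm_sq, ha]
      ring
    have h2 := hC.dist_le_mul x (x - (inner ℝ a x : ℝ) • a)
    rw [h1, Real.dist_eq, sub_zero, dist_eq_norm, sub_sub_cancel, norm_smul, ha, mul_one,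
      Real.norm_eq_abs] at h2
    exact h2
  have hε : ∀ k : ℕ, (0 : ℝ) < 1 / ((k : ℝ) + 1) := fun k => by positivity
  have hlimε : Tendsto (fun k : ℕ => (1 : ℝ) / ((k : ℝ) + 1)) atTop (𝓝 0) :=
    tendsto_one_div_add_atTop_nhds_zero_nat
  have hA : Tendsto (fun k : ℕ => ∫ x, wt n (α - 1) x * u x ^ 2 *
      (inner ℝ a x ^ 2 / (inner ℝ a x ^ 2 + (1 / ((k : ℝ) + 1)) ^ 2))) atTop
      (𝓝 (∫ x, wt n (α - 1) x * u x ^ 2)) := by
    refine tendsto_integral_of_dominated_convergence (fun x => wt n (α - 1) x * u x ^ 2) ?_ ?_ ?_ ?_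
    · intro k
      have h1 := hε k
      refine Continuous.aestronglyMeasurable ?_
      refine (hv.mul (huc.pow 2)).mul (Continuous.div (by fun_prop) (by fun_prop) fun x => ?_)
      positivity
    · refine (hv.mul (huc.pow 2)).integrable_of_hasCompactSupport ?_
      have h2 : HasCompactSupport (fun x => u x ^ 2) := by
        exact hc.comp_left (g := fun y : ℝ => y ^ 2) (by norm_num)
      exact h2.mul_left
    · intro k
      refine Filter.Eventually.of_forall fun x => ?_
      have h1 := hε k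
      have h2 := pf_odd_wpos (n := n) (α - 1) x
      rw [Real.norm_eq_abs, abs_of_nonneg (by positivity)]
      refine mul_le_of_le_one_right (by positivity) ?_
      rw [div_le_one (by positivity)]
      have := sq_nonneg (1 / ((k : ℝ) + 1))
      linarith
    · refine Filter.Eventually.of_forall fun x => ?_
      by_cases hx : (inner ℝ a x : ℝ) = 0
      · rw [h0 x hx]
        simp
      · have h1 : Tendsto (fun k : ℕ => wt n (α - 1) x * u x ^ 2 *
            (inner ℝ a x ^ 2 / (inner ℝ a x ^ 2 + (1 / ((k : ℝ) + 1)) ^ 2))) atTop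
            (𝓝 (wt n (α - 1) x * u x ^ 2 * (inner ℝ a x ^ 2 / (inner ℝ a x ^ 2 + 0 ^ 2)))) := by
          refine tendsto_const_nhds.mul (tendsto_const_nhds.div
            (tendsto_const_nhds.add (hlimε.pow 2)) ?_)
          positivity
        have h2 : inner ℝ a x ^ 2 / (inner ℝ a x ^ 2 + 0 ^ 2) = (1 : ℝ) := by
          rw [zero_pow two_ne_zero, add_zero, div_self (by positivity)]
        rw [h2, mul_one] at h1
        exact h1
  have hB : Tendsto (fun k : ℕ => ∫ x, wt n α x * u x ^ 2 *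
      ((1 / ((k : ℝ) + 1)) ^ 2 / (inner ℝ a x ^ 2 + (1 / ((k : ℝ) + 1)) ^ 2) ^ 2)) atTop
      (𝓝 (∫ x : E n, (0 : ℝ))) := by
    refine tendsto_integral_of_dominated_convergence
      (Set.indicator (tsupport u) (fun x => wt n α x * (C : ℝ) ^ 2)) ?_ ?_ ?_ ?_
    · intro k
      have h1 := hε k
      refine Continuous.aestronglyMeasurable ?_
      refine (hw.mul (huc.pow 2)).mul (Continuous.div (by fun_prop) (by fun_prop) fun x => ?_)
      positivity
    · rw [integrable_indicator_iff (isClosed_tsupport u).measurableSet]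
      exact (hw.mul continuous_const).continuousOn.integrableOn_compact hc
    · intro k
      refine Filter.Eventually.of_forall fun x => ?_
      have h1 := hε k
      have h2 := pf_odd_wpos (n := n) α x
      by_cases hx : x ∈ tsupport u
      · rw [Set.indicator_of_mem hx, Real.norm_eq_abs, abs_of_nonneg (by positivity), mul_assoc]
        refine mul_le_mul_of_nonneg_left ?_ h2.le
        obtain ⟨ε, hεk⟩ : ∃ ε : ℝ, ε = 1 / ((k : ℝ) + 1) := ⟨_, rfl⟩
        obtain ⟨τ, hτ⟩ : ∃ τ : ℝ, τ = inner ℝ a x := ⟨_, rfl⟩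
        have h3 := hlip x
        rw [← hεk] at h1 ⊢
        rw [← hτ] at h3 ⊢
        have h4 : u x ^ 2 ≤ (C : ℝ) ^ 2 * τ ^ 2 := by
          rw [← sq_abs (u x), ← sq_abs τ, ← mul_pow]
          exact pow_le_pow_left₀ (abs_nonneg _) h3 2
        have h5 : (0 : ℝ) ≤ ε ^ 2 / (τ ^ 2 + ε ^ 2) ^ 2 := by positivity
        refine (mul_le_mul_of_nonneg_right h4 h5).trans ?_
        rw [mul_assoc]
        refine mul_le_of_le_one_right (by positivity) ?_
        rw [← mul_div_assoc, div_le_one (by positivity)]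
        nlinarith [sq_nonneg (τ ^ 2), sq_nonneg (ε ^ 2), mul_nonneg (sq_nonneg τ) (sq_nonneg ε)]
      · rw [Set.indicator_of_notMem hx, image_eq_zero_of_notMem_tsupport hx]
        simp
    · refine Filter.Eventually.of_forall fun x => ?_
      by_cases hx : (inner ℝ a x : ℝ) = 0
      · rw [h0 x hx]
        simp
      · have h1 : Tendsto (fun k : ℕ => wt n α x * u x ^ 2 *
            ((1 / ((k : ℝ) + 1)) ^ 2 / (inner ℝ a x ^ 2 + (1 / ((k : ℝ) + 1)) ^ 2) ^ 2)) atTop
            (𝓝 (wt n α x * u x ^ 2 * (0 ^ 2 / (inner ℝ a x ^ 2 + 0 ^ 2) ^ 2))) := by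
          refine tendsto_const_nhds.mul ((hlimε.pow 2).div
            ((tendsto_const_nhds.add (hlimε.pow 2)).pow 2) ?_)
          positivity
        have h2 : (0 : ℝ) ^ 2 / (inner ℝ a x ^ 2 + 0 ^ 2) ^ 2 = 0 := by
          rw [zero_pow two_ne_zero, zero_div]
        rw [h2, mul_zero] at h1
        exact h1
  have hlim := ((tendsto_const_nhds (x := en n α u)).add (hA.const_mul (2 * α))).add hB
  rw [integral_zero, add_zero] at hlim
  refine hlim.congr fun k => ?_
  rw [(odd_id α a ha u hu hc _ (hε k)).2]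


/-- a function with `∇u(y)·y = u(y)` along a ray is linear along it -/
theorem euler {n : ℕ} (u : E n → ℝ) (hu : ContDiff ℝ 1 u) (h0 : u 0 = 0) (x : E n)
    (h : ∀ s : ℝ, 0 < s → fderiv ℝ u (s • x) (s • x) = u (s • x)) : u x = fderiv ℝ u 0 x := by
  have hd : ∀ y, HasFDerivAt u (fderiv ℝ u y) y := fun y =>
    (hu.differentiable one_ne_zero y).hasFDerivAt
  have hψ : ∀ r : ℝ, HasDerivAt (fun r : ℝ => u (Real.exp r • x) * Real.exp (-r)) 0 r := by
    intro r
    have h1 : HasDerivAt (fun r : ℝ => Real.exp r • x) (Real.exp r • x) r :=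
      (Real.hasDerivAt_exp r).smul_const x
    have h2 := (hd (Real.exp r • x)).comp_hasDerivAt r h1
    have h3 : HasDerivAt (fun r : ℝ => Real.exp (-r)) (-Real.exp (-r)) r := by
      have := (hasDerivAt_neg r).exp
      simpa using this
    refine (h2.mul h3).congr_deriv ?_
    rw [h _ (Real.exp_pos r)]
    simp only [Function.comp_apply]
    ring
  have hc : ∀ r : ℝ, u (Real.exp r • x) * Real.exp (-r) = u x := by
    intro r
    have h1 := is_const_of_deriv_eq_zero (f := fun r : ℝ => u (Real.exp r • x) * Real.exp (-r))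
      (fun r => (hψ r).differentiableAt) (fun r => (hψ r).deriv) r 0
    simp only [Real.exp_zero, one_smul, neg_zero, mul_one] at h1
    exact h1
  have hlim : Tendsto (fun s : ℝ => s⁻¹ • (u (s • x) - u 0)) (𝓝[≠] 0) (𝓝 (fderiv ℝ u 0 x)) := by
    have h1 : HasDerivAt (fun s : ℝ => s • x) x 0 := by
      simpa using (hasDerivAt_id (0 : ℝ)).smul_const x
    have h2 : HasFDerivAt u (fderiv ℝ u 0) ((0 : ℝ) • x) := by
      rw [zero_smul]
      exact hd 0
    have h3 := (h2.comp_hasDerivAt (0 : ℝ) h1).tendsto_slope_zero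
    simpa using h3
  have hexp : Tendsto (fun r : ℝ => Real.exp r) atBot (𝓝[≠] 0) := by
    refine tendsto_nhdsWithin_iff.2 ⟨Real.tendsto_exp_atBot, ?_⟩
    exact Eventually.of_forall fun r => (Real.exp_pos r).ne'
  have h5 := hlim.comp hexp
  refine tendsto_nhds_unique ?_ h5
  refine tendsto_const_nhds.congr fun r => ?_
  simp only [Function.comp_apply, smul_eq_mul, h0, sub_zero]
  rw [← hc r, Real.exp_neg]
  ring

/-- equality for functions vanishing on a hyperplane forces linearity -/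
theorem eq_odd (n : ℕ) (α : ℝ) (a : E n) (ha : ‖a‖ = 1) (u : E n → ℝ) (hu : FE n α u)
    (h0 : ∀ x, inner ℝ a x = 0 → u x = 0) (heq : en n α u + 2 * α * ms n α u = 0) :
    ∀ x, u x = fderiv ℝ u 0 x := by
  -- the cut-offs
  set v : ℕ → E n → ℝ := fun k x => pf_cut_X n k x * u x - 0 * (0 : ℝ) with hv
  obtain ⟨k1, k2⟩ := x1_key n α hu.1 hu.2.1 hu.2.2 (η := fun _ => (0 : ℝ)) contDiff_const
      HasCompactSupport.zero (fun _ => 0) tendsto_const_nhds
  have v1 : ∀ k, ContDiff ℝ 1 (v k) := fun k =>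
    x1_cd n hu.1 (η := fun _ => (0 : ℝ)) contDiff_const 0 k
  have v2 : ∀ k, HasCompactSupport (v k) := fun k =>
    ((pf_cut_X_cs n k).mul_right).sub
      ((HasCompactSupport.zero : HasCompactSupport (fun _ : E n => (0 : ℝ))).mul_left
        (f := fun _ => (0 : ℝ)))
  have v3 : ∀ k x, inner ℝ a x = 0 → v k x = 0 := by
    intro k x hx
    simp only [hv, h0 x hx]
    ring
  have v6 : ∀ x, Tendsto (fun k => v k x) atTop (𝓝 (u x)) := by
    intro x
    have c1 := (pf_cut_X_tendsto n x).mul_const (u x)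
    rw [one_mul] at c1
    refine c1.congr fun k => ?_
    simp only [hv]
    ring
  have v7 : ∀ x, Tendsto (fun k => fderiv ℝ (v k) x) atTop (𝓝 (fderiv ℝ u x)) := by
    intro x
    have c1 := ((pf_cut_X_tendsto n x).smul_const (fderiv ℝ u x)).add
      ((pf_cut_DX_tendsto n x).const_smul (u x))
    rw [one_smul, smul_zero, add_zero] at c1
    refine c1.congr fun k => ?_
    have := x1_D n hu.1 (η := fun _ => (0 : ℝ)) contDiff_const 0 k x
    simp only [hv]
    rw [this, zero_smul, sub_zero]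
  have hm : ∀ k : ℕ, ∃ m : ℕ, k ≤ m ∧ ∫ x, orem n α a
      (fun x => inner ℝ a x / (inner ℝ a x ^ 2 + (1 / ((m : ℝ) + 1)) ^ 2)) (v k) x <
      en n α (v k) + 2 * α * ms n α (v k) + 1 / ((k : ℝ) + 1) := by
    intro k
    have h1 := odd_lim α a ha (v k) (v1 k) (v2 k) (v3 k)
    have h2 : (0 : ℝ) < 1 / ((k : ℝ) + 1) := by positivity
    have h3 := (h1.eventually_lt_const (show en n α (v k) + 2 * α * ms n α (v k) <
      en n α (v k) + 2 * α * ms n α (v k) + 1 / ((k : ℝ) + 1) by linarith)).and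
      (eventually_ge_atTop k)
    obtain ⟨m, hm1, hm2⟩ := h3.exists
    exact ⟨m, hm2, hm1⟩
  choose m hmk hmI using hm
  have hε : ∀ k : ℕ, (0 : ℝ) < 1 / ((m k : ℝ) + 1) := fun k => by positivity
  have hlimε : Tendsto (fun k : ℕ => (1 : ℝ) / ((m k : ℝ) + 1)) atTop (𝓝 0) := by
    have h1 : Tendsto m atTop atTop := tendsto_atTop_mono hmk tendsto_id
    exact tendsto_one_div_add_atTop_nhds_zero_nat.comp h1
  have hfat : ∀ᵐ x, orem n α a (fun x => (inner ℝ a x)⁻¹) u x = 0 := by
    refine fatou_zero (F := fun k => orem n α a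
      (fun x => inner ℝ a x / (inner ℝ a x ^ 2 + (1 / ((m k : ℝ) + 1)) ^ 2)) (v k))
      (fun k => (odd_id α a ha (v k) (v1 k) (v2 k) _ (hε k)).1)
      (fun k x => orem_nonneg n α a ha _ (v k) x) (fun x => ?_) ?_
    · unfold orem
      have c1 : Tendsto (fun k => inner ℝ a x / (inner ℝ a x ^ 2 + (1 / ((m k : ℝ) + 1)) ^ 2))
          atTop (𝓝 (inner ℝ a x)⁻¹) := by
        by_cases hx : (inner ℝ a x : ℝ) = 0
        · rw [hx]
          simp
        · have h2 : Tendsto (fun k => inner ℝ a x /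
              (inner ℝ a x ^ 2 + (1 / ((m k : ℝ) + 1)) ^ 2)) atTop
              (𝓝 (inner ℝ a x / (inner ℝ a x ^ 2 + 0 ^ 2))) := by
            refine tendsto_const_nhds.div (tendsto_const_nhds.add (hlimε.pow 2)) ?_
            positivity
          have h3 : inner ℝ a x / (inner ℝ a x ^ 2 + 0 ^ 2) = (inner ℝ a x : ℝ)⁻¹ := by
            field_simp
            ring
          rwa [h3] at h2
      have c2 : Tendsto (fun k => fderiv ℝ (v k) x a) atTop (𝓝 (fderiv ℝ u x a)) :=
        ((ContinuousLinearMap.apply ℝ ℝ a).continuous.tendsto _).comp (v7 x)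
      exact ((((v7 x).norm.pow 2).sub (c2.pow 2)).const_mul _).add
        (((c2.sub (c1.mul (v6 x))).pow 2).const_mul _)
    · refine squeeze_zero (fun k => integral_nonneg fun x => orem_nonneg n α a ha _ (v k) x)
        (fun k => (hmI k).le) ?_
      have h1 := (k1.add (k2.const_mul (2 * α))).add
        (tendsto_one_div_add_atTop_nhds_zero_nat (𝕜 := ℝ))
      rw [heq, add_zero] at h1
      exact h1
  -- the continuous version
  have ht : Continuous fun x : E n => (inner ℝ a x : ℝ) := by fun_prop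
  have hdc : Continuous fun x => fderiv ℝ u x a :=
    (hu.1.continuous_fderiv one_ne_zero).clm_apply continuous_const
  have hfd : Continuous fun x => ‖fderiv ℝ u x‖ := (hu.1.continuous_fderiv one_ne_zero).norm
  set f2 : E n → ℝ := fun x => wt n α x * ((‖fderiv ℝ u x‖ ^ 2 - (fderiv ℝ u x a) ^ 2) *
    inner ℝ a x ^ 2 + (inner ℝ a x * fderiv ℝ u x a - u x) ^ 2) with hf2
  have hf2c : Continuous f2 := (pf_cut_wt_cont n α).mul
    ((((hfd.pow 2).sub (hdc.pow 2)).mul (ht.pow 2)).add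
      (((ht.mul hdc).sub hu.1.continuous).pow 2))
  have hf20 : f2 = fun _ => 0 := by
    refine (hf2c.ae_eq_iff_eq volume continuous_const).1 ?_
    filter_upwards [hfat] with x hx
    by_cases hx0 : (inner ℝ a x : ℝ) = 0
    · simp only [hf2, hx0, h0 x hx0]
      ring
    · have h1 : f2 x = inner ℝ a x ^ 2 * orem n α a (fun x => (inner ℝ a x)⁻¹) u x := by
        simp only [hf2]
        unfold orem
        field_simp
      rw [h1, hx, mul_zero]
  have hd : ∀ y, HasFDerivAt u (fderiv ℝ u y) y := fun y =>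
    (hu.1.differentiable one_ne_zero y).hasFDerivAt
  have hmain : ∀ x, inner ℝ a x * fderiv ℝ u x x = inner ℝ a x * u x := by
    intro x
    have h1 := congrFun hf20 x
    simp only [hf2] at h1
    have h2 : (‖fderiv ℝ u x‖ ^ 2 - (fderiv ℝ u x a) ^ 2) *
      inner ℝ a x ^ 2 + (inner ℝ a x * fderiv ℝ u x a - u x) ^ 2 = 0 := by
      rcases mul_eq_zero.1 h1 with h4 | h4
      · exact absurd h4 (pf_cut_wt_pos n α x).ne'
      · exact h4
    have h3 : (fderiv ℝ u x a) ^ 2 ≤ ‖fderiv ℝ u x‖ ^ 2 := by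
      have h1 := (fderiv ℝ u x).le_opNorm a
      rw [ha, mul_one, Real.norm_eq_abs] at h1
      rw [← sq_abs (fderiv ℝ u x a)]
      exact pow_le_pow_left₀ (abs_nonneg _) h1 2
    have h4 : 0 ≤ (‖fderiv ℝ u x‖ ^ 2 - (fderiv ℝ u x a) ^ 2) * inner ℝ a x ^ 2 :=
      mul_nonneg (sub_nonneg.2 h3) (sq_nonneg _)
    have h5 : inner ℝ a x * fderiv ℝ u x a - u x = 0 := by
      have : (inner ℝ a x * fderiv ℝ u x a - u x) ^ 2 = 0 := by
        have := sq_nonneg (inner ℝ a x * fderiv ℝ u x a - u x)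
        linarith
      exact pow_eq_zero_iff (two_ne_zero) |>.1 this
    have h6 : (‖fderiv ℝ u x‖ ^ 2 - (fderiv ℝ u x a) ^ 2) * inner ℝ a x ^ 2 = 0 := by
      have := sq_nonneg (inner ℝ a x * fderiv ℝ u x a - u x)
      linarith
    have h7 : ‖(inner ℝ a x : ℝ) • fderiv ℝ u x + (-(u x)) • innerSL ℝ a‖ ^ 2 = 0 := by
      rw [dual_sq, norm_smul, Real.norm_eq_abs, mul_pow, sq_abs, ha]
      have h8 : u x = inner ℝ a x * fderiv ℝ u x a := by linarith
      simp only [_root_.smul_apply, smul_eq_mul]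
      rw [h8]
      linear_combination h6
    have h9 := norm_eq_zero.1 (pow_eq_zero_iff (two_ne_zero) |>.1 h7)
    have h10 := congrArg (fun L : E n →L[ℝ] ℝ => L x) h9
    simp only [_root_.add_apply, _root_.smul_apply, smul_eq_mul, innerSL_apply_apply,
      _root_.zero_apply] at h10
    linarith
  intro x
  by_cases hx0 : (inner ℝ a x : ℝ) = 0
  · -- both sides vanish
    rw [h0 x hx0]
    have h1 : HasDerivAt (fun s : ℝ => s • x) x 0 := by
      simpa using (hasDerivAt_id (0 : ℝ)).smul_const x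
    have h2 : HasFDerivAt u (fderiv ℝ u 0) ((0 : ℝ) • x) := by
      rw [zero_smul]
      exact hd 0
    have h3 := h2.comp_hasDerivAt (0 : ℝ) h1
    have h4 : (u ∘ fun s : ℝ => s • x) = fun _ => 0 := by
      funext s
      simp only [Function.comp_apply]
      apply h0
      rw [inner_smul_right, hx0, mul_zero]
    rw [h4] at h3
    exact (hasDerivAt_const (0 : ℝ) (0 : ℝ)).unique h3
  · refine euler u hu.1 (h0 0 (inner_zero_right a)) x fun s hs => ?_
    have h1 := hmain (s • x)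
    have h2 : (inner ℝ a (s • x) : ℝ) ≠ 0 := by
      rw [inner_smul_right]
      exact mul_ne_zero hs.ne' hx0
    exact mul_left_cancel₀ h2 h1

end Pool.Agent.H34WH
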