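import Pool.Agent.H34WH.X4
import Pool.Agent.H34WH.P_u4

set_option autoImplicit false

/-!
# Algebra of the energy space, reflections, and explicit functions
-/

namespace Pool.Agent.H34WH

open MeasureTheory Set Filter Topology Metric
open scoped ContDiff

theorem par_norm {n : ℕ} (A B : E n →L[ℝ] ℝ) :
    ‖A + B‖ ^ 2 + ‖A - B‖ ^ 2 = 2 * (‖A‖ ^ 2 + ‖B‖ ^ 2) := by
  have e : ∀ L : E n →L[ℝ] ℝ, ‖L‖ = ‖(InnerProductSpace.toDual ℝ (E n)).symm L‖ := fun L =>
    (LinearIsometryEquiv.norm_map _ _).symm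
  rw [e (A + B), e (A - B), e A, e B, map_add, map_sub]
  have h := parallelogram_law_with_norm_mul ℝ ((InnerProductSpace.toDual ℝ (E n)).symm A)
    ((InnerProductSpace.toDual ℝ (E n)).symm B)
  nlinarith [h]

theorem fderiv_add' {n : ℕ} {f g : E n → ℝ} (hf : ContDiff ℝ 1 f) (hg : ContDiff ℝ 1 g) (x : E n) :
    fderiv ℝ (fun x => f x + g x) x = fderiv ℝ f x + fderiv ℝ g x :=
  (((hf.differentiable one_ne_zero x).hasFDerivAt).add
    ((hg.differentiable one_ne_zero x).hasFDerivAt)).fderiv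

theorem fderiv_sub' {n : ℕ} {f g : E n → ℝ} (hf : ContDiff ℝ 1 f) (hg : ContDiff ℝ 1 g) (x : E n) :
    fderiv ℝ (fun x => f x - g x) x = fderiv ℝ f x - fderiv ℝ g x :=
  (((hf.differentiable one_ne_zero x).hasFDerivAt).sub
    ((hg.differentiable one_ne_zero x).hasFDerivAt)).fderiv

theorem fderiv_smul' {n : ℕ} {f : E n → ℝ} (hf : ContDiff ℝ 1 f) (c : ℝ) (x : E n) :
    fderiv ℝ (fun x => c * f x) x = c • fderiv ℝ f x :=
  (((hf.differentiable one_ne_zero x).hasFDerivAt).const_mul c).fderiv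

theorem FE_add {n : ℕ} {α : ℝ} {f g : E n → ℝ} (hf : FE n α f) (hg : FE n α g) :
    FE n α (fun x => f x + g x) := by
  refine ⟨hf.1.add hg.1, ?_, ?_⟩
  · refine ((hf.2.1.const_mul 2).add (hg.2.1.const_mul 2)).mono' ?_ (Eventually.of_forall fun x => ?_)
    · exact ((pf_cut_wt_cont n α).mul
        (((hf.1.add hg.1).continuous_fderiv one_ne_zero).norm.pow 2)).aestronglyMeasurable
    · have hw := pf_cut_wt_pos n α x
      rw [Real.norm_of_nonneg (by positivity), fderiv_add' hf.1 hg.1]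
      have h1 := par_norm (fderiv ℝ f x) (fderiv ℝ g x)
      have h2 := sq_nonneg ‖fderiv ℝ f x - fderiv ℝ g x‖
      have h3 : ‖fderiv ℝ f x + fderiv ℝ g x‖ ^ 2 ≤
        2 * (‖fderiv ℝ f x‖ ^ 2 + ‖fderiv ℝ g x‖ ^ 2) := by linarith
      have h4 := mul_le_mul_of_nonneg_left h3 hw.le
      simp only [Pi.add_apply]
      linarith
  · refine ((hf.2.2.const_mul 2).add (hg.2.2.const_mul 2)).mono' ?_ (Eventually.of_forall fun x => ?_)
    · exact ((pf_cut_wt_cont n (α - 1)).mul
        ((hf.1.add hg.1).continuous.pow 2)).aestronglyMeasurable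
    · have hw := pf_cut_wt_pos n (α - 1) x
      rw [Real.norm_of_nonneg (by positivity)]
      have h3 : (f x + g x) ^ 2 ≤ 2 * (f x ^ 2 + g x ^ 2) := by nlinarith [sq_nonneg (f x - g x)]
      have h4 := mul_le_mul_of_nonneg_left h3 hw.le
      simp only [Pi.add_apply]
      linarith

theorem FE_smul {n : ℕ} {α : ℝ} {f : E n → ℝ} (hf : FE n α f) (c : ℝ) :
    FE n α (fun x => c * f x) := by
  refine ⟨contDiff_const.mul hf.1, ?_, ?_⟩
  · refine (hf.2.1.const_mul (c ^ 2)).congr (Eventually.of_forall fun x => ?_)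
    simp only
    rw [fderiv_smul' hf.1, norm_smul, mul_pow, Real.norm_eq_abs, sq_abs]
    ring
  · refine (hf.2.2.const_mul (c ^ 2)).congr (Eventually.of_forall fun x => ?_)
    simp only
    ring

theorem FE_sub {n : ℕ} {α : ℝ} {f g : E n → ℝ} (hf : FE n α f) (hg : FE n α g) :
    FE n α (fun x => f x - g x) := by
  have h := FE_add hf (FE_smul hg (-1))
  have e : (fun x => f x + -1 * g x) = fun x => f x - g x := by
    funext x; ring
  rwa [e] at h

theorem en_smul {n : ℕ} {α : ℝ} {f : E n → ℝ} (hf : ContDiff ℝ 1 f) (c : ℝ) :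
    en n α (fun x => c * f x) = c ^ 2 * en n α f := by
  unfold en
  rw [← integral_const_mul]
  refine integral_congr_ae (Eventually.of_forall fun x => ?_)
  simp only
  rw [fderiv_smul' hf, norm_smul, mul_pow, Real.norm_eq_abs, sq_abs]
  ring

theorem ms_smul {n : ℕ} {α : ℝ} (f : E n → ℝ) (c : ℝ) :
    ms n α (fun x => c * f x) = c ^ 2 * ms n α f := by
  unfold ms
  rw [← integral_const_mul]
  refine integral_congr_ae (Eventually.of_forall fun x => ?_)
  simp only
  ring

theorem en_par {n : ℕ} {α : ℝ} {f g : E n → ℝ} (hf : FE n α f) (hg : FE n α g) :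
    en n α (fun x => f x + g x) + en n α (fun x => f x - g x) = 2 * (en n α f + en n α g) := by
  have h1 := (FE_add hf hg).2.1
  have h2 := (FE_sub hf hg).2.1
  unfold en
  rw [← integral_add h1 h2, ← integral_add hf.2.1 hg.2.1, ← integral_const_mul]
  refine integral_congr_ae (Eventually.of_forall fun x => ?_)
  simp only
  rw [fderiv_add' hf.1 hg.1, fderiv_sub' hf.1 hg.1]
  linear_combination (wt n α x) * par_norm (fderiv ℝ f x) (fderiv ℝ g x)

theorem ms_par {n : ℕ} {α : ℝ} {f g : E n → ℝ} (hf : FE n α f) (hg : FE n α g) :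
    ms n α (fun x => f x + g x) + ms n α (fun x => f x - g x) = 2 * (ms n α f + ms n α g) := by
  have h1 := (FE_add hf hg).2.2
  have h2 := (FE_sub hf hg).2.2
  unfold ms
  rw [← integral_add h1 h2, ← integral_add hf.2.2 hg.2.2, ← integral_const_mul]
  refine integral_congr_ae (Eventually.of_forall fun x => ?_)
  simp only
  ring

theorem ZM_add {n : ℕ} {α : ℝ} {f g : E n → ℝ} (hf : FE n α f) (hg : FE n α g) (zf : ZM n α f)
    (zg : ZM n α g) : ZM n α (fun x => f x + g x) := by
  intro h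
  have h1 := integral_add (FE_int1 hf h) (FE_int1 hg h)
  rw [zf h, zg h, add_zero] at h1
  rw [← h1]
  refine integral_congr_ae (Eventually.of_forall fun x => ?_)
  simp only
  ring

theorem ZM_sub {n : ℕ} {α : ℝ} {f g : E n → ℝ} (hf : FE n α f) (hg : FE n α g) (zf : ZM n α f)
    (zg : ZM n α g) : ZM n α (fun x => f x - g x) := by
  intro h
  have h1 := integral_sub (FE_int1 hf h) (FE_int1 hg h)
  rw [zf h, zg h, sub_zero] at h1
  rw [← h1]
  refine integral_congr_ae (Eventually.of_forall fun x => ?_)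
  simp only
  ring

theorem ZM_smul {n : ℕ} {α : ℝ} {f : E n → ℝ} (zf : ZM n α f) (c : ℝ) :
    ZM n α (fun x => c * f x) := by
  intro h
  have h1 : ∀ x, wt n (α - 1) x * (c * f x) = c * (wt n (α - 1) x * f x) := fun x => by ring
  simp only [h1]
  rw [integral_const_mul, zf h, mul_zero]

/-- the extremal functions form a class closed under sums and differences -/
theorem eq_add_sub {n : ℕ} {α : ℝ} (hn : 2 ≤ n) {f g : E n → ℝ} (hf : FE n α f) (hg : FE n α g)
    (zf : ZM n α f) (zg : ZM n α g) (ef : en n α f = Cst n α * ms n α f)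
    (eg : en n α g = Cst n α * ms n α g) :
    en n α (fun x => f x + g x) = Cst n α * ms n α (fun x => f x + g x) ∧
    en n α (fun x => f x - g x) = Cst n α * ms n α (fun x => f x - g x) := by
  have h1 := low_FE n α hn _ (FE_add hf hg) (ZM_add hf hg zf zg)
  have h2 := low_FE n α hn _ (FE_sub hf hg) (ZM_sub hf hg zf zg)
  have h3 := en_par hf hg
  have h4 := ms_par hf hg
  have h5 : Cst n α * ms n α (fun x => f x + g x) + Cst n α * ms n α (fun x => f x - g x) =
      2 * (Cst n α * ms n α f + Cst n α * ms n α g) := by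
    rw [← mul_add, h4]
    ring
  constructor <;> linarith

/-- reflections preserve everything -/
theorem refl_all {n : ℕ} {α : ℝ} (a : E n) (ha : ‖a‖ = 1) {u : E n → ℝ} (hu : FE n α u) :
    FE n α (fun x => u (Rf a x)) ∧ en n α (fun x => u (Rf a x)) = en n α u ∧
      ms n α (fun x => u (Rf a x)) = ms n α u ∧
      ∫ x, wt n (α - 1) x * u (Rf a x) = ∫ x, wt n (α - 1) x * u x := by
  have hRe : ∀ x, pf_red_R a x = Rf a x := pf_red_R_apply a ha
  have hmp := (pf_red_R a).measurePreserving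
  have hme := (pf_red_R a).toHomeomorph.measurableEmbedding
  have hw : (fun x => u (Rf a x)) = u ∘ (pf_red_R a) := by
    funext y
    simp only [Function.comp_apply, hRe]
  have e1 : ∀ x, wt n α x * ‖fderiv ℝ (fun y => u (Rf a y)) x‖ ^ 2 =
      (fun x => wt n α x * ‖fderiv ℝ u x‖ ^ 2) (pf_red_R a x) := by
    intro x
    simp only [hRe, pf_red_fderiv a ha u hu.1, pf_red_wt a ha]
  have e2 : ∀ x, wt n (α - 1) x * (u (Rf a x)) ^ 2 =
      (fun x => wt n (α - 1) x * u x ^ 2) (pf_red_R a x) := by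
    intro x
    simp only [hRe, pf_red_wt a ha]
  refine ⟨⟨?_, ?_, ?_⟩, ?_, ?_, ?_⟩
  · rw [hw]
    exact hu.1.comp (pf_red_R a).contDiff
  · simp only [e1]
    exact (hmp.integrable_comp_emb hme).2 hu.2.1
  · simp only [e2]
    exact (hmp.integrable_comp_emb hme).2 hu.2.2
  · unfold en
    rw [← pf_red_cov a ha (fun x => wt n α x * ‖fderiv ℝ u x‖ ^ 2)]
    refine integral_congr_ae (Filter.Eventually.of_forall fun x => ?_)
    simp only [pf_red_fderiv a ha u hu.1, pf_red_wt a ha]
  · unfold ms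
    rw [← pf_red_cov a ha (fun x => wt n (α - 1) x * u x ^ 2)]
    refine integral_congr_ae (Filter.Eventually.of_forall fun x => ?_)
    simp only [pf_red_wt a ha]
  · rw [← pf_red_cov a ha (fun x => wt n (α - 1) x * u x)]
    refine integral_congr_ae (Filter.Eventually.of_forall fun x => ?_)
    simp only [pf_red_wt a ha]

/-- the inequality for functions vanishing on a hyperplane, on the energy space -/
theorem odd_FE (n : ℕ) (α : ℝ) (hα : α < 0) (a : E n) (ha : ‖a‖ = 1) (u : E n → ℝ)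
    (hu : FE n α u) (h0 : ∀ x, inner ℝ a x = 0 → u x = 0) : -2 * α * ms n α u ≤ en n α u := by
  obtain ⟨k1, k2⟩ := x1_key n α hu.1 hu.2.1 hu.2.2 (η := fun _ => (0 : ℝ)) contDiff_const
      HasCompactSupport.zero (fun _ => 0) tendsto_const_nhds
  refine le_of_tendsto_of_tendsto' (k2.const_mul (-2 * α)) k1 fun k => ?_
  refine pf_odd n α hα a ha _ (x1_cd n hu.1 (η := fun _ => (0 : ℝ)) contDiff_const 0 k)
    (((pf_cut_X_cs n k).mul_right).sub
      ((HasCompactSupport.zero : HasCompactSupport (fun _ : E n => (0 : ℝ))).mul_left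
        (f := fun _ => (0 : ℝ)))) fun x hx => ?_
  simp only [h0 x hx]
  ring

/-- functions with vanishing mass -/
theorem ms_zero {n : ℕ} {α : ℝ} {u : E n → ℝ} (hu : FE n α u) (h : ms n α u = 0) :
    ∀ x, u x = 0 := by
  have hc : Continuous fun x => wt n (α - 1) x * u x ^ 2 :=
    (pf_cut_wt_cont n (α - 1)).mul (hu.1.continuous.pow 2)
  unfold ms at h
  have h1 := (integral_eq_zero_iff_of_nonneg (fun x =>
    mul_nonneg (pf_cut_wt_pos n (α - 1) x).le (sq_nonneg _)) hu.2.2).1 h
  have h2 := (hc.ae_eq_iff_eq volume continuous_const).1 h1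
  intro x
  have h3 : wt n (α - 1) x * u x ^ 2 = 0 := congrFun h2 x
  rcases mul_eq_zero.1 h3 with h4 | h4
  · exact absurd h4 (pf_cut_wt_pos n _ x).ne'
  · exact pow_eq_zero_iff (two_ne_zero) |>.1 h4

theorem Cst_lt (n : ℕ) (α : ℝ) (hn : 2 ≤ n) (hα : α < -((n : ℝ) - 2) / 2)
    (h : ¬ α ≤ -(n : ℝ)) : Cst n α < -2 * α := by
  have hn' : (2 : ℝ) ≤ n := by exact_mod_cast hn
  push Not at h
  unfold Cst
  rw [if_neg (by linarith)]
  split_ifs with h2 h3
  · linarith
  · push Not at h2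
    have y0 : 0 < -((n : ℝ) + 2 * α - 2) := by linarith
    have y4 : -((n : ℝ) + 2 * α - 2) < 4 := by linarith
    nlinarith [mul_pos y0 (sub_pos.mpr y4)]
  · push Not at h3
    linarith

/-- linear functions are extremal for `α ≤ -n` -/
theorem lin_id (n : ℕ) (α : ℝ) (hn : 2 ≤ n) (hα : α ≤ -(n : ℝ)) (L : E n →L[ℝ] ℝ) :
    FE n α (fun x => L x) ∧ ZM n α (fun x => L x) ∧
      en n α (fun x => L x) = Cst n α * ms n α (fun x => L x) := by
  have hn' : (2 : ℝ) ≤ n := by exact_mod_cast hn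
  have hC : Cst n α = -2 * α := by
    unfold Cst
    rw [if_pos hα]
  obtain ⟨a, rfl⟩ : ∃ a : E n, L = innerSL ℝ a :=
    ⟨(InnerProductSpace.toDual ℝ (E n)).symm L, by
      ext x
      rw [innerSL_apply_apply, InnerProductSpace.toDual_symm_apply]⟩
  have hfd : ∀ x : E n, fderiv ℝ (fun x : E n => innerSL ℝ a x) x = innerSL ℝ a :=
    fun x => (innerSL ℝ a).fderiv
  have hI : Integrable (wt n α) := pf_Ip_integrable (by linarith)
  have hI2 : Integrable (wt n (α + 1 / 2)) := pf_Ip_integrable (by linarith)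
  have hIm : Integrable (wt n (α - 1)) := pf_Ip_integrable (by linarith)
  have hFE : FE n α (fun x => innerSL ℝ a x) := by
    refine ⟨(innerSL ℝ a).contDiff, ?_, ?_⟩
    · simp only [hfd]
      exact hI.mul_const _
    · refine (hI.const_mul (‖a‖ ^ 2)).mono' ?_ (Eventually.of_forall fun x => ?_)
      · exact ((pf_cut_wt_cont n (α - 1)).mul
          ((innerSL ℝ a).continuous.pow 2)).aestronglyMeasurable
      · have hw := pf_cut_wt_pos n (α - 1) x
        rw [Real.norm_of_nonneg (by positivity), pf_cut_wt_mul n α x]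
        have h1 : |innerSL ℝ a x| ≤ ‖a‖ * ‖x‖ := by
          rw [innerSL_apply_apply]
          exact abs_real_inner_le_norm a x
        have h2 : (innerSL ℝ a x) ^ 2 ≤ (‖a‖ * ‖x‖) ^ 2 := by
          rw [← sq_abs]
          exact pow_le_pow_left₀ (abs_nonneg _) h1 2
        have h3 := mul_le_mul_of_nonneg_left h2 hw.le
        have h4 : 0 ≤ ‖a‖ ^ 2 * wt n (α - 1) x := by positivity
        nlinarith [h3, h4]
  have hodd : ∫ x, wt n (α - 1) x * innerSL ℝ a x = 0 := by
    have h3 := integral_neg_eq_self (fun x : E n => wt n (α - 1) x * innerSL ℝ a x) volume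
    have h4 : ∫ x : E n, wt n (α - 1) (-x) * innerSL ℝ a (-x) =
        -∫ x : E n, wt n (α - 1) x * innerSL ℝ a x := by
      rw [← integral_neg]
      congr 1
      ext x
      have : wt n (α - 1) (-x) = wt n (α - 1) x := by
        unfold wt
        rw [norm_neg]
      rw [this, map_neg]
      ring
    linarith
  refine ⟨hFE, fun _ => hodd, ?_⟩
  rw [hC]
  -- integration by parts in the direction `a`
  have hda : ∀ x, fderiv ℝ (wt n α) x a = 2 * α * wt n (α - 1) x * innerSL ℝ a x := by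
    intro x
    rw [(pf_Ip_hasFDerivAt (n := n) α x).fderiv]
    simp only [_root_.smul_apply, innerSL_apply_apply, smul_eq_mul, nsmul_eq_mul]
    rw [real_inner_comm a x]
    unfold wt
    push_cast
    ring
  have hfa : ∀ x : E n, fderiv ℝ (fun x : E n => innerSL ℝ a x) x a = ‖a‖ ^ 2 := by
    intro x
    rw [hfd, innerSL_apply_apply, real_inner_self_eq_norm_sq]
  have j1 : Integrable (fun x => fderiv ℝ (wt n α) x a * innerSL ℝ a x) := by
    refine (hFE.2.2.const_mul (2 * α)).congr (Eventually.of_forall fun x => ?_)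
    simp only [hda]
    ring
  have j2 : Integrable (fun x => wt n α x * fderiv ℝ (fun x : E n => innerSL ℝ a x) x a) := by
    simp only [hfa]
    exact hI.mul_const _
  have j3 : Integrable (fun x => wt n α x * innerSL ℝ a x) := by
    refine (hI2.const_mul ‖a‖).mono' ?_ (Eventually.of_forall fun x => ?_)
    · exact ((pf_cut_wt_cont n α).mul (innerSL ℝ a).continuous).aestronglyMeasurable
    · have hw := pf_cut_wt_pos n α x
      have h1 : |innerSL ℝ a x| ≤ ‖a‖ * ‖x‖ := by
        rw [innerSL_apply_apply]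
        exact abs_real_inner_le_norm a x
      have h2 : ‖x‖ ≤ (1 + ‖x‖ ^ 2) ^ (1 / 2 : ℝ) := by
        rw [← Real.sqrt_eq_rpow]
        exact Real.le_sqrt_of_sq_le (by linarith)
      have h3 : wt n (α + 1 / 2) x = wt n α x * (1 + ‖x‖ ^ 2) ^ (1 / 2 : ℝ) := by
        unfold wt
        rw [Real.rpow_add (pf_gs_pos x)]
      rw [norm_mul, Real.norm_of_nonneg hw.le, Real.norm_eq_abs, h3]
      calc wt n α x * |innerSL ℝ a x| ≤ wt n α x * (‖a‖ * (1 + ‖x‖ ^ 2) ^ (1 / 2 : ℝ)) := by
            refine mul_le_mul_of_nonneg_left (h1.trans ?_) hw.le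
            exact mul_le_mul_of_nonneg_left h2 (norm_nonneg a)
        _ = _ := by ring
  have hibp := integral_mul_fderiv_eq_neg_fderiv_mul_of_integrable (μ := volume) (f := wt n α)
    (g := fun x : E n => innerSL ℝ a x) (v := a) j1 j2 j3
    (fun x _ => (pf_Ip_hasFDerivAt (n := n) α x).differentiableAt)
    (fun x _ => (innerSL ℝ a).differentiableAt)
  simp only [hfa, hda] at hibp
  have e1 : en n α (fun x => innerSL ℝ a x) = ∫ x, wt n α x * ‖a‖ ^ 2 := by
    unfold en
    refine integral_congr_ae (Eventually.of_forall fun x => ?_)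
    simp only [hfd, innerSL_apply_norm]
  rw [e1, hibp]
  unfold ms
  rw [← integral_neg, ← integral_const_mul]
  refine integral_congr_ae (Eventually.of_forall fun x => ?_)
  simp only
  ring

/-- the radial quadratic polynomial -/
noncomputable def quad (n : ℕ) (α : ℝ) (x : E n) : ℝ := n + (n + 2 * α) * ‖x‖ ^ 2

theorem quad_id (n : ℕ) (α : ℝ) (hn1 : 1 ≤ n) (hα : α < -((n : ℝ) + 2) / 2) :
    FE n α (quad n α) ∧ ZM n α (quad n α) ∧
      en n α (quad n α) = (-4 * α - 2 * n) * ms n α (quad n α) := by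
  have hN : (0 : ℝ) < n := by
    have : (0 : ℕ) < n := by omega
    exact_mod_cast this
  have h1 := pf_Ip (pf_ibp2 pf_ibp)
  obtain ⟨i1, p1, e1⟩ := h1 n (α + 1) hn1 (by linarith)
  obtain ⟨i0, p0, e0⟩ := h1 n α hn1 (by linarith)
  obtain ⟨ij, pj, -⟩ := h1 n (α - 1) hn1 (by linarith)
  rw [add_sub_cancel_right] at e1
  set κ : ℝ := Ip n α / Ip n (α - 1) with hκ
  have hA : (n : ℝ) + 2 * α < 0 := by linarith
  have hκ' : κ = 2 * α / (n + 2 * α) := by
    rw [hκ, div_eq_div_iff pj.ne' hA.ne]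
    linarith
  have hq : quad n α = fun x => (n + 2 * α) * ((1 + ‖x‖ ^ 2) - κ) := by
    funext x
    unfold quad
    rw [hκ']
    have := hA.ne
    field_simp
    ring
  set f : E n → ℝ := fun x => (1 + ‖x‖ ^ 2) - κ with hf
  have hfc : ContDiff ℝ ∞ f := by
    exact (contDiff_const.add (contDiff_norm_sq ℝ)).sub contDiff_const
  have q1 : (fun x => wt n α x * ‖fderiv ℝ f x‖ ^ 2) =
      fun x => 4 * (wt n (α + 1) x - wt n α x) := by
    funext x
    rw [hf, pf_u4_fderiv, pf_u4_wt_succ]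
    ring
  have q2 : (fun x => wt n (α - 1) x * f x ^ 2) =
      fun x => wt n (α + 1) x - 2 * κ * wt n α x + κ ^ 2 * wt n (α - 1) x := by
    funext x
    rw [pf_u4_wt_succ, pf_u4_wt_pred n α x]
    simp only [hf]
    ring
  have q3 : (fun x => wt n (α - 1) x * f x) =
      fun x => wt n α x - κ * wt n (α - 1) x := by
    funext x
    rw [pf_u4_wt_pred n α x]
    simp only [hf]
    ring
  have j1 : Integrable (fun x => wt n α x * ‖fderiv ℝ f x‖ ^ 2) := by
    rw [q1]
    exact (i1.sub i0).const_mul 4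
  have j2 : Integrable (fun x => wt n (α - 1) x * f x ^ 2) := by
    rw [q2]
    exact (i1.sub (i0.const_mul _)).add (ij.const_mul _)
  have v1 : en n α f = 4 * (Ip n (α + 1) - Ip n α) := by
    unfold en
    rw [q1, integral_const_mul, integral_sub i1 i0]
    rfl
  have v2 : ms n α f = Ip n (α + 1) - 2 * κ * Ip n α + κ ^ 2 * Ip n (α - 1) := by
    unfold ms
    have k1 : Integrable (fun x => 2 * κ * wt n α x) := i0.const_mul _
    have k2 : Integrable (fun x => κ ^ 2 * wt n (α - 1) x) := ij.const_mul _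
    have k3 : Integrable (fun x => wt n (α + 1) x - 2 * κ * wt n α x) := i1.sub k1
    rw [q2, integral_add k3 k2, integral_sub i1 k1, integral_const_mul, integral_const_mul]
    rfl
  have v3 : ∫ x, wt n (α - 1) x * f x = 0 := by
    rw [q3, integral_sub i0 (ij.const_mul _), integral_const_mul]
    show Ip n α - κ * Ip n (α - 1) = 0
    rw [hκ, div_mul_cancel₀ _ pj.ne', sub_self]
  obtain ⟨-, a2⟩ := pf_u4_alg n α (Ip n α) (Ip n (α + 1)) (Ip n (α - 1)) hN hα p0 pj e1 e0
  have hen : en n α f = (-4 * α - 2 * n) * ms n α f := by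
    rw [v1, v2]
    exact a2
  have hf1 : ContDiff ℝ 1 f := hfc.of_le (by exact_mod_cast le_top)
  have hFE : FE n α f := ⟨hf1, j1, j2⟩
  rw [hq]
  refine ⟨FE_smul hFE _, ZM_smul (fun _ => v3) _, ?_⟩
  rw [en_smul hf1, ms_smul, hen]
  ring

/-- `(1+|x|²)^(1-α)` is extremal for `α > (n+2)/2` -/
theorem gs_ext (n : ℕ) (α : ℝ) (hn1 : 1 ≤ n) (hα : ((n : ℝ) + 2) / 2 < α) :
    FE n α (wt n (1 - α)) ∧ en n α (wt n (1 - α)) = Cst n α * ms n α (wt n (1 - α)) := by
  have hN : (1 : ℝ) ≤ n := by exact_mod_cast hn1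
  have hC : Cst n α = 2 * n * (α - 1) := by
    unfold Cst
    rw [if_neg (by linarith), if_neg (by linarith), if_neg (by linarith)]
  have h1 := pf_Ip (pf_ibp2 pf_ibp)
  obtain ⟨i1, p1, e1⟩ := h1 n (1 - α) hn1 (by linarith)
  obtain ⟨i0, p0, -⟩ := h1 n (1 - α - 1) hn1 (by linarith)
  have hc1 : ContDiff ℝ 1 (wt n (1 - α)) := pf_Ip_contDiff n _
  have q2 : ∀ x, wt n (α - 1) x * wt n (1 - α) x ^ 2 = wt n (1 - α) x := by
    intro x
    have : wt n (α - 1) x * wt n (1 - α) x ^ 2 =
      (wt n (α - 1) x * wt n (1 - α) x) * wt n (1 - α) x := by ring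
    rw [this, wt_mul, wt_mul]
    congr 1
    ring
  have q1 : ∀ x, wt n α x * ‖fderiv ℝ (wt n (1 - α)) x‖ ^ 2 =
      4 * (1 - α) ^ 2 * (wt n (1 - α) x - wt n (1 - α - 1) x) := by
    intro x
    rw [(pf_Ip_hasFDerivAt (n := n) (1 - α) x).fderiv]
    have h3 : ‖((1 - α) * (1 + ‖x‖ ^ 2) ^ (1 - α - 1)) • ((2 : ℕ) • innerSL ℝ x)‖ ^ 2 =
        4 * (1 - α) ^ 2 * (wt n (1 - α - 1) x) ^ 2 * ‖x‖ ^ 2 := by
      rw [norm_smul, two_smul, ← two_smul ℝ, norm_smul, innerSL_apply_norm, Real.norm_eq_abs,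
        Real.norm_eq_abs, mul_pow, mul_pow, sq_abs, sq_abs]
      unfold wt
      ring
    rw [h3]
    have h4 : wt n α x * (wt n (1 - α - 1) x) ^ 2 = wt n (1 - α - 1) x := by
      have : wt n α x * (wt n (1 - α - 1) x) ^ 2 =
        (wt n α x * wt n (1 - α - 1) x) * wt n (1 - α - 1) x := by ring
      rw [this, wt_mul, wt_mul]
      congr 1
      ring
    have h5 : wt n (1 - α) x = wt n (1 - α - 1) x * (1 + ‖x‖ ^ 2) := pf_cut_wt_mul n (1 - α) x
    rw [h5]
    linear_combination (4 * (1 - α) ^ 2 * ‖x‖ ^ 2) * h4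
  refine ⟨⟨hc1, ?_, ?_⟩, ?_⟩
  · simp only [q1]
    exact (i1.sub i0).const_mul _
  · simp only [q2]
    exact i1
  · have v1 : en n α (wt n (1 - α)) = 4 * (1 - α) ^ 2 * (Ip n (1 - α) - Ip n (1 - α - 1)) := by
      unfold en
      simp only [q1]
      rw [integral_const_mul, integral_sub i1 i0]
      rfl
    have v2 : ms n α (wt n (1 - α)) = Ip n (1 - α) := by
      unfold ms Ip
      simp only [q2]
    rw [v1, v2, hC]
    have h6 : 2 * (1 - α) * Ip n (1 - α - 1) = (n + 2 * (1 - α)) * Ip n (1 - α) := e1.symm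
    linear_combination (-2 * (1 - α)) * h6

end Pool.Agent.H34WH
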