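import Pool.Agent.H34WH.X5

set_option autoImplicit false

/-!
# The equality case of the one-dimensional inequality
-/

namespace Pool.Agent.H34WH

open MeasureTheory Set Filter Topology Metric
open scoped ContDiff

/-- Cauchy-Schwarz on a half line -/
theorem cs_tail {V h : ℝ → ℝ} {r : ℝ} (hV : ∀ t, r < t → 0 ≤ V t)
    (i0 : IntegrableOn V (Ioi r)) (i1 : IntegrableOn (fun t => V t * h t) (Ioi r))
    (i2 : IntegrableOn (fun t => V t * h t ^ 2) (Ioi r)) (hpos : 0 < ∫ t in Ioi r, V t) :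
    (∫ t in Ioi r, V t * h t) ^ 2 ≤ (∫ t in Ioi r, V t) * ∫ t in Ioi r, V t * h t ^ 2 := by
  set T := ∫ t in Ioi r, V t with hT
  set J := ∫ t in Ioi r, V t * h t with hJ
  set m := ∫ t in Ioi r, V t * h t ^ 2 with hm
  have h1 : 0 ≤ ∫ t in Ioi r, V t * (h t - J / T) ^ 2 :=
    setIntegral_nonneg measurableSet_Ioi fun t ht => mul_nonneg (hV t ht) (sq_nonneg _)
  have h2 : ∫ t in Ioi r, V t * (h t - J / T) ^ 2 = m - 2 * (J / T) * J + (J / T) ^ 2 * T := by
    have e : ∀ t, V t * (h t - J / T) ^ 2 =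
      V t * h t ^ 2 - 2 * (J / T) * (V t * h t) + (J / T) ^ 2 * V t := fun t => by ring
    simp only [e]
    have k1 : IntegrableOn (fun t => 2 * (J / T) * (V t * h t)) (Ioi r) := i1.const_mul _
    have k2 : IntegrableOn (fun t => (J / T) ^ 2 * V t) (Ioi r) := i0.const_mul _
    have k3 : IntegrableOn (fun t => V t * h t ^ 2 - 2 * (J / T) * (V t * h t)) (Ioi r) :=
      i2.sub k1
    rw [integral_add k3 k2, integral_sub i2 k1, integral_const_mul, integral_const_mul]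
  rw [h2] at h1
  have h3 : m - 2 * (J / T) * J + (J / T) ^ 2 * T = m - J ^ 2 / T := by
    field_simp
    ring
  rw [h3] at h1
  have h4 : J ^ 2 / T ≤ m := by linarith
  rw [div_le_iff₀ hpos] at h4
  linarith

/-- the identity behind `pf_1d_alg` -/
theorem alg_id (C G g g' q K V W : ℝ) (hW : 0 < W) :
    W * g' ^ 2 - C * (V * g ^ 2) - (-2 * C * (V * g * g + G * g') +
      C * (2 * G * (V * g) * q + G ^ 2 * -(K / W + q ^ 2 * V))) =
      (W * g' + C * G) ^ 2 / W + C * V * (g - G * q) ^ 2 + C * G ^ 2 * (K - C) / W := by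
  field_simp
  ring

theorem oneD (n : ℕ) (α C θ : ℝ) (hn1 : 1 ≤ n) (hα1 : α < 1) (hna : (n : ℝ) + 2 * α - 2 < 0)
    (hC : 0 < C) (hθ : ∀ s : ℝ, 1 ≤ s → C ≤ pf_1d_K n α θ s)
    (g : ℝ → ℝ) (hg : ContDiff ℝ 1 g)
    (i2 : IntegrableOn (fun r => V1 n α r * g r ^ 2) (Ioi 0))
    (iW : IntegrableOn (fun r => W1 n α r * deriv g r ^ 2) (Ioi 0))
    (h0 : ∫ r in Ioi (0 : ℝ), V1 n α r * g r = 0)
    (hle : ∫ r in Ioi (0 : ℝ), W1 n α r * deriv g r ^ 2 ≤
      C * ∫ r in Ioi (0 : ℝ), V1 n α r * g r ^ 2) :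
    ∃ G : ℝ → ℝ, (∀ r, HasDerivAt G (V1 n α r * g r) r) ∧
      ∀ r, 0 < r → g r = G r * pf_1d_q n α θ r ∧
        G r ^ 2 * (pf_1d_K n α θ (1 + r ^ 2) - C) = 0 := by
  have hcV := pf_1d_contV n α
  have hcW := pf_1d_contW n α
  have hcg : Continuous g := hg.continuous
  have hcg' : Continuous (deriv g) := hg.continuous_deriv le_rfl
  have hiV : IntegrableOn (V1 n α) (Ioi 0) := pf_1d_intV hn1 hα1 hna
  have hi1 : IntegrableOn (fun r => V1 n α r * g r) (Ioi 0) := by
    refine (hiV.add i2).mono' (hcV.mul hcg).aestronglyMeasurable.restrict ?_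
    refine (ae_restrict_iff' measurableSet_Ioi).2 (Eventually.of_forall fun r hr => ?_)
    have hv := pf_1d_Vpos n α hr
    rw [norm_mul, Real.norm_of_nonneg hv.le, Real.norm_eq_abs, Pi.add_apply]
    have h2 : |g r| ≤ 1 + g r ^ 2 := by
      rw [← sq_abs (g r)]
      nlinarith [sq_nonneg (|g r| - 1), abs_nonneg (g r)]
    nlinarith [mul_le_mul_of_nonneg_left h2 hv.le]
  let G : ℝ → ℝ := fun r => ∫ t in (0 : ℝ)..r, V1 n α t * g t
  have hcVg : Continuous fun r => V1 n α r * g r := hcV.mul hcg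
  have hGd : ∀ r, HasDerivAt G (V1 n α r * g r) r := fun r =>
    (hcVg.integral_hasStrictDerivAt 0 r).hasDerivAt
  have hGc : Continuous G := continuous_iff_continuousAt.2 fun r => (hGd r).continuousAt
  have hG0 : G 0 = 0 := intervalIntegral.integral_same
  obtain ⟨M, hM, hM'⟩ : ∃ M : ℝ, 0 ≤ M ∧ ∀ r ∈ Icc (0 : ℝ) 1, |g r| ≤ M := by
    obtain ⟨M, hM⟩ := (isCompact_Icc (a := (0 : ℝ)) (b := 1)).exists_bound_of_continuousOn
      hcg.continuousOn
    exact ⟨M, (norm_nonneg _).trans (hM 0 (by simp)), hM⟩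
  have hG1 : ∀ r, 0 < r → r ≤ 1 → |G r| ≤ M * r ^ n := by
    intro r hr hr1
    have h1 : ‖∫ t in (0 : ℝ)..r, V1 n α t * g t‖ ≤ (r ^ (n - 1) * M) * |r - 0| := by
      refine intervalIntegral.norm_integral_le_of_norm_le_const fun t ht => ?_
      rw [uIoc_of_le hr.le] at ht
      rw [norm_mul, Real.norm_of_nonneg (pf_1d_Vnn n α ht.1.le), Real.norm_eq_abs]
      refine mul_le_mul ((pf_1d_Vle n hα1 ht.1.le).trans
        (pow_le_pow_left₀ ht.1.le ht.2 _)) (hM' t ⟨ht.1.le, ht.2.trans hr1⟩) (abs_nonneg _)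
        (by positivity)
    rw [Real.norm_eq_abs] at h1
    refine h1.trans (le_of_eq ?_)
    rw [sub_zero, abs_of_pos hr]
    have h2 : r ^ n = r ^ (n - 1) * r := by
      rw [← pow_succ]
      congr 1
      omega
    rw [h2]
    ring
  -- tails
  have htail : ∀ r, 0 < r → G r = -∫ t in Ioi r, V1 n α t * g t := by
    intro r hr
    have h1 : (∫ t in Ioc 0 r, V1 n α t * g t) + ∫ t in Ioi r, V1 n α t * g t = 0 := by
      rw [← setIntegral_union (Ioc_disjoint_Ioi le_rfl) measurableSet_Ioi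
        (hi1.mono_set Ioc_subset_Ioi_self) (hi1.mono_set (Ioi_subset_Ioi hr.le)),
        Ioc_union_Ioi_eq_Ioi hr.le, h0]
    change ∫ t in (0 : ℝ)..r, V1 n α t * g t = _
    rw [intervalIntegral.integral_of_le hr.le]
    linarith
  let m : ℝ → ℝ := fun r => ∫ t in Ioi r, V1 n α t * g t ^ 2
  have hm0 : ∀ r, 0 < r → 0 ≤ m r := fun r hr =>
    setIntegral_nonneg measurableSet_Ioi fun t ht =>
      mul_nonneg (pf_1d_Vnn n α (hr.trans ht).le) (sq_nonneg _)
  have hmlim : Tendsto m atTop (𝓝 0) := by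
    have h1 : Tendsto (fun T : ℝ => ∫ r in (0 : ℝ)..T, V1 n α r * g r ^ 2) atTop
      (𝓝 (∫ r in Ioi (0 : ℝ), V1 n α r * g r ^ 2)) :=
      intervalIntegral_tendsto_integral_Ioi 0 i2 tendsto_id
    have h2 := (tendsto_const_nhds (x := ∫ r in Ioi (0 : ℝ), V1 n α r * g r ^ 2)).sub h1
    rw [sub_self] at h2
    refine h2.congr' ?_
    filter_upwards [eventually_gt_atTop 0] with r hr
    have h3 : (∫ t in Ioc 0 r, V1 n α t * g t ^ 2) + ∫ t in Ioi r, V1 n α t * g t ^ 2 =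
        ∫ t in Ioi (0 : ℝ), V1 n α t * g t ^ 2 := by
      rw [← setIntegral_union (Ioc_disjoint_Ioi le_rfl) measurableSet_Ioi
        (i2.mono_set Ioc_subset_Ioi_self) (i2.mono_set (Ioi_subset_Ioi hr.le)),
        Ioc_union_Ioi_eq_Ioi hr.le]
    rw [intervalIntegral.integral_of_le hr.le, ← h3]
    simp only [m]
    ring
  set d : ℝ := -((n : ℝ) + 2 * α - 2) with hd
  have hd0 : 0 < d := by rw [hd]; linarith
  have hG2 : ∀ r, 0 < r → G r ^ 2 ≤ r ^ ((n : ℝ) + 2 * α - 2) / d * m r := by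
    intro r hr
    have hsub : Ioi r ⊆ Ioi (0 : ℝ) := Ioi_subset_Ioi hr.le
    have hpos : 0 < ∫ t in Ioi r, V1 n α t := by
      rw [setIntegral_pos_iff_support_of_nonneg_ae ?_ (hiV.mono_set hsub)]
      · have h1 : Ioi r ⊆ Function.support (V1 n α) ∩ Ioi r :=
          fun t ht => ⟨(pf_1d_Vpos n α (hr.trans ht)).ne', ht⟩
        refine lt_of_lt_of_le ?_ (measure_mono h1)
        rw [Real.volume_Ioi]
        exact ENNReal.zero_lt_top
      · exact (ae_restrict_iff' measurableSet_Ioi).2 (Eventually.of_forall fun t ht =>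
          (pf_1d_Vpos n α (hr.trans ht)).le)
    have h1 := cs_tail (V := V1 n α) (h := g) (r := r)
      (fun t ht => pf_1d_Vnn n α (hr.trans ht).le) (hiV.mono_set hsub) (hi1.mono_set hsub)
      (i2.mono_set hsub) hpos
    rw [htail r hr, neg_sq]
    refine h1.trans (mul_le_mul_of_nonneg_right ?_ (hm0 r hr))
    exact pf_1d_tail hn1 hα1 hna hr
  let Θ : ℝ → ℝ := fun r => G r ^ 2 * pf_1d_q n α θ r
  have h2pos : (0 : ℝ) < 2 ^ (α - 1) := Real.rpow_pos_of_pos (by norm_num) _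
  obtain ⟨c0, hc0, hΘ0⟩ : ∃ c : ℝ, 0 ≤ c ∧ ∀ r, 0 < r → r ≤ 1 → |Θ r| ≤ c * r ^ n := by
    refine ⟨M ^ 2 * (n + 2 * |θ|) / 2 ^ (α - 1), by positivity, fun r hr hr1 => ?_⟩
    refine pf_1d_bdry n α θ hr (by positivity) h2pos (hG1 r hr hr1) ?_
    have h2 : r ^ n = r * r ^ (n - 1) := by
      rw [← pow_succ']
      congr 1
      omega
    rw [h2]
    have := mul_le_mul_of_nonneg_left (pf_1d_Vge (n := n) hα1 hr hr1) hr.le
    linarith
  -- lower bound for r V
  have hrV : ∀ r, 1 ≤ r → 2 ^ (α - 1) * r ^ ((n : ℝ) + 2 * α - 2) ≤ r * V1 n α r := by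
    intro r hr1
    have hr : 0 < r := by linarith
    have h2 : r ^ ((n : ℝ) + 2 * α - 2) = r * r ^ ((n : ℝ) + 2 * α - 3) := by
      have h3 : (n : ℝ) + 2 * α - 3 = n + 2 * α - 2 - 1 := by ring
      rw [h3, Real.rpow_sub_one hr.ne']
      field_simp
    rw [h2]
    have := mul_le_mul_of_nonneg_left (pf_1d_Vge2 hn1 hα1 hr1) hr.le
    linarith
  set c1 : ℝ := (n + 2 * |θ|) / (2 ^ (α - 1) * d) with hc1
  have hc10 : 0 ≤ c1 := by positivity
  have hΘ1 : ∀ r, 1 ≤ r → |Θ r| ≤ c1 * m r := by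
    intro r hr1
    have hr : 0 < r := by linarith
    have hP : 0 < r ^ ((n : ℝ) + 2 * α - 2) := Real.rpow_pos_of_pos hr _
    have hVp := pf_1d_Vpos n α hr
    have k1 : |pf_1d_q n α θ r| ≤ (n + 2 * |θ|) / (r * V1 n α r) := by
      unfold pf_1d_q
      rw [abs_div, abs_of_pos hVp, ← div_div]
      exact div_le_div_of_nonneg_right (pf_1d_pabs n θ hr) hVp.le
    have k2 : (n + 2 * |θ|) / (r * V1 n α r) ≤
        (n + 2 * |θ|) / (2 ^ (α - 1) * r ^ ((n : ℝ) + 2 * α - 2)) :=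
      div_le_div_of_nonneg_left (by positivity) (by positivity) (hrV r hr1)
    change |G r ^ 2 * pf_1d_q n α θ r| ≤ _
    rw [abs_mul, abs_of_nonneg (sq_nonneg (G r))]
    calc G r ^ 2 * |pf_1d_q n α θ r| ≤ (r ^ ((n : ℝ) + 2 * α - 2) / d * m r) *
          ((n + 2 * |θ|) / (2 ^ (α - 1) * r ^ ((n : ℝ) + 2 * α - 2))) :=
          mul_le_mul (hG2 r hr) (k1.trans k2) (abs_nonneg _)
            (mul_nonneg (by positivity) (hm0 r hr))
      _ = c1 * m r := by
          rw [hc1]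
          field_simp
  have hGh : ∀ r, 1 ≤ r → r * V1 n α r * g r ^ 2 ≤ 1 →
      (G r * g r) ^ 2 ≤ 1 / (2 ^ (α - 1) * d) * m r := by
    intro r hr1 hv
    have hr : 0 < r := by linarith
    have hP : 0 < r ^ ((n : ℝ) + 2 * α - 2) := Real.rpow_pos_of_pos hr _
    have k1 : 2 ^ (α - 1) * r ^ ((n : ℝ) + 2 * α - 2) * g r ^ 2 ≤ 1 :=
      (mul_le_mul_of_nonneg_right (hrV r hr1) (sq_nonneg _)).trans hv
    have k2 : r ^ ((n : ℝ) + 2 * α - 2) * g r ^ 2 ≤ 1 / 2 ^ (α - 1) := by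
      rw [le_div_iff₀ h2pos]
      linarith
    rw [mul_pow]
    calc G r ^ 2 * g r ^ 2 ≤ (r ^ ((n : ℝ) + 2 * α - 2) / d * m r) * g r ^ 2 :=
          mul_le_mul_of_nonneg_right (hG2 r hr) (sq_nonneg _)
      _ = (r ^ ((n : ℝ) + 2 * α - 2) * g r ^ 2) * (m r / d) := by
          field_simp
      _ ≤ (1 / 2 ^ (α - 1)) * (m r / d) :=
          mul_le_mul_of_nonneg_right k2 (div_nonneg (hm0 r hr) hd0.le)
      _ = 1 / (2 ^ (α - 1) * d) * m r := by
          field_simp
  have hfreq : ∃ᶠ r in atTop, r * V1 n α r * g r ^ 2 ≤ 1 := by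
    intro hcon
    have hcon' : ∀ᶠ r in atTop, 1 < r * V1 n α r * g r ^ 2 := by
      filter_upwards [hcon] with r hr
      exact not_le.1 hr
    obtain ⟨N, hN⟩ := (hcon'.and (eventually_ge_atTop 1)).exists_forall_of_atTop
    apply not_integrableOn_Ioi_inv (a := max N 1)
    refine (i2.mono_set (Ioi_subset_Ioi (le_trans zero_le_one (le_max_right N 1)))).mono' ?_ ?_
    · exact measurable_inv.aestronglyMeasurable
    · refine (ae_restrict_iff' measurableSet_Ioi).2 (Eventually.of_forall fun r hr => ?_)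
      have hr1 : max N 1 < r := hr
      have hrN : N ≤ r := ((le_max_left N 1).trans_lt hr1).le
      have hr0 : 0 < r := lt_of_lt_of_le one_pos ((le_max_right N 1).trans hr1.le)
      rw [Real.norm_of_nonneg (inv_nonneg.2 hr0.le), inv_eq_one_div, div_le_iff₀ hr0]
      have := (hN r hrN).1
      nlinarith
  have hΘz : Θ 0 = 0 := by
    change G 0 ^ 2 * _ = 0
    rw [hG0]
    ring
  let Ψ : ℝ → ℝ := fun r => -2 * C * (G r * g r) + C * Θ r
  have hΨ0 : Ψ 0 = 0 := by
    change -2 * C * (G 0 * g 0) + C * Θ 0 = 0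
    rw [hΘz, hG0]
    ring
  let F : ℝ → ℝ := fun r => W1 n α r * deriv g r ^ 2 - C * (V1 n α r * g r ^ 2)
  have hFi : IntegrableOn F (Ioi 0) := iW.sub (i2.const_mul C)
  have hFc : Continuous F :=
    (hcW.mul (hcg'.pow 2)).sub (continuous_const.mul (hcV.mul (hcg.pow 2)))
  have hgd : ∀ r, HasDerivAt g (deriv g r) r := fun r =>
    (hg.differentiable one_ne_zero r).hasDerivAt
  have hΨd : ∀ r, 0 < r → HasDerivAt Ψ (-2 * C * (V1 n α r * g r * g r +
      G r * deriv g r) + C * (2 * G r * (V1 n α r * g r) * pf_1d_q n α θ r +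
      G r ^ 2 * -(pf_1d_K n α θ (1 + r ^ 2) / W1 n α r + pf_1d_q n α θ r ^ 2 * V1 n α r))) r := by
    intro r hr
    have h1 := ((hGd r).mul (hgd r)).const_mul (-2 * C)
    have h2 := ((hGd r).pow 2).mul (pf_1d_derivq hn1 α θ hr)
    have h3 := h1.add (h2.const_mul C)
    refine h3.congr_deriv ?_
    simp only [Nat.cast_ofNat, Nat.add_one_sub_one, pow_one, Pi.pow_apply]
  have hΨc : ∀ T, 0 ≤ T → ContinuousOn Ψ (Icc 0 T) := by
    intro T hT r hr
    rcases hr.1.eq_or_lt with h0 | h0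
    · subst h0
      have h1 : ContinuousWithinAt Θ (Icc 0 T) 0 := by
        unfold ContinuousWithinAt
        rw [hΘz]
        refine squeeze_zero_norm' (a := fun r => c0 * r ^ n) ?_ ?_
        · have h2 : ∀ᶠ r : ℝ in 𝓝[Icc 0 T] 0, r < 1 :=
            mem_nhdsWithin_of_mem_nhds (Iio_mem_nhds one_pos)
          filter_upwards [h2, self_mem_nhdsWithin] with r hr1 hr2
          rcases hr2.1.eq_or_lt with h3 | h3
          · subst h3
            rw [hΘz, norm_zero]
            positivity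
          · exact hΘ0 r h3 hr1.le
        · have h3 : Continuous fun r : ℝ => c0 * r ^ n := by fun_prop
          have h4 := h3.tendsto 0
          have h5 : c0 * (0 : ℝ) ^ n = 0 := by
            rw [zero_pow (by omega), mul_zero]
          rw [h5] at h4
          exact h4.mono_left nhdsWithin_le_nhds
      have h2 : ContinuousWithinAt (fun r => -2 * C * (G r * g r)) (Icc 0 T) 0 :=
        (continuous_const.mul (hGc.mul hcg)).continuousWithinAt
      exact h2.add (continuousWithinAt_const.mul h1)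
    · exact (hΨd r h0).continuousAt.continuousWithinAt
  have hpt : ∀ r, 0 < r → (-2 * C * (V1 n α r * g r * g r +
      G r * deriv g r) + C * (2 * G r * (V1 n α r * g r) * pf_1d_q n α θ r +
      G r ^ 2 * -(pf_1d_K n α θ (1 + r ^ 2) / W1 n α r + pf_1d_q n α θ r ^ 2 * V1 n α r))) ≤
      F r := by
    intro r hr0
    refine pf_1d_alg C (G r) (g r) (deriv g r) (pf_1d_q n α θ r)
      (pf_1d_K n α θ (1 + r ^ 2)) (V1 n α r) (W1 n α r) hC (pf_1d_Vpos n α hr0) ?_
      (hθ _ (by nlinarith [sq_nonneg r]))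
    rw [pf_1d_WV]
    have := pf_1d_Vpos n α hr0
    positivity
  have hineq : ∀ S T, 0 ≤ S → S ≤ T → Ψ T - Ψ S ≤ ∫ r in S..T, F r := by
    intro S T hS hT
    exact intervalIntegral.sub_le_integral_of_hasDeriv_right_of_le hT
      ((hΨc T (hS.trans hT)).mono (Icc_subset_Icc_left hS))
      (fun r hr => (hΨd r (hS.trans_lt hr.1)).hasDerivWithinAt) hFc.integrableOn_Icc (φ := F)
      (fun r hr => hpt r (hS.trans_lt hr.1))
  have hlimF : Tendsto (fun T : ℝ => ∫ r in (0 : ℝ)..T, F r) atTop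
      (𝓝 (∫ r in Ioi (0 : ℝ), F r)) := intervalIntegral_tendsto_integral_Ioi 0 hFi tendsto_id
  have hFle : ∫ r in Ioi (0 : ℝ), F r ≤ 0 := by
    change ∫ r in Ioi (0 : ℝ), (W1 n α r * deriv g r ^ 2 - C * (V1 n α r * g r ^ 2)) ≤ 0
    rw [integral_sub iW (i2.const_mul C), integral_const_mul]
    linarith
  -- the boundary terms are frequently small
  have hsmall : ∀ ε : ℝ, 0 < ε → ∃ᶠ T in atTop, -ε ≤ Ψ T := by
    intro ε hε
    have e1 : ∀ᶠ T in atTop, 1 / (2 ^ (α - 1) * d) * m T < (ε / (4 * C)) ^ 2 := by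
      have h1 := hmlim.const_mul (1 / (2 ^ (α - 1) * d))
      rw [mul_zero] at h1
      exact h1.eventually_lt_const (by positivity)
    have e2 : ∀ᶠ T in atTop, c1 * m T < ε / (2 * C) := by
      have h1 := hmlim.const_mul c1
      rw [mul_zero] at h1
      exact h1.eventually_lt_const (by positivity)
    refine (hfreq.and_eventually (e1.and (e2.and (eventually_ge_atTop 1)))).mono ?_
    rintro T ⟨t1, t2, t3, t4⟩
    have k1 := (hGh T t4 t1).trans t2.le
    have k2 : |G T * g T| ≤ ε / (4 * C) := abs_le_of_sq_le_sq k1 (by positivity)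
    have k3 : |Θ T| ≤ ε / (2 * C) := (hΘ1 T t4).trans t3.le
    change -ε ≤ -2 * C * (G T * g T) + C * Θ T
    have k4 : G T * g T ≤ ε / (4 * C) := (le_abs_self _).trans k2
    have k5 : -(ε / (2 * C)) ≤ Θ T := (abs_le.1 k3).1
    have k6 : 2 * C * (G T * g T) ≤ ε / 2 := by
      calc 2 * C * (G T * g T) ≤ 2 * C * (ε / (4 * C)) :=
            mul_le_mul_of_nonneg_left k4 (by positivity)
        _ = ε / 2 := by field_simp; ring
    have k7 : -(ε / 2) ≤ C * Θ T := by
      calc -(ε / 2) = C * (-(ε / (2 * C))) := by field_simp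
        _ ≤ C * Θ T := mul_le_mul_of_nonneg_left k5 hC.le
    linarith
  have hII : ∀ a b : ℝ, IntervalIntegrable F volume a b := fun a b => hFc.intervalIntegrable a b
  have hzero : ∀ S, 0 < S → (∫ r in (0 : ℝ)..S, F r) - Ψ S = 0 := by
    intro S hS
    apply le_antisymm
    · refine le_of_forall_pos_le_add fun ε hε => ?_
      have e1 : ∀ᶠ T in atTop, ∫ r in (0 : ℝ)..T, F r < ε / 2 :=
        hlimF.eventually_lt_const (lt_of_le_of_lt hFle (by positivity))
      obtain ⟨T, t1, t2, t3⟩ := ((hsmall (ε / 2) (by positivity)).and_eventually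
        (e1.and (eventually_ge_atTop S))).exists
      have h1 := hineq S T hS.le t3
      have h2 := intervalIntegral.integral_add_adjacent_intervals (hII 0 S) (hII S T)
      linarith
    · have h1 := hineq 0 S le_rfl hS.le
      rw [hΨ0, sub_zero] at h1
      linarith
  refine ⟨G, hGd, fun r hr => ?_⟩
  -- differentiate
  have hder : HasDerivAt (fun S => (∫ r in (0 : ℝ)..S, F r) - Ψ S) (F r -
      (-2 * C * (V1 n α r * g r * g r +
      G r * deriv g r) + C * (2 * G r * (V1 n α r * g r) * pf_1d_q n α θ r +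
      G r ^ 2 * -(pf_1d_K n α θ (1 + r ^ 2) / W1 n α r + pf_1d_q n α θ r ^ 2 * V1 n α r)))) r :=
    ((hFc.integral_hasStrictDerivAt 0 r).hasDerivAt).sub (hΨd r hr)
  have hder0 : HasDerivAt (fun S => (∫ r in (0 : ℝ)..S, F r) - Ψ S) 0 r := by
    refine (hasDerivAt_const r (0 : ℝ)).congr_of_eventuallyEq ?_
    filter_upwards [lt_mem_nhds hr] with S hS
    exact hzero S hS
  have hV := pf_1d_Vpos n α hr
  have hW : 0 < W1 n α r := by
    rw [pf_1d_WV]
    positivity
  have h1 := hder.unique hder0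
  change W1 n α r * deriv g r ^ 2 - C * (V1 n α r * g r ^ 2) - _ = 0 at h1
  rw [alg_id C (G r) (g r) (deriv g r) (pf_1d_q n α θ r) (pf_1d_K n α θ (1 + r ^ 2)) (V1 n α r)
    (W1 n α r) hW] at h1
  have hK : 0 ≤ pf_1d_K n α θ (1 + r ^ 2) - C :=
    sub_nonneg.2 (hθ _ (by nlinarith [sq_nonneg r]))
  have s1 : 0 ≤ (W1 n α r * deriv g r + C * G r) ^ 2 / W1 n α r := by positivity
  have s2 : 0 ≤ C * V1 n α r * (g r - G r * pf_1d_q n α θ r) ^ 2 := by positivity
  have s3 : 0 ≤ C * G r ^ 2 * (pf_1d_K n α θ (1 + r ^ 2) - C) / W1 n α r := by positivity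
  have z2 : C * V1 n α r * (g r - G r * pf_1d_q n α θ r) ^ 2 = 0 := by linarith
  have z3 : C * G r ^ 2 * (pf_1d_K n α θ (1 + r ^ 2) - C) / W1 n α r = 0 := by linarith
  constructor
  · rcases mul_eq_zero.1 z2 with h | h
    · exact absurd h (by positivity)
    · have := pow_eq_zero_iff (two_ne_zero) |>.1 h
      linarith
  · rcases div_eq_zero_iff.1 z3 with h | h
    · have h2 : C * (G r ^ 2 * (pf_1d_K n α θ (1 + r ^ 2) - C)) = 0 := by rw [← h]; ring
      rcases mul_eq_zero.1 h2 with h3 | h3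
      · exact absurd h3 hC.ne'
      · exact h3
    · exact absurd h hW.ne'

end Pool.Agent.H34WH
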