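import Pool.Agent.H34WH.X6

set_option autoImplicit false

/-!
# The constrained range: all extremal functions
-/

namespace Pool.Agent.H34WH

open MeasureTheory Set Filter Topology Metric
open scoped ContDiff

/-- after subtraction of a linear function an extremal function is invariant under reflections -/
theorem refl_case (n : ℕ) (α : ℝ) (hn : 2 ≤ n) (hα : α < -((n : ℝ) - 2) / 2) (u : E n → ℝ)
    (hu : FE n α u) (hz : ZM n α u) (heq : en n α u = Cst n α * ms n α u) :
    ∃ L : E n →L[ℝ] ℝ, (¬ α ≤ -(n : ℝ) → L = 0) ∧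
      ∀ a : E n, ‖a‖ = 1 → ∀ x, u x - L x = u (Rf a x) - L (Rf a x) := by
  have hn' : (2 : ℝ) ≤ n := by exact_mod_cast hn
  have hα0 : α < 0 := by
    rcases lt_or_ge α 0 with h | h
    · exact h
    · linarith
  -- the odd part
  have hQ : ∀ a : E n, ‖a‖ = 1 → FE n α (fun x => u x - u (Rf a x)) ∧
      (∀ x, inner ℝ a x = 0 → u x - u (Rf a x) = 0) ∧
      en n α (fun x => u x - u (Rf a x)) = Cst n α * ms n α (fun x => u x - u (Rf a x)) := by
    intro a ha
    obtain ⟨r1, r2, r3, r4⟩ := refl_all a ha hu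
    refine ⟨FE_sub hu r1, fun x hx => ?_, (eq_add_sub hn hu r1 hz (fun h => r4.trans (hz h)) heq
      (by rw [r2, r3, heq])).2⟩
    have : Rf a x = x := by
      unfold Rf
      rw [hx]
      simp
    rw [this, sub_self]
  by_cases hc : α ≤ -(n : ℝ)
  · have hC : Cst n α = -2 * α := by
      unfold Cst
      rw [if_pos hc]
    refine ⟨fderiv ℝ u 0, fun h => absurd hc h, fun a ha x => ?_⟩
    obtain ⟨q1, q2, q3⟩ := hQ a ha
    have h1 := eq_odd n α a ha _ q1 q2 (by rw [q3, hC]; ring) x
    have h2 : fderiv ℝ (fun x => u x - u (Rf a x)) 0 x =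
        fderiv ℝ u 0 x - fderiv ℝ u 0 (Rf a x) := by
      have d1 := (hu.1.differentiable one_ne_zero (0 : E n)).hasFDerivAt
      have hR0 : pf_red_R a (0 : E n) = 0 := map_zero _
      have d2 : HasFDerivAt u (fderiv ℝ u 0) (pf_red_R a (0 : E n)) := by
        rw [hR0]
        exact d1
      have d3 : HasFDerivAt (fun x => pf_red_R a x)
          ((pf_red_R a).toContinuousLinearEquiv : E n →L[ℝ] E n) (0 : E n) :=
        (pf_red_R a).toContinuousLinearEquiv.hasFDerivAt
      have d4 := d1.sub (d2.comp (0 : E n) d3)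
      have e : (fun x => u x - u (Rf a x)) = fun x => u x - (u ∘ fun x => pf_red_R a x) x := by
        funext y
        simp only [Function.comp_apply, pf_red_R_apply a ha]
      rw [e]
      have d5 : fderiv ℝ (fun x => u x - (u ∘ fun x => pf_red_R a x) x) 0 = _ := d4.fderiv
      rw [d5]
      simp only [_root_.sub_apply, ContinuousLinearMap.comp_apply]
      congr 2
      exact pf_red_R_apply a ha x
    rw [h2] at h1
    linarith
  · refine ⟨0, fun _ => rfl, fun a ha x => ?_⟩
    obtain ⟨q1, q2, q3⟩ := hQ a ha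
    have h1 := odd_FE n α hα0 a ha _ q1 q2
    have h2 := Cst_lt n α hn hα hc
    have h3 : ms n α (fun x => u x - u (Rf a x)) = 0 := by
      have h4 : 0 ≤ ms n α (fun x => u x - u (Rf a x)) := by
        unfold ms
        exact integral_nonneg fun x => mul_nonneg (pf_cut_wt_pos n (α - 1) x).le (sq_nonneg _)
      have h5 : (-2 * α - Cst n α) * ms n α (fun x => u x - u (Rf a x)) ≤ 0 := by
        rw [q3] at h1
        linarith
      rcases h4.eq_or_lt with h6 | h6
      · exact h6.symm
      · have := mul_pos (sub_pos.2 h2) h6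
        linarith
    have h4 := ms_zero q1 h3 x
    simp only [_root_.zero_apply, sub_zero]
    linarith

/-- invariance under reflections means radial -/
theorem radial_of_refl {n : ℕ} {g : E n → ℝ}
    (h : ∀ a : E n, ‖a‖ = 1 → ∀ x, g x = g (Rf a x)) (x y : E n) (hxy : ‖x‖ = ‖y‖) :
    g x = g y := by
  by_cases hne : x = y
  · rw [hne]
  · obtain ⟨a, ha, hax⟩ := pf_avg_rf_swap x y hxy hne
    rw [h a ha x, hax]

/-- radial extremal functions -/
theorem radial_eq (n : ℕ) (α : ℝ) (hn : 2 ≤ n) (hα : α < -((n : ℝ) - 2) / 2) (g : E n → ℝ)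
    (hg : FE n α g) (hz : ZM n α g) (hr : ∀ x y, ‖x‖ = ‖y‖ → g x = g y)
    (heq : en n α g = Cst n α * ms n α g) :
    ∃ k : ℝ, (∀ x, g x = k * quad n α x) ∧
      (¬ (-(n : ℝ) ≤ α ∧ α < -((n : ℝ) + 2) / 2) → k = 0) := by
  have hn' : (2 : ℝ) ≤ n := by exact_mod_cast hn
  have hn1 : 1 ≤ n := by omega
  have hα1 : α < 1 := by linarith
  have hna : (n : ℝ) + 2 * α - 2 < 0 := by linarith
  have hNT : Nontrivial (E n) := by
    have : Nonempty (Fin n) := ⟨⟨0, by omega⟩⟩
    infer_instance
  have hdim : Module.finrank ℝ (E n) = n := finrank_euclideanSpace_fin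
  obtain ⟨e, he⟩ : ∃ e : E n, ‖e‖ = 1 := exists_norm_eq (E n) zero_le_one
  set h : ℝ → ℝ := fun r => g (r • e) with hh
  have hhC : ContDiff ℝ 1 h := hg.1.comp (contDiff_id.smul contDiff_const)
  have hgh : ∀ x, g x = h ‖x‖ := by
    intro x
    apply hr
    rw [norm_smul, norm_norm, he, mul_one]
  have hhc : Continuous h := hhC.continuous
  have hhd : Continuous (deriv h) := hhC.continuous_deriv le_rfl
  -- the derivative of the profile
  have hder : ∀ x, |deriv h ‖x‖| ≤ ‖fderiv ℝ g x‖ := by
    intro x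
    obtain ⟨z, hz1, hxz⟩ : ∃ z : E n, ‖z‖ = 1 ∧ x = ‖x‖ • z := by
      by_cases hx : x = 0
      · exact ⟨e, he, by rw [hx]; simp⟩
      · refine ⟨‖x‖⁻¹ • x, ?_, ?_⟩
        · rw [norm_smul, norm_inv, norm_norm, inv_mul_cancel₀ (norm_ne_zero_iff.2 hx)]
        · rw [smul_smul, mul_inv_cancel₀ (norm_ne_zero_iff.2 hx), one_smul]
    have h1 : h = fun r : ℝ => g (r • z) := by
      funext r
      apply hr
      rw [norm_smul, norm_smul, he, hz1]
    have h2 : HasDerivAt (fun r : ℝ => g (r • z)) (fderiv ℝ g (‖x‖ • z) z) ‖x‖ := by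
      have e1 : HasDerivAt (fun r : ℝ => r • z) ((1 : ℝ) • z) ‖x‖ :=
        (hasDerivAt_id ‖x‖).smul_const _
      have e2 : HasFDerivAt g (fderiv ℝ g (‖x‖ • z)) (‖x‖ • z) :=
        (hg.1.differentiable one_ne_zero _).hasFDerivAt
      have := e2.comp_hasDerivAt ‖x‖ e1
      rw [one_smul] at this
      exact this
    rw [h1, h2.deriv, ← hxz]
    have h3 := (fderiv ℝ g x).le_opNorm z
    rw [hz1, mul_one] at h3
    exact h3
  have hint : ∀ f : ℝ → ℝ, Integrable (fun x : E n => f ‖x‖) ↔
      IntegrableOn (fun r => r ^ (n - 1) * f r) (Ioi 0) := by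
    intro f
    have := integrable_fun_norm_addHaar (volume : Measure (E n)) (f := f)
    rw [hdim] at this
    exact this
  set σ : ℝ := n * (volume : Measure (E n)).real (ball 0 1) with hσ
  have hσ0 : 0 < σ := by
    have h1 : 0 < (volume : Measure (E n)).real (ball 0 1) := by
      rw [measureReal_def]
      exact ENNReal.toReal_pos (measure_ball_pos _ _ one_pos).ne' measure_ball_lt_top.ne
    have h2 : (0 : ℝ) < n := by linarith
    exact mul_pos h2 h1
  have hpol : ∀ f : ℝ → ℝ, ∫ x : E n, f ‖x‖ = σ * ∫ r in Ioi (0 : ℝ), r ^ (n - 1) * f r := by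
    intro f
    have := integral_fun_norm_addHaar (volume : Measure (E n)) f
    rw [hdim] at this
    rw [this, nsmul_eq_mul, smul_eq_mul, ← mul_assoc]
    rfl
  -- the three integrals
  set f2 : ℝ → ℝ := fun r => (1 + r ^ 2) ^ (α - 1) * h r ^ 2 with hf2
  set f1 : ℝ → ℝ := fun r => (1 + r ^ 2) ^ (α - 1) * h r with hf1
  set fW : ℝ → ℝ := fun r => (1 + r ^ 2) ^ α * deriv h r ^ 2 with hfW
  have w2 : ∀ x : E n, wt n (α - 1) x * g x ^ 2 = f2 ‖x‖ := by
    intro x
    rw [hgh x]
    rfl
  have w1 : ∀ x : E n, wt n (α - 1) x * g x = f1 ‖x‖ := by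
    intro x
    rw [hgh x]
    rfl
  have v2 : ∀ r, r ^ (n - 1) * f2 r = V1 n α r * h r ^ 2 := by
    intro r
    simp only [hf2, V1]
    ring
  have v1 : ∀ r, r ^ (n - 1) * f1 r = V1 n α r * h r := by
    intro r
    simp only [hf1, V1]
    ring
  have vW : ∀ r, r ^ (n - 1) * fW r = W1 n α r * deriv h r ^ 2 := by
    intro r
    simp only [hfW, W1]
    ring
  have hle : ∀ x : E n, fW ‖x‖ ≤ wt n α x * ‖fderiv ℝ g x‖ ^ 2 := by
    intro x
    have h1 : deriv h ‖x‖ ^ 2 ≤ ‖fderiv ℝ g x‖ ^ 2 := by
      rw [← sq_abs]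
      exact pow_le_pow_left₀ (abs_nonneg _) (hder x) 2
    exact mul_le_mul_of_nonneg_left h1 (pf_cut_wt_pos n α x).le
  have hfW0 : ∀ x : E n, 0 ≤ fW ‖x‖ := fun x =>
    mul_nonneg (pf_cut_wt_pos n α x).le (sq_nonneg _)
  have jW : Integrable (fun x : E n => fW ‖x‖) := by
    refine hg.2.1.mono' ?_ (Eventually.of_forall fun x => ?_)
    · have c1 : Continuous fun x : E n => wt n α x * deriv h ‖x‖ ^ 2 :=
        (pf_cut_wt_cont n α).mul ((hhd.comp continuous_norm).pow 2)
      exact c1.aestronglyMeasurable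
    · rw [Real.norm_of_nonneg (hfW0 x)]
      exact hle x
  have i2 : IntegrableOn (fun r => V1 n α r * h r ^ 2) (Ioi 0) := by
    have h1 := hg.2.2
    simp only [w2] at h1
    have h2 := (hint f2).1 h1
    simpa only [v2] using h2
  have iW : IntegrableOn (fun r => W1 n α r * deriv h r ^ 2) (Ioi 0) := by
    have h2 := (hint fW).1 jW
    simpa only [vW] using h2
  have h0 : ∫ r in Ioi (0 : ℝ), V1 n α r * h r = 0 := by
    have h1 := hz hα
    simp only [w1] at h1
    rw [hpol f1] at h1
    simp only [v1] at h1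
    rcases mul_eq_zero.1 h1 with h2 | h2
    · exact absurd h2 hσ0.ne'
    · exact h2
  have hle1 : ∫ r in Ioi (0 : ℝ), W1 n α r * deriv h r ^ 2 ≤
      Cst n α * ∫ r in Ioi (0 : ℝ), V1 n α r * h r ^ 2 := by
    have h1 : ∫ x : E n, fW ‖x‖ ≤ en n α g := integral_mono jW hg.2.1 hle
    rw [heq, hpol fW] at h1
    have h2 : ms n α g = σ * ∫ r in Ioi (0 : ℝ), V1 n α r * h r ^ 2 := by
      unfold ms
      simp only [w2]
      rw [hpol f2]
      simp only [v2]
    rw [h2] at h1
    simp only [vW] at h1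
    have h3 : σ * ∫ r in Ioi (0 : ℝ), W1 n α r * deriv h r ^ 2 ≤
      σ * (Cst n α * ∫ r in Ioi (0 : ℝ), V1 n α r * h r ^ 2) := by linarith
    exact le_of_mul_le_mul_left h3 hσ0
  -- from the profile back to the function
  have hback : ∀ k : ℝ, (∀ r, 0 < r → h r = k * (n + (n + 2 * α) * r ^ 2)) →
      ∀ x, g x = k * quad n α x := by
    intro k hk x
    have h1 : EqOn h (fun r => k * (n + (n + 2 * α) * r ^ 2)) (closure (Ioi 0)) :=
      (show EqOn h (fun r => k * (n + (n + 2 * α) * r ^ 2)) (Ioi 0) from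
        fun r hr => hk r hr).closure hhc (by fun_prop)
    rw [closure_Ioi] at h1
    rw [hgh x]
    exact h1 (norm_nonneg x)
  have hvan : (∀ r, 0 < r → h r = 0) → ∃ k : ℝ, (∀ x, g x = k * quad n α x) ∧
      (¬ (-(n : ℝ) ≤ α ∧ α < -((n : ℝ) + 2) / 2) → k = 0) := by
    intro h1
    exact ⟨0, hback 0 (fun r hr => by rw [h1 r hr]; ring), fun _ => rfl⟩
  by_cases hreg : α ≤ -((n : ℝ) + 2) / 2
  · -- theta = - alpha
    have hK : ∀ s : ℝ, pf_1d_K n α (-α) s = -4 * α - 2 * n := by
      intro s
      unfold pf_1d_K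
      have : 4 * -α * (α + -α) / s = 0 := by simp
      rw [this]
      ring
    have hC0 : 0 < Cst n α := (pf_1d_exists_theta hn hα).1
    have hCK : Cst n α ≤ -4 * α - 2 * n := by
      unfold Cst
      split_ifs with c1
      · linarith
      · exact le_rfl
    obtain ⟨G, hG, hG2⟩ := oneD n α (Cst n α) (-α) hn1 hα1 hna hC0
      (fun s _ => by rw [hK]; exact hCK) h hhC i2 iW h0 hle1
    by_cases hlt : α < -(n : ℝ)
    · have hC1 : Cst n α = -2 * α := by
        unfold Cst
        rw [if_pos hlt.le]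
      refine hvan fun r hr => ?_
      obtain ⟨g1, g2⟩ := hG2 r hr
      rw [hK, hC1] at g2
      rcases mul_eq_zero.1 g2 with h1 | h1
      · rw [g1, pow_eq_zero_iff (two_ne_zero) |>.1 h1, zero_mul]
      · exfalso
        linarith
    · push Not at hlt
      -- G = k r^n (1+r^2)^alpha
      have hquot : ∀ r : ℝ, 0 < r → HasDerivAt
          (fun r => G r / (r ^ n * (1 + r ^ 2) ^ α)) 0 r := by
        intro r hr
        have hs : (0 : ℝ) < 1 + r ^ 2 := by positivity
        have d1 : HasDerivAt (fun r : ℝ => 1 + r ^ 2) (2 * r) r := by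
          have := (hasDerivAt_pow 2 r).const_add 1
          simpa using this
        have d2 : HasDerivAt (fun r : ℝ => (1 + r ^ 2) ^ α)
            (2 * r * α * (1 + r ^ 2) ^ (α - 1)) r := d1.rpow_const (Or.inl hs.ne')
        have d3 : HasDerivAt (fun r : ℝ => r ^ n) (n * r ^ (n - 1)) r := hasDerivAt_pow n r
        have hden : r ^ n * (1 + r ^ 2) ^ α ≠ 0 := by positivity
        refine ((hG r).div (d3.mul d2) hden).congr_deriv ?_
        rw [div_eq_zero_iff]
        left
        obtain ⟨g1, -⟩ := hG2 r hr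
        have hrn : r ^ n = r ^ (n - 1) * r := by
          rw [← pow_succ]
          congr 1
          omega
        have hsα : (1 + r ^ 2) ^ α = (1 + r ^ 2) ^ (α - 1) * (1 + r ^ 2) := by
          rw [Real.rpow_sub_one hs.ne']
          field_simp
        have hV := pf_1d_Vpos n α hr
        have g3 : V1 n α r * h r = G r * pf_1d_p n (-α) r := by
          rw [g1]
          unfold pf_1d_q
          field_simp
        rw [g3]
        simp only [Pi.mul_apply]
        rw [hrn, hsα]
        unfold pf_1d_p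
        have := hr.ne'
        have := hs.ne'
        field_simp
        ring
      obtain ⟨k, hk⟩ := isOpen_Ioi.exists_is_const_of_deriv_eq_zero (isPreconnected_Ioi (a := (0 : ℝ)))
        (fun r hr => (hquot r hr).differentiableAt.differentiableWithinAt)
        (fun r hr => (hquot r hr).deriv)
      have hprof : ∀ r, 0 < r → h r = k * (n + (n + 2 * α) * r ^ 2) := by
        intro r hr
        have hs : (0 : ℝ) < 1 + r ^ 2 := by positivity
        have k1 := hk r hr
        have hden : r ^ n * (1 + r ^ 2) ^ α ≠ 0 := by positivity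
        rw [div_eq_iff hden] at k1
        have hrn : r ^ n = r ^ (n - 1) * r := by
          rw [← pow_succ]
          congr 1
          omega
        have hsα : (1 + r ^ 2) ^ α = (1 + r ^ 2) ^ (α - 1) * (1 + r ^ 2) := by
          rw [Real.rpow_sub_one hs.ne']
          field_simp
        have hsp : 0 < (1 + r ^ 2) ^ (α - 1) := Real.rpow_pos_of_pos hs _
        rw [(hG2 r hr).1, k1, hrn, hsα]
        unfold pf_1d_q pf_1d_p V1
        have := hr.ne'
        have := hs.ne'
        have h5 : (0 : ℝ) < r ^ (n - 1) := by positivity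
        generalize (1 + r ^ 2) ^ (α - 1) = A at *
        generalize r ^ (n - 1) = B at *
        field_simp
        ring
      have hfull := hback k hprof
      refine ⟨k, hfull, fun hnot => ?_⟩
      have hαe : α = -((n : ℝ) + 2) / 2 := by
        by_contra hne
        exact hnot ⟨hlt, lt_of_le_of_ne hreg hne⟩
      by_contra hk0
      apply not_int n hn1
      have a1 : Integrable (wt n (-(n : ℝ) / 2 - 1)) := pf_Ip_integrable (by linarith)
      have a2 : Integrable (wt n (-(n : ℝ) / 2 - 2)) := pf_Ip_integrable (by linarith)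
      have a3 := ((hg.2.2.const_mul ((k ^ 2)⁻¹ / 4)).add (a1.const_mul ((n : ℝ) + 2))).sub
        (a2.const_mul (((n : ℝ) + 2) ^ 2 / 4))
      refine a3.congr (Eventually.of_forall fun x => ?_)
      have hk2 : k ^ 2 ≠ 0 := pow_ne_zero 2 hk0
      have b0 : wt n (α - 1) x = wt n (-(n : ℝ) / 2 - 2) x := by
        congr 1
        rw [hαe]
        ring
      have b1 : wt n (-(n : ℝ) / 2 - 1) x = wt n (-(n : ℝ) / 2 - 2) x * (1 + ‖x‖ ^ 2) := by
        have := pf_cut_wt_mul n (-(n : ℝ) / 2 - 1) x
        rw [this]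
        congr 2
        ring
      have b2 : wt n (-(n : ℝ) / 2) x = wt n (-(n : ℝ) / 2 - 2) x * (1 + ‖x‖ ^ 2) ^ 2 := by
        have := pf_cut_wt_mul n (-(n : ℝ) / 2) x
        rw [this, b1]
        ring
      simp only [Pi.sub_apply, Pi.add_apply]
      rw [hfull x, b0, b1, b2]
      unfold quad
      rw [hαe]
      field_simp
      ring
  · -- the essential range
    push Not at hreg
    have hC1 : Cst n α = ((n : ℝ) + 2 * α - 2) ^ 2 / 4 := by
      unfold Cst
      rw [if_neg (by linarith), if_neg (by linarith), if_pos (by linarith)]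
    have hC0 : 0 < Cst n α := (pf_1d_exists_theta hn hα).1
    set θ : ℝ := (n / 2 + 1 - α) / 2 with hθ
    have hθ0 : 0 < θ := by rw [hθ]; linarith
    have hθ1 : 0 < α + θ := by rw [hθ]; linarith
    have hK : ∀ s : ℝ, pf_1d_K n α θ s = Cst n α + 4 * θ * (α + θ) / s := by
      intro s
      unfold pf_1d_K
      rw [hC1, hθ]
      ring
    obtain ⟨G, hG, hG2⟩ := oneD n α (Cst n α) θ hn1 hα1 hna hC0
      (fun s hs => by
        rw [hK]
        have : 0 ≤ 4 * θ * (α + θ) / s := by positivity
        linarith) h hhC i2 iW h0 hle1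
    refine hvan fun r hr => ?_
    obtain ⟨g1, g2⟩ := hG2 r hr
    rw [hK] at g2
    rcases mul_eq_zero.1 g2 with h1 | h1
    · rw [g1, pow_eq_zero_iff (two_ne_zero) |>.1 h1, zero_mul]
    · exfalso
      have : 0 < 4 * θ * (α + θ) / (1 + r ^ 2) := by positivity
      linarith

/-- all extremal functions in the constrained range -/
theorem eq_neg (n : ℕ) (α : ℝ) (hn : 2 ≤ n) (hα : α < -((n : ℝ) - 2) / 2) (u : E n → ℝ)
    (hu : FE n α u) (hz : ZM n α u) :
    en n α u = Cst n α * ms n α u ↔
    ∃ (L : E n →L[ℝ] ℝ) (k : ℝ), (¬ α ≤ -(n : ℝ) → L = 0) ∧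
      (¬ (-(n : ℝ) ≤ α ∧ α < -((n : ℝ) + 2) / 2) → k = 0) ∧
      ∀ x, u x = L x + k * quad n α x := by
  constructor
  · intro heq
    obtain ⟨L, hL0, hL⟩ := refl_case n α hn hα u hu hz heq
    have hg : FE n α (fun x => u x - L x) ∧ ZM n α (fun x => u x - L x) ∧
        en n α (fun x => u x - L x) = Cst n α * ms n α (fun x => u x - L x) := by
      by_cases hc : α ≤ -(n : ℝ)
      · obtain ⟨l1, l2, l3⟩ := lin_id n α hn hc L
        exact ⟨FE_sub hu l1, ZM_sub hu l1 hz l2, (eq_add_sub hn hu l1 hz l2 heq l3).2⟩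
      · rw [hL0 hc]
        simp only [_root_.zero_apply, sub_zero]
        exact ⟨hu, hz, heq⟩
    obtain ⟨k, k1, k2⟩ := radial_eq n α hn hα _ hg.1 hg.2.1
      (radial_of_refl (g := fun x => u x - L x) hL) hg.2.2
    refine ⟨L, k, hL0, k2, fun x => ?_⟩
    have h5 : u x - L x = k * quad n α x := k1 x
    linarith
  · rintro ⟨L, k, hL0, hk0, hu'⟩
    have hn' : (2 : ℝ) ≤ n := by exact_mod_cast hn
    have hue : u = fun x => L x + k * quad n α x := funext hu'
    have hlin : FE n α (fun x => L x) ∧ ZM n α (fun x => L x) ∧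
        en n α (fun x => L x) = Cst n α * ms n α (fun x => L x) := by
      by_cases hc : α ≤ -(n : ℝ)
      · exact lin_id n α hn hc L
      · rw [hL0 hc]
        have hz0 : (fun x : E n => (0 : E n →L[ℝ] ℝ) x) = fun _ => (0 : ℝ) := by
          funext x
          rfl
        rw [hz0]
        refine ⟨FE_of_cs contDiff_const HasCompactSupport.zero, fun _ => by simp, ?_⟩
        unfold en ms
        simp
    have hquad : FE n α (fun x => k * quad n α x) ∧ ZM n α (fun x => k * quad n α x) ∧
        en n α (fun x => k * quad n α x) = Cst n α * ms n α (fun x => k * quad n α x) := by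
      by_cases hc : -(n : ℝ) ≤ α ∧ α < -((n : ℝ) + 2) / 2
      · obtain ⟨q1, q2, q3⟩ := quad_id n α (by omega) hc.2
        refine ⟨FE_smul q1 k, ZM_smul q2 k, ?_⟩
        have hC : Cst n α = -4 * α - 2 * n := by
          unfold Cst
          split_ifs with c1 c2
          · have : α = -(n : ℝ) := le_antisymm c1 hc.1
            rw [this]
            ring
          · rfl
          · exact absurd hc.2.le c2
          · exact absurd hc.2.le c2
        rw [en_smul q1.1, ms_smul, q3, hC]
        ring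
      · rw [hk0 hc]
        simp only [zero_mul]
        refine ⟨FE_of_cs contDiff_const HasCompactSupport.zero, fun _ => by simp, ?_⟩
        unfold en ms
        simp
    rw [hue]
    exact (eq_add_sub hn hlin.1 hquad.1 hlin.2.1 hquad.2.1 hlin.2.2 hquad.2.2).1

end Pool.Agent.H34WH
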