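import Pool.Agent.H34WH.X7
import Pool.Agent.H34WH.P_top
import Pool.Agent.H34WH.P_u1
import Pool.Agent.H34WH.P_u2
import Pool.Agent.H34WH.P_u3
import Pool.Agent.H34WH.P_u5

set_option autoImplicit false

/-!
# The duality `α ↔ 2 - α` and the second constant
-/

namespace Pool.Agent.H34WH

open MeasureTheory Set Filter Topology Metric
open scoped ContDiff

theorem top_all : S_top :=
  pf_top (pf_low1 (pf_gs pf_ibp)) (pf_low2 (pf_red pf_odd) pf_avg (pf_nr pf_pol pf_1d))
    (pf_u1 (pf_Ip (pf_ibp2 pf_ibp)) pf_cut) (pf_u2 (pf_Ip (pf_ibp2 pf_ibp)) pf_cut)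
    (pf_u3 (pf_Ip (pf_ibp2 pf_ibp)) pf_cut) (pf_u4 (pf_Ip (pf_ibp2 pf_ibp)) pf_cut)
    (pf_u5 (pf_Ip (pf_ibp2 pf_ibp)) pf_cut)

/-- the dual function -/
noncomputable def dualf (n : ℕ) (α : ℝ) (u : E n → ℝ) (x : E n) : ℝ := wt n (α - 1) x * u x

theorem dualf_cd {n : ℕ} {α : ℝ} {u : E n → ℝ} (hu : ContDiff ℝ 1 u) :
    ContDiff ℝ 1 (dualf n α u) := (pf_Ip_contDiff n (α - 1)).mul hu

theorem dualf_energy {n : ℕ} {α : ℝ} {u : E n → ℝ} (hu : ContDiff ℝ 1 u) (x : E n) :
    wt n (2 - α) x * ‖fderiv ℝ (dualf n α u) x‖ ^ 2 = rem n α (α - 1) u x := by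
  have d1 := pf_Ip_hasFDerivAt (n := n) (α - 1) x
  have d2 := (hu.differentiable one_ne_zero x).hasFDerivAt
  have hs := pf_gs_pos x
  have e0 : wt n (α - 1) x = (1 + ‖x‖ ^ 2) ^ (α - 1 - 1) * (1 + ‖x‖ ^ 2) := by
    unfold wt
    rw [← Real.rpow_add_one hs.ne']
    congr 1
    ring
  have h1 : fderiv ℝ (dualf n α u) x =
      wt n (α - 1) x • (fderiv ℝ u x + (2 * (α - 1) * u x / (1 + ‖x‖ ^ 2)) • innerSL ℝ x) := by
    have h2 : fderiv ℝ (dualf n α u) x = _ := (d1.mul d2).fderiv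
    rw [h2]
    ext y
    simp only [_root_.add_apply, _root_.smul_apply, innerSL_apply_apply, smul_eq_mul,
      nsmul_eq_mul]
    rw [e0]
    field_simp
    push_cast
    ring
  rw [h1, norm_smul, mul_pow, Real.norm_eq_abs, sq_abs]
  unfold rem
  have h3 : wt n (2 - α) x * wt n (α - 1) x ^ 2 = wt n α x := by
    have : wt n (2 - α) x * wt n (α - 1) x ^ 2 =
      (wt n (2 - α) x * wt n (α - 1) x) * wt n (α - 1) x := by ring
    rw [this, wt_mul, wt_mul]
    congr 1
    ring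
  rw [← h3]
  ring

theorem dualf_mass {n : ℕ} {α : ℝ} (u : E n → ℝ) (c : ℝ) (x : E n) :
    wt n (2 - α - 1) x * (dualf n α u x - c) ^ 2 =
      wt n (α - 1) x * (u x - c * wt n (1 - α) x) ^ 2 := by
  have h1 : wt n (2 - α - 1) x * wt n (α - 1) x = 1 := by
    rw [wt_mul]
    have : 2 - α - 1 + (α - 1) = 0 := by ring
    rw [this]
    unfold wt
    exact Real.rpow_zero _
  have h2 : wt n (2 - α - 1) x = wt n (1 - α) x := by
    congr 1
    ring
  rw [h2] at h1 ⊢
  unfold dualf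
  linear_combination (u x ^ 2 * wt n (α - 1) x - c ^ 2 * wt n (1 - α) x) * h1

theorem rem_le {n : ℕ} {α : ℝ} (u : E n → ℝ) (x : E n) :
    rem n α (α - 1) u x ≤ 2 * (wt n α x * ‖fderiv ℝ u x‖ ^ 2) +
      8 * (α - 1) ^ 2 * (wt n (α - 1) x * u x ^ 2) := by
  unfold rem
  rw [dual_sq, pf_cut_wt_mul n α x]
  have hs := pf_gs_pos x
  have hw := pf_cut_wt_pos n (α - 1) x
  set c := 2 * (α - 1) * u x / (1 + ‖x‖ ^ 2) with hc
  have h1 : |fderiv ℝ u x x| ≤ ‖fderiv ℝ u x‖ * ‖x‖ := (fderiv ℝ u x).le_opNorm x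
  have h2 : 2 * c * fderiv ℝ u x x ≤ ‖fderiv ℝ u x‖ ^ 2 + c ^ 2 * ‖x‖ ^ 2 := by
    have h3 : c * fderiv ℝ u x x ≤ |c| * (‖fderiv ℝ u x‖ * ‖x‖) := by
      calc c * fderiv ℝ u x x ≤ |c * fderiv ℝ u x x| := le_abs_self _
        _ = |c| * |fderiv ℝ u x x| := abs_mul _ _
        _ ≤ _ := mul_le_mul_of_nonneg_left h1 (abs_nonneg _)
    have h4 : c ^ 2 = |c| ^ 2 := (sq_abs c).symm
    rw [h4]
    nlinarith [sq_nonneg (‖fderiv ℝ u x‖ - |c| * ‖x‖)]
  have h5 : c ^ 2 * ‖x‖ ^ 2 * (1 + ‖x‖ ^ 2) ≤ 4 * (α - 1) ^ 2 * u x ^ 2 := by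
    have h6 : c ^ 2 * ‖x‖ ^ 2 * (1 + ‖x‖ ^ 2) =
        4 * (α - 1) ^ 2 * u x ^ 2 * (‖x‖ ^ 2 / (1 + ‖x‖ ^ 2)) := by
      rw [hc]
      field_simp
      ring
    rw [h6]
    refine mul_le_of_le_one_right (by positivity) ?_
    rw [div_le_one hs]
    linarith
  have h7 : ‖fderiv ℝ u x‖ ^ 2 + 2 * c * fderiv ℝ u x x + c ^ 2 * ‖x‖ ^ 2 ≤
      2 * ‖fderiv ℝ u x‖ ^ 2 + 2 * (c ^ 2 * ‖x‖ ^ 2) := by linarith
  have h8 := mul_le_mul_of_nonneg_left h7 (mul_nonneg hw.le hs.le)
  have h9 := mul_le_mul_of_nonneg_left h5 hw.le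
  nlinarith [h8, h9]

theorem dualf_FE {n : ℕ} {α : ℝ} {u : E n → ℝ} (hu : FE n α u) : FE n (2 - α) (dualf n α u) := by
  refine ⟨dualf_cd hu.1, ?_, ?_⟩
  · refine ((hu.2.1.const_mul 2).add (hu.2.2.const_mul (8 * (α - 1) ^ 2))).mono' ?_
      (Eventually.of_forall fun x => ?_)
    · exact ((pf_cut_wt_cont n (2 - α)).mul
        (((dualf_cd hu.1).continuous_fderiv one_ne_zero).norm.pow 2)).aestronglyMeasurable
    · rw [dualf_energy hu.1, Real.norm_of_nonneg (rem_nonneg n α (α - 1) u x)]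
      exact rem_le u x
  · refine hu.2.2.congr (Eventually.of_forall fun x => ?_)
    have := dualf_mass (α := α) u 0 x
    simp only [zero_mul, sub_zero] at this
    exact this.symm

theorem dualf_ms {n : ℕ} {α : ℝ} (u : E n → ℝ) (c : ℝ) :
    ms n (2 - α) (fun x => dualf n α u x - c) = ms n α (fun x => u x - c * wt n (1 - α) x) := by
  unfold ms
  exact integral_congr_ae (Eventually.of_forall fun x => dualf_mass u c x)

theorem dualf_ms0 {n : ℕ} {α : ℝ} (u : E n → ℝ) : ms n (2 - α) (dualf n α u) = ms n α u := by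
  have := dualf_ms (n := n) (α := α) u 0
  simp only [sub_zero, zero_mul] at this
  exact this

theorem dualf_en_cs {n : ℕ} {α : ℝ} {u : E n → ℝ} (hu : ContDiff ℝ 1 u)
    (hc : HasCompactSupport u) :
    en n (2 - α) (dualf n α u) = en n α u - 2 * n * (α - 1) * ms n α u := by
  obtain ⟨-, h2⟩ := gs_id n α (α - 1) u hu hc
  have h3 : en n (2 - α) (dualf n α u) = ∫ x, rem n α (α - 1) u x := by
    unfold en
    exact integral_congr_ae (Eventually.of_forall fun x => dualf_energy hu x)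
  have h4 : ∫ x, wt n (α - 1) x * (2 * (α - 1) * (n + 2 * (α - 1 - (α - 1))) -
      4 * (α - 1) * (α - 1 - (α - 1)) / (1 + ‖x‖ ^ 2)) * u x ^ 2 =
      2 * n * (α - 1) * ms n α u := by
    unfold ms
    rw [← integral_const_mul]
    refine integral_congr_ae (Eventually.of_forall fun x => ?_)
    simp only [sub_self, mul_zero, zero_div, add_zero, sub_zero]
    ring
  rw [h4] at h2
  rw [h3]
  linarith

theorem dualf_en {n : ℕ} {α : ℝ} {u : E n → ℝ} (hu : FE n α u) :
    en n (2 - α) (dualf n α u) = en n α u - 2 * n * (α - 1) * ms n α u := by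
  have hv := dualf_FE hu
  obtain ⟨k1, k2⟩ := x1_key n α hu.1 hu.2.1 hu.2.2 (η := fun _ => (0 : ℝ)) contDiff_const
      HasCompactSupport.zero (fun _ => 0) tendsto_const_nhds
  obtain ⟨l1, -⟩ := x1_key n (2 - α) hv.1 hv.2.1 hv.2.2 (η := fun _ => (0 : ℝ)) contDiff_const
      HasCompactSupport.zero (fun _ => 0) tendsto_const_nhds
  refine tendsto_nhds_unique l1 ?_
  refine (k1.sub (k2.const_mul (2 * n * (α - 1)))).congr fun k => ?_
  rw [← dualf_en_cs (x1_cd n hu.1 (η := fun _ => (0 : ℝ)) contDiff_const 0 k)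
    (((pf_cut_X_cs n k).mul_right).sub
      ((HasCompactSupport.zero : HasCompactSupport (fun _ : E n => (0 : ℝ))).mul_left
        (f := fun _ => (0 : ℝ))))]
  congr 1
  funext x
  unfold dualf
  ring

theorem const_FE {n : ℕ} {α : ℝ} (hα : α < -((n : ℝ) - 2) / 2) (c : ℝ) :
    FE n α (fun _ => c) := by
  refine ⟨contDiff_const, ?_, ?_⟩
  · simp
  · have h1 : Integrable (wt n (α - 1)) := pf_Ip_integrable (by linarith)
    exact h1.mul_const _

theorem en_sub_const {n : ℕ} {α : ℝ} {v : E n → ℝ} (hv : ContDiff ℝ 1 v) (c : ℝ) :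
    en n α (fun x => v x - c) = en n α v := by
  unfold en
  refine integral_congr_ae (Eventually.of_forall fun x => ?_)
  simp only
  rw [((hv.differentiable one_ne_zero x).hasFDerivAt.sub_const c).fderiv]

/-- the functions of finite energy are integrable for `α > (n+2)/2` -/
theorem int_u {n : ℕ} {α : ℝ} {u : E n → ℝ} (hu : FE n α u) (hα : ((n : ℝ) + 2) / 2 < α) :
    Integrable u := by
  have h1 : Integrable (wt n (1 - α)) := pf_Ip_integrable (by linarith)
  refine (h1.add hu.2.2).mono' hu.1.continuous.aestronglyMeasurable ?_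
  refine Eventually.of_forall fun x => ?_
  have hv := pf_cut_wt_pos n (α - 1) x
  have hv' := pf_cut_wt_pos n (1 - α) x
  have h2 : wt n (α - 1) x * wt n (1 - α) x = 1 := by
    rw [wt_mul]
    have : α - 1 + (1 - α) = 0 := by ring
    rw [this]
    unfold wt
    exact Real.rpow_zero _
  rw [Real.norm_eq_abs, Pi.add_apply]
  have h3 : |u x| ^ 2 = u x ^ 2 := sq_abs _
  have h4 : 0 ≤ wt n (α - 1) x * (|u x| - wt n (1 - α) x) ^ 2 := by positivity
  have h5 : wt n (α - 1) x * (|u x| - wt n (1 - α) x) ^ 2 =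
      wt n (α - 1) x * u x ^ 2 - 2 * |u x| * (wt n (α - 1) x * wt n (1 - α) x) +
        wt n (1 - α) x * (wt n (α - 1) x * wt n (1 - α) x) := by
    rw [← h3]
    ring
  rw [h2] at h5
  have h6 := abs_nonneg (u x)
  nlinarith

/-- sharp stability for `α > (n+2)/2`, with all cases of equality -/
theorem stab (n : ℕ) (α : ℝ) (hn : 2 ≤ n) (hα : ((n : ℝ) + 2) / 2 < α) (u : E n → ℝ)
    (hu : FE n α u) (c : ℝ) (hc : c = (∫ x, u x) / ∫ x, wt n (1 - α) x) :
    Cst n (2 - α) * ms n α (fun x => u x - c * wt n (1 - α) x) ≤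
      en n α u - 2 * n * (α - 1) * ms n α u ∧
    (en n α u - 2 * n * (α - 1) * ms n α u =
      Cst n (2 - α) * ms n α (fun x => u x - c * wt n (1 - α) x) ↔
      ∃ (b : ℝ) (L : E n →L[ℝ] ℝ) (k : ℝ), (¬ 2 - α ≤ -(n : ℝ) → L = 0) ∧
        (¬ (-(n : ℝ) ≤ 2 - α ∧ 2 - α < -((n : ℝ) + 2) / 2) → k = 0) ∧
        ∀ x, u x = wt n (1 - α) x * (b + L x + k * quad n (2 - α) x)) := by
  have hα' : 2 - α < -((n : ℝ) - 2) / 2 := by linarith
  have hv := dualf_FE hu
  have hcF := const_FE hα' (n := n) c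
  have hvc : FE n (2 - α) (fun x => dualf n α u x - c) := FE_sub hv hcF
  have hI : 0 < ∫ x, wt n (1 - α) x :=
    (pf_Ip (pf_ibp2 pf_ibp) n (1 - α) (by omega) (by linarith)).2.1
  have hw1 : ∀ x : E n, wt n (2 - α - 1) x = wt n (1 - α) x := by
    intro x
    congr 1
    ring
  have hw2 : ∀ x : E n, wt n (1 - α) x * wt n (α - 1) x = 1 := by
    intro x
    rw [wt_mul]
    have : 1 - α + (α - 1) = 0 := by ring
    rw [this]
    unfold wt
    exact Real.rpow_zero _
  have hIw : Integrable (wt n (1 - α)) := pf_Ip_integrable (by linarith)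
  have hmean : ∀ c' : ℝ, ∫ x, wt n (2 - α - 1) x * (dualf n α u x - c') =
      (∫ x, u x) - c' * ∫ x, wt n (1 - α) x := by
    intro c'
    have e1 : ∀ x, wt n (2 - α - 1) x * (dualf n α u x - c') = u x - c' * wt n (1 - α) x := by
      intro x
      rw [hw1]
      unfold dualf
      linear_combination (u x) * hw2 x
    simp only [e1]
    rw [integral_sub (int_u hu hα) (hIw.const_mul c'), integral_const_mul]
  have hz : ZM n (2 - α) (fun x => dualf n α u x - c) := by
    intro _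
    rw [hmean, hc]
    field_simp
    ring
  have hlow := low_FE n (2 - α) hn _ hvc hz
  have hen : en n (2 - α) (fun x => dualf n α u x - c) =
      en n α u - 2 * n * (α - 1) * ms n α u := by
    rw [en_sub_const hv.1, dualf_en hu]
  have hms := dualf_ms (n := n) (α := α) u c
  rw [hen, hms] at hlow
  refine ⟨hlow, ?_⟩
  have hiff := eq_neg n (2 - α) hn hα' _ hvc hz
  rw [hen, hms] at hiff
  rw [hiff]
  constructor
  · rintro ⟨L, k, h1, h2, h3⟩
    refine ⟨c, L, k, h1, h2, fun x => ?_⟩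
    have h4 : dualf n α u x = c + L x + k * quad n (2 - α) x := by
      have := h3 x
      linarith
    rw [← h4]
    unfold dualf
    linear_combination (-(u x)) * hw2 x
  · rintro ⟨b, L, k, h1, h2, h3⟩
    have h4 : ∀ x, dualf n α u x = b + L x + k * quad n (2 - α) x := by
      intro x
      unfold dualf
      rw [h3 x]
      linear_combination (b + L x + k * quad n (2 - α) x) * hw2 x
    -- the mean determines `b`
    have hlin : FE n (2 - α) (fun x => L x) ∧ ZM n (2 - α) (fun x => L x) := by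
      by_cases hc : 2 - α ≤ -(n : ℝ)
      · obtain ⟨l1, l2, -⟩ := lin_id n (2 - α) hn hc L
        exact ⟨l1, l2⟩
      · rw [h1 hc]
        have hz0 : (fun x : E n => (0 : E n →L[ℝ] ℝ) x) = fun _ => (0 : ℝ) := by
          funext x
          rfl
        rw [hz0]
        exact ⟨FE_of_cs contDiff_const HasCompactSupport.zero, fun _ => by simp⟩
    have hquad : FE n (2 - α) (fun x => k * quad n (2 - α) x) ∧
        ZM n (2 - α) (fun x => k * quad n (2 - α) x) := by
      by_cases hc : -(n : ℝ) ≤ 2 - α ∧ 2 - α < -((n : ℝ) + 2) / 2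
      · obtain ⟨q1, q2, q3⟩ := quad_id n (2 - α) (by omega) hc.2
        exact ⟨FE_smul q1 k, ZM_smul q2 k⟩
      · rw [h2 hc]
        simp only [zero_mul]
        exact ⟨FE_of_cs contDiff_const HasCompactSupport.zero, fun _ => by simp⟩
    have hsum := ZM_add hlin.1 hquad.1 hlin.2 hquad.2 hα'
    have hb := hmean b
    have e2 : ∀ x, wt n (2 - α - 1) x * (dualf n α u x - b) =
        wt n (2 - α - 1) x * (L x + k * quad n (2 - α) x) := by
      intro x
      rw [h4 x]
      ring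
    simp only [e2] at hb
    rw [hsum] at hb
    have hbc : b = c := by
      rw [hc, eq_div_iff hI.ne']
      linarith
    refine ⟨L, k, h1, h2, fun x => ?_⟩
    rw [h4 x, hbc]
    ring

/-- the second constant for `α > (n+2)/2` -/
theorem second (n : ℕ) (α : ℝ) (hn : 2 ≤ n) (hα : ((n : ℝ) + 2) / 2 < α) :
    IsGLB {q : ℝ | ∃ u : E n → ℝ, ContDiff ℝ ∞ u ∧ HasCompactSupport u ∧ u ≠ 0 ∧
      ∫ x, u x = 0 ∧ q = en n α u / ms n α u} (2 * n * (α - 1) + Cst n (2 - α)) := by
  have hα' : 2 - α < -((n : ℝ) - 2) / 2 := by linarith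
  have htop := top_all n (2 - α) hn
  have hw1 : ∀ x : E n, wt n (2 - α - 1) x = wt n (1 - α) x := by
    intro x
    congr 1
    ring
  have hw2 : ∀ x : E n, wt n (1 - α) x * wt n (α - 1) x = 1 := by
    intro x
    rw [wt_mul]
    have : 1 - α + (α - 1) = 0 := by ring
    rw [this]
    unfold wt
    exact Real.rpow_zero _
  constructor
  · rintro q ⟨u, hu, hc, hne, h0, rfl⟩
    have hu1 : ContDiff ℝ 1 u := hu.of_le (by exact_mod_cast le_top)
    have hpos := pf_top_ms_pos n α u hu1.continuous hc hne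
    rw [le_div_iff₀ hpos]
    have hs := (stab n α hn hα u (FE_of_cs hu1 hc) 0 (by rw [h0, zero_div])).1
    simp only [zero_mul, sub_zero] at hs
    linarith
  · intro b hb
    have h1 : b - 2 * n * (α - 1) ≤ Cst n (2 - α) := by
      refine htop.2 ?_
      rintro q ⟨v, ⟨v1, v2, v3, v4⟩, rfl⟩
      -- the function `w^(1-α) v`
      have hsm : ContDiff ℝ ∞ (wt n (1 - α)) := pf_u2_smooth n _
      have hu : ContDiff ℝ ∞ (fun x => wt n (1 - α) x * v x) := hsm.mul v1
      have hc : HasCompactSupport (fun x => wt n (1 - α) x * v x) := v2.mul_left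
      have hu1 : ContDiff ℝ 1 (fun x => wt n (1 - α) x * v x) :=
        hu.of_le (by exact_mod_cast le_top)
      have hdv : dualf n α (fun x => wt n (1 - α) x * v x) = v := by
        funext x
        unfold dualf
        linear_combination (v x) * hw2 x
      have hne : (fun x => wt n (1 - α) x * v x) ≠ 0 := by
        intro h
        apply v3
        rw [← hdv, h]
        funext x
        unfold dualf
        simp
      have h0 : ∫ x, wt n (1 - α) x * v x = 0 := by
        have := v4 hα'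
        simpa only [hw1] using this
      have hpos := pf_top_ms_pos n α _ hu1.continuous hc hne
      have hb' := hb ⟨_, hu, hc, hne, h0, rfl⟩
      rw [le_div_iff₀ hpos] at hb'
      have e1 := dualf_en_cs (α := α) hu1 hc
      have e2 := dualf_ms0 (α := α) (fun x => wt n (1 - α) x * v x)
      rw [hdv] at e1 e2
      rw [e1, e2, le_div_iff₀ hpos]
      linarith
    linarith

/-- the second constant, explicitly -/
noncomputable def Cst2 (n : ℕ) (α : ℝ) : ℝ :=
  if α ≤ ((n : ℝ) + 6) / 2 then ((n : ℝ) + 2 * α - 2) ^ 2 / 4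
  else if α ≤ (n : ℝ) + 2 then 2 * (n + 2) * (α - 2)
  else 2 * (n + 1) * α - 2 * n - 4

theorem Cst2_eq (n : ℕ) (α : ℝ) (hn : 2 ≤ n) (hα : ((n : ℝ) + 2) / 2 < α) :
    2 * n * (α - 1) + Cst n (2 - α) = Cst2 n α := by
  have hn' : (2 : ℝ) ≤ n := by exact_mod_cast hn
  unfold Cst Cst2
  by_cases h1 : α ≤ ((n : ℝ) + 6) / 2
  · rw [if_pos h1]
    by_cases h2 : 2 - α ≤ -(n : ℝ)
    · -- then `n = 2` and `α = 4`
      have h3 : (n : ℝ) = 2 := by linarith
      have h4 : α = 4 := by linarith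
      rw [if_pos h2, h3, h4]
      norm_num
    · rw [if_neg h2]
      by_cases h3 : 2 - α ≤ -((n : ℝ) + 2) / 2
      · have h4 : α = ((n : ℝ) + 6) / 2 := by linarith
        rw [if_pos h3, h4]
        ring
      · rw [if_neg h3, if_pos (by linarith)]
        ring
  · rw [if_neg h1]
    by_cases h2 : α ≤ (n : ℝ) + 2
    · rw [if_pos h2]
      by_cases h3 : 2 - α ≤ -(n : ℝ)
      · have h4 : α = (n : ℝ) + 2 := by linarith
        rw [if_pos h3, h4]
        ring
      · rw [if_neg h3, if_pos (by linarith)]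
        ring
    · rw [if_neg h2, if_pos (by linarith)]
      ring

end Pool.Agent.H34WH
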